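import Pool.Agent.Run7.h866.NU.Ball

/-! The vectors of multiplicities close to a uniform vector, for the results files. -/

set_option autoImplicit false

namespace Pool.Agent.Run7.h866.NU

open Finset Pool.Agent.H932R3

/-- The cost of a multiplicity `e ≤ m + 1`: `0` for `m`, `1` for `m + 1`, `4 (m - e) - 2` for
`e < m`. -/
def cst (m e : ℕ) : ℕ := if e < m then 4 * (m - e) - 2 else if e = m then 0 else 1

/-- The vector `w` is close to the constant vector `m`, `n ≥ 37` points: `n + 6 ≤ 2 m`,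
`w i ≤ m + 1`, and the total cost `T` satisfies `T + c / 2 + 9 / 8 < 7 √n / 6` or
`T + c + 2 √n / 3 + 23 / 8 ≤ n / 4`, where `c = cc n` is `0, 5, 2, 3` for `n ≡ 0, 1, 2, 3`
modulo four. -/
def CloseTo (m : ℕ) {n : ℕ} (w : Fin n → ℕ) : Prop :=
  37 ≤ n ∧ n + 6 ≤ 2 * m ∧ (∀ i, w i ≤ m + 1) ∧
    (((∑ i, cst m (w i) : ℕ) : ℝ) + (cc n : ℝ) / 2 + 9 / 8 < 7 * √(n : ℝ) / 6 ∨
      ((∑ i, cst m (w i) : ℕ) : ℝ) + cc n + 2 * √(n : ℝ) / 3 + 23 / 8 ≤ (n : ℝ) / 4)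

/-- Near-uniform vectors on `n ≥ 200` points, and vectors close to a constant one on `n ≥ 37`
points. -/
def NearV {n : ℕ} (w : Fin n → ℕ) : Prop :=
  (200 ≤ n ∧ ∃ m, 1 ≤ m ∧ ∀ i, w i = m ∨ w i = m + 1) ∨ ∃ m, CloseTo m w

theorem closeTo_exp {n m : ℕ} {w : Fin n → ℕ} (h : CloseTo m w) :
    ∃ F : MvPolynomial (Fin n × Fin 2) ℚ, F ≠ 0 ∧
      ∀ {L : Type} [Field L] [CharZero L] (P : Fin n → Fin 2 → L),
        MvPolynomial.aeval (fun ij : Fin n × Fin 2 => P ij.1 ij.2) F ≠ 0 →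
        ∀ d : ℕ, ExpDim L w P d := by
  obtain ⟨hn, hm, hw, hT⟩ := h
  have e0 : ∑ i, cst m (w i) = Pool.Agent.TH641.DI.dist m w := by
    unfold Pool.Agent.TH641.DI.dist
    refine Finset.sum_congr rfl fun i _ => ?_
    have h := hw i
    unfold cst Pool.Agent.TH641.DI.cost
    split_ifs <;> omega
  rw [e0] at hT
  exact expDim_ball hn hm hw hT

/-- **The vectors `NearV` are special in no degree.** -/
theorem nearV_exp {n : ℕ} {w : Fin n → ℕ} (h : NearV w) (K : Type) [Field K] [CharZero K] :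
    ∃ F : MvPolynomial (Fin n × Fin 2) ℚ, F ≠ 0 ∧ ∀ P : Fin n → Fin 2 → K,
      MvPolynomial.aeval (fun ij : Fin n × Fin 2 => P ij.1 ij.2) F ≠ 0 →
        ∀ d : ℕ, ExpDim K w P d := by
  rcases h with ⟨hn, m, hm, hw⟩ | ⟨m, h⟩
  · exact near_all hn hm hw
  · obtain ⟨F, hF, hF'⟩ := closeTo_exp h
    exact ⟨F, hF, fun P hP => hF' P hP⟩

end Pool.Agent.Run7.h866.NU
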