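import Pool.Agent.Run7.h866.NU.Close
import Pool.Agent.H248R6.All

/-! Near-uniform vectors on at least 200 points and vectors close to a uniform one: the general member
is smooth above the first degree. -/

set_option autoImplicit false

namespace Pool.Agent.Run7.h866.NU

open MvPolynomial Pool.Agent.H248R5 Pool.Agent.H248R6

/-- One hypersurface for all degrees and all vectors of multiplicities below a given one. -/
theorem open_allw {K : Type} [Field K] [CharZero K] {n : ℕ} (v : Fin n → ℕ) (hn : 0 < n)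
    (good : ℕ → Prop) (D0 : ℕ)
    (h1 : ∀ e, good (e + 1) → ∀ (L : Type) [Field L] [CharZero L] (P : Fin n → Fin 2 → L),
      AlgebraicIndependent ℚ (fun ij : Fin n × Fin 2 => P ij.1 ij.2) →
      (∀ k, Function.Surjective (ev (Function.update v k (v k + 1)) P (e + 1))) ∧
      Function.Surjective (ev (fun i => v i - 1) P e))
    (h2 : ∃ F : MvPolynomial (Fin n × Fin 2) ℚ, F ≠ 0 ∧ ∀ P : Fin n → Fin 2 → K,
      aeval (fun ij : Fin n × Fin 2 => P ij.1 ij.2) F ≠ 0 → ∀ e, good (e + 1) → ∀ k,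
        Function.Surjective (ev (Function.update v k (v k + 1)) P (e + 1)))
    (h3 : ∃ F : MvPolynomial (Fin n × Fin 2) ℚ, F ≠ 0 ∧ ∀ P : Fin n → Fin 2 → K,
      aeval (fun ij : Fin n × Fin 2 => P ij.1 ij.2) F ≠ 0 → ∀ d, D0 ≤ d →
        Function.Surjective (ev v P d)) :
    ∃ F : MvPolynomial (Fin n × Fin 2) ℚ, F ≠ 0 ∧ ∀ P : Fin n → Fin 2 → K,
      aeval (fun ij : Fin n × Fin 2 => P ij.1 ij.2) F ≠ 0 →
      ∀ w : Fin n → ℕ, (∀ i, w i ≤ v i) → ∀ e, (good (e + 1) ∨ D0 ≤ e) →
        Module.finrank K ↥(forms w P (e + 1)) + ∑ i, (w i + 1).choose 2 = (e + 3).choose 2 ∧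
          GeneralMember (forms w P (e + 1)) (SmoothMember w P) := by
  classical
  obtain ⟨F2, hF2, hF2'⟩ := h2
  obtain ⟨F3, hF3, hF3'⟩ := h3
  have hup : ∀ {L : Type} [Field L] {P : Fin n → Fin 2 → L} {w : Fin n → ℕ} {e : ℕ},
      (∀ i, w i ≤ v i) →
      (∀ k, Function.Surjective (ev (Function.update v k (v k + 1)) P (e + 1))) →
      (∀ k, Function.Surjective (ev (Function.update w k (w k + 1)) P (e + 1))) ∧
      Function.Surjective (ev w P (e + 1)) := by
    intro L _ P w e hw hs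
    have h4 : ∀ k, Function.Surjective (ev (Function.update w k (w k + 1)) P (e + 1)) := by
      intro k
      refine surj_mono (fun i => ?_) (hs k)
      by_cases hi : i = k
      · subst hi
        rw [Function.update_self, Function.update_self]
        have := hw i
        omega
      · rw [Function.update_of_ne hi, Function.update_of_ne hi]
        exact hw i
    refine ⟨h4, surj_mono (fun i => ?_) (h4 ⟨0, hn⟩)⟩
    by_cases hi : i = ⟨0, hn⟩
    · subst hi
      rw [Function.update_self]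
      omega
    · rw [Function.update_of_ne hi]
  have key : ∀ x : (∀ i, Fin (v i + 1)) × Fin D0, ∃ F : MvPolynomial (Fin n × Fin 2) ℚ,
      F ≠ 0 ∧ (good ((x.2 : ℕ) + 1) → ∀ P : Fin n → Fin 2 → K,
        aeval (fun ij : Fin n × Fin 2 => P ij.1 ij.2) F ≠ 0 →
        Module.finrank K ↥(forms (fun i => (x.1 i : ℕ)) P ((x.2 : ℕ) + 1)) +
            ∑ i, ((x.1 i : ℕ) + 1).choose 2 = ((x.2 : ℕ) + 3).choose 2 ∧
          GeneralMember (forms (fun i => (x.1 i : ℕ)) P ((x.2 : ℕ) + 1))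
            (SmoothMember (fun i => (x.1 i : ℕ)) P)) := by
    intro x
    by_cases hx : good ((x.2 : ℕ) + 1)
    · have hw : ∀ i, (fun i => (x.1 i : ℕ)) i ≤ v i := fun i => by
        have := (x.1 i).2
        simp only
        omega
      obtain ⟨F, hF, hF'⟩ := open_main (K := K) (n := n) (e := (x.2 : ℕ))
        (w := fun i => (x.1 i : ℕ))
        (fun L _ _ P hP => by
          obtain ⟨a1, a2⟩ := h1 _ hx L P hP
          obtain ⟨b1, b2⟩ := hup hw a1
          refine ⟨b1, b2, surj_mono (fun i => ?_) a2⟩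
          exact Nat.sub_le_sub_right (hw i) 1)
        ⟨F2, hF2, fun P hP => hup hw (hF2' P hP _ hx)⟩
      exact ⟨F, hF, fun _ => hF'⟩
    · exact ⟨1, one_ne_zero, fun h => absurd h hx⟩
  choose G hG hG' using key
  refine ⟨F2 * F3 * disc ℚ n * ∏ x, G x, mul_ne_zero (mul_ne_zero (mul_ne_zero hF2 hF3)
    (disc_ne ℚ n)) (Finset.prod_ne_zero_iff.2 fun x _ => hG x), fun P hP w hw e he => ?_⟩
  rw [map_mul, map_mul, map_mul, map_prod] at hP
  have hP2 := left_ne_zero_of_mul (left_ne_zero_of_mul (left_ne_zero_of_mul hP))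
  have hP3 := right_ne_zero_of_mul (left_ne_zero_of_mul (left_ne_zero_of_mul hP))
  have hPd := inj_of_disc' (right_ne_zero_of_mul (left_ne_zero_of_mul hP))
  rcases Nat.lt_or_ge e D0 with h0 | h0
  · have hg : good (e + 1) := he.resolve_right (by omega)
    let u : ∀ i, Fin (v i + 1) := fun i => ⟨w i, Nat.lt_succ_of_le (hw i)⟩
    have hx := Finset.prod_ne_zero_iff.1 (right_ne_zero_of_mul hP) (u, (⟨e, h0⟩ : Fin D0))
      (Finset.mem_univ _)
    have h5 := hG' (u, (⟨e, h0⟩ : Fin D0)) hg P hx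
    have hu : (fun i => (u i : ℕ)) = w := rfl
    simp only [hu] at h5
    exact h5
  · have a1 := surj_mono (w := w) hw (hF3' P hP3 e h0)
    have a2 := surj_mono (w := w) hw (hF3' P hP3 (e + 1) (by omega))
    exact ⟨finrank_of_surj a2, general_smooth hPd (finrank_of_surj a1).le⟩

theorem surj_of_exp {K : Type} [Field K] {n : ℕ} {w : Fin n → ℕ} {P : Fin n → Fin 2 → K} {d : ℕ}
    (h : H932R3.ExpDim K w P d) (hd : ∑ i, (w i + 1).choose 2 ≤ (d + 2).choose 2) :
    Function.Surjective (ev w P d) := by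
  refine surj_of_ind ?_
  have h1 : Module.finrank K ↥(forms w P d) = (d + 2).choose 2 - ∑ i, (w i + 1).choose 2 := h
  omega

theorem sum_updw {n : ℕ} (v : Fin n → ℕ) (k : Fin n) :
    ∑ i, (Function.update v k (v k + 1) i + 1).choose 2 = ∑ i, (v i + 1).choose 2 + v k + 1 := by
  classical
  have h1 : ∀ i, (Function.update v k (v k + 1) i + 1).choose 2 =
      (v i + 1).choose 2 + if i = k then v k + 1 else 0 := by
    intro i
    by_cases hi : i = k
    · subst hi
      rw [Function.update_self, if_pos rfl]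
      have := two_choose (v i)
      have h2 := two_choose (v i + 1)
      nlinarith
    · rw [Function.update_of_ne hi, if_neg hi, add_zero]
  rw [Finset.sum_congr rfl fun i _ => h1 i, Finset.sum_add_distrib, Finset.sum_ite_eq',
    if_pos (Finset.mem_univ k), add_assoc]

/-- The vector of the numbers `v i - 1` in the preceding degree. -/
theorem num_w {n e : ℕ} {v : Fin n → ℕ}
    (h : ∑ i, (v i + 1).choose 2 ≤ (e + 3).choose 2) :
    ∑ i, (v i - 1 + 1).choose 2 ≤ (e + 2).choose 2 := by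
  have h3 := two_choose (e + 1)
  have h4 := two_choose (e + 2)
  have e3 : e + 1 + 1 = e + 2 := rfl
  have e4 : e + 2 + 1 = e + 3 := rfl
  rw [e3] at h3
  rw [e4] at h4
  have t : ∀ i, (v i - 1 + 1).choose 2 + v i = (v i + 1).choose 2 := by
    intro i
    rcases Nat.eq_zero_or_pos (v i) with h0 | h0
    · rw [h0]
      rfl
    · obtain ⟨m, hm⟩ : ∃ m, v i = m + 1 := ⟨v i - 1, by omega⟩
      have h1 := two_choose m
      have h2 := two_choose (m + 1)
      rw [hm, Nat.add_sub_cancel]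
      nlinarith
  have h5 : ∑ i, (v i - 1 + 1).choose 2 + ∑ i, v i = ∑ i, (v i + 1).choose 2 := by
    rw [← Finset.sum_add_distrib]
    exact Finset.sum_congr rfl fun i _ => t i
  rcases Nat.le_total (e + 2) (∑ i, v i) with h6 | h6
  · nlinarith
  · have h7 : ∀ i, 2 * (v i - 1 + 1).choose 2 ≤ v i * (e + 1) := by
      intro i
      have h8 : v i ≤ ∑ i, v i :=
        Finset.single_le_sum (fun _ _ => Nat.zero_le _) (Finset.mem_univ i)
      rw [two_choose]
      rcases Nat.eq_zero_or_pos (v i) with h0 | h0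
      · rw [h0]
        simp
      · rw [Nat.sub_add_cancel h0]
        exact Nat.mul_le_mul le_rfl (by omega)
    have h9 : 2 * ∑ i, (v i - 1 + 1).choose 2 ≤ (∑ i, v i) * (e + 1) := by
      rw [Finset.mul_sum, Finset.sum_mul]
      exact Finset.sum_le_sum fun i _ => h7 i
    have h10 : (∑ i, v i) * (e + 1) ≤ (e + 2) * (e + 1) := Nat.mul_le_mul h6 le_rfl
    omega


theorem nearV_pos {n : ℕ} {w : Fin n → ℕ} (h : NearV w) : 0 < n := by
  rcases h with ⟨h, _⟩ | ⟨_, h, _⟩ <;> omega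

/-- **Near-uniform vectors**: every degree, and smooth general members above the first degree, one
hypersurface. -/
theorem nearV_smooth {K : Type} [Field K] [CharZero K] {n : ℕ} {v : Fin n → ℕ} (hv : NearV v) :
    ∃ F : MvPolynomial (Fin n × Fin 2) ℚ, F ≠ 0 ∧ ∀ P : Fin n → Fin 2 → K,
      aeval (fun ij : Fin n × Fin 2 => P ij.1 ij.2) F ≠ 0 →
      (∀ d, H932R3.ExpDim K v P d) ∧
      ∀ w : Fin n → ℕ, (∀ i, w i ≤ v i) → ∀ d, ∑ i, (v i + 1).choose 2 ≤ (d + 2).choose 2 →
        Module.finrank K ↥(forms w P d) + ∑ i, (w i + 1).choose 2 = (d + 2).choose 2 ∧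
          GeneralMember (forms w P (d + 1)) (SmoothMember w P) := by
  obtain ⟨F, hF, hF'⟩ := nearV_exp hv K
  refine ⟨F * disc ℚ n, mul_ne_zero hF (disc_ne ℚ n), fun P hP => ?_⟩
  rw [map_mul] at hP
  have h1 := hF' P (left_ne_zero_of_mul hP)
  have hPd := inj_of_disc' (right_ne_zero_of_mul hP)
  refine ⟨h1, fun w hw d hd => ?_⟩
  have h2 := surj_mono (w := w) hw (surj_of_exp (h1 d) hd)
  exact ⟨finrank_of_surj h2, general_smooth hPd (finrank_of_surj h2).le⟩

/-- The vector `w` is at most `m` and close to it, with a bit of room. -/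
def Below (m : ℕ) {n : ℕ} (w : Fin n → ℕ) : Prop :=
  37 ≤ n ∧ n + 8 ≤ 2 * m ∧ (∀ i, w i ≤ m) ∧
    (((∑ i, cst m (w i) : ℕ) : ℝ) + 1 + (cc n : ℝ) / 2 + 9 / 8 < 7 * √(n : ℝ) / 6 ∨
      ((∑ i, cst m (w i) : ℕ) : ℝ) + 1 + cc n + 2 * √(n : ℝ) / 3 + 23 / 8 ≤ (n : ℝ) / 4)

theorem cost_le {n m : ℕ} {w : Fin n → ℕ} {w' : Fin n → ℕ} {t : ℕ}
    (h : (∑ i, cst m (w i) : ℕ) ≤ t + 1) (h' : t ≤ ∑ i, cst m (w' i))
    (hT : ((∑ i, cst m (w' i) : ℕ) : ℝ) + 1 + (cc n : ℝ) / 2 + 9 / 8 < 7 * √(n : ℝ) / 6 ∨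
      ((∑ i, cst m (w' i) : ℕ) : ℝ) + 1 + cc n + 2 * √(n : ℝ) / 3 + 23 / 8 ≤ (n : ℝ) / 4) :
    ((∑ i, cst m (w i) : ℕ) : ℝ) + (cc n : ℝ) / 2 + 9 / 8 < 7 * √(n : ℝ) / 6 ∨
      ((∑ i, cst m (w i) : ℕ) : ℝ) + cc n + 2 * √(n : ℝ) / 3 + 23 / 8 ≤ (n : ℝ) / 4 := by
  have h1 : (∑ i, cst m (w i) : ℕ) ≤ (∑ i, cst m (w' i) : ℕ) + 1 := by omega
  have h2 : ((∑ i, cst m (w i) : ℕ) : ℝ) ≤ ((∑ i, cst m (w' i) : ℕ) : ℝ) + 1 := by
    exact_mod_cast h1
  rcases hT with h | h
  · left; linarith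
  · right; linarith

theorem below_upd {n m : ℕ} {w : Fin n → ℕ} (h : Below m w) (k : Fin n) :
    CloseTo m (Function.update w k (w k + 1)) := by
  classical
  obtain ⟨h1, h2, h3, h4⟩ := h
  refine ⟨h1, by omega, fun i => ?_, cost_le (t := ∑ i, cst m (w i)) ?_ le_rfl h4⟩
  · by_cases hi : i = k
    · subst hi
      rw [Function.update_self]
      have := h3 i
      omega
    · rw [Function.update_of_ne hi]
      have := h3 i
      omega
  · have e1 : ∑ i, cst m (Function.update w k (w k + 1) i) ≤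
        ∑ i, (cst m (w i) + if i = k then 1 else 0) := by
      refine Finset.sum_le_sum fun i _ => ?_
      by_cases hi : i = k
      · subst hi
        rw [Function.update_self, if_pos rfl]
        have := h3 i
        unfold cst
        split_ifs <;> omega
      · rw [Function.update_of_ne hi, if_neg hi]
        omega
    rw [Finset.sum_add_distrib, Finset.sum_ite_eq', if_pos (Finset.mem_univ k)] at e1
    exact e1

theorem below_self {n m : ℕ} {w : Fin n → ℕ} (h : Below m w) : CloseTo m w := by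
  obtain ⟨h1, h2, h3, h4⟩ := h
  refine ⟨h1, by omega, fun i => (h3 i).trans (by omega),
    cost_le (t := ∑ i, cst m (w i)) (by omega) le_rfl h4⟩

theorem below_sub {n m : ℕ} {w : Fin n → ℕ} (h : Below m w) :
    CloseTo (m - 1) (fun i => w i - 1) := by
  obtain ⟨h1, h2, h3, h4⟩ := h
  have e1 : ∑ i, cst (m - 1) (w i - 1) ≤ ∑ i, cst m (w i) := by
    refine Finset.sum_le_sum fun i _ => ?_
    have := h3 i
    unfold cst
    split_ifs <;> omega
  have e2 : ((∑ i, cst (m - 1) (w i - 1) : ℕ) : ℝ) ≤ ((∑ i, cst m (w i) : ℕ) : ℝ) := by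
    exact_mod_cast e1
  refine ⟨h1, by omega, fun i => ?_, ?_⟩
  · have := h3 i
    show w i - 1 ≤ m - 1 + 1
    omega
  · rcases h4 with h | h
    · left; linarith
    · right; linarith

theorem below_smooth {K : Type} [Field K] [CharZero K] {n m : ℕ} {v : Fin n → ℕ}
    (hv : Below m v) :
    ∃ F : MvPolynomial (Fin n × Fin 2) ℚ, F ≠ 0 ∧ ∀ P : Fin n → Fin 2 → K,
      aeval (fun ij : Fin n × Fin 2 => P ij.1 ij.2) F ≠ 0 →
      (∀ d, H932R3.ExpDim K v P d) ∧
      ∀ w : Fin n → ℕ, (∀ i, w i ≤ v i) → ∀ d,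
        (∀ k, ∑ i, (v i + 1).choose 2 + v k + 1 ≤ (d + 2).choose 2) →
        Module.finrank K ↥(forms w P d) + ∑ i, (w i + 1).choose 2 = (d + 2).choose 2 ∧
          GeneralMember (forms w P d) (SmoothMember w P) := by
  classical
  have hn : 0 < n := by
    have := hv.1
    omega
  have hupd : ∀ (L : Type) [Field L] [CharZero L] (k : Fin n),
      ∃ F : MvPolynomial (Fin n × Fin 2) ℚ, F ≠ 0 ∧ ∀ P : Fin n → Fin 2 → L,
        aeval (fun ij : Fin n × Fin 2 => P ij.1 ij.2) F ≠ 0 →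
        ∀ d, H932R3.ExpDim L (Function.update v k (v k + 1)) P d := fun L _ _ k =>
    nearV_exp (Or.inr ⟨m, below_upd hv k⟩) L
  choose G hG hG' using hupd K
  obtain ⟨F3, hF3, hF3'⟩ := nearV_exp (Or.inr ⟨m, below_self hv⟩) K
  obtain ⟨F, hF, hF'⟩ := open_allw (K := K) v hn
    (fun d => ∀ k, ∑ i, (v i + 1).choose 2 + v k + 1 ≤ (d + 2).choose 2)
    (∑ i, (v i + 1).choose 2)
    (fun e he L _ _ P hP => ⟨fun k => by
      obtain ⟨F4, hF4, hF4'⟩ := hupd L k
      refine surj_of_exp (hF4' P (aeval_ne hP hF4) (e + 1)) ?_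
      rw [sum_updw]
      exact he k, by
        obtain ⟨F4, hF4, hF4'⟩ := nearV_exp (Or.inr ⟨m - 1, below_sub hv⟩) L
        refine surj_of_exp (hF4' P (aeval_ne hP hF4) e) (num_w ?_)
        have := he ⟨0, hn⟩
        have e1 : e + 1 + 2 = e + 3 := rfl
        rw [e1] at this
        omega⟩)
    ⟨∏ k, G k, Finset.prod_ne_zero_iff.2 fun k _ => hG k, fun P hP e he k => by
      rw [map_prod] at hP
      refine surj_of_exp (hG' k P (Finset.prod_ne_zero_iff.1 hP k (Finset.mem_univ k))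
        (e + 1)) ?_
      rw [sum_updw]
      exact he k⟩
    ⟨F3, hF3, fun P hP d hd => surj_of_exp (hF3' P hP d) (hd.trans (by
      have h4 := two_choose (d + 1)
      have e4 : d + 1 + 1 = d + 2 := rfl
      rw [e4] at h4
      nlinarith))⟩
  refine ⟨F * F3, mul_ne_zero hF hF3, fun P hP => ?_⟩
  rw [map_mul] at hP
  refine ⟨fun d => hF3' P (right_ne_zero_of_mul hP) d, fun w hw d hd => ?_⟩
  obtain ⟨e, rfl⟩ : ∃ e, d = e + 1 := by
    refine ⟨d - 1, ?_⟩
    rcases Nat.eq_zero_or_pos d with h0 | h0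
    · exfalso
      subst h0
      have h5 := hd ⟨0, hn⟩
      have h6 : (0 + 2).choose 2 = 1 := rfl
      have h8 : ∑ i, (v i + 1).choose 2 = 0 := by omega
      -- all multiplicities are zero, so the cost is too large
      have h9 : ∀ i, v i = 0 := fun i => by
        have := (Finset.sum_eq_zero_iff.1 h8) i (Finset.mem_univ i)
        by_contra h10
        have : 0 < (v i + 1).choose 2 := Nat.choose_pos (by omega)
        omega
      obtain ⟨k1, k2, k3, k4⟩ := hv
      have h10 : ∑ i, cst m (v i) = n * (4 * m - 2) := by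
        rw [Finset.sum_congr rfl fun i _ => by rw [h9 i], Finset.sum_const, Finset.card_univ,
          Fintype.card_fin, smul_eq_mul]
        congr 1
        unfold cst
        rw [if_pos (by omega)]
        omega
      rw [h10] at k4
      have h11 : (n : ℝ) * (4 * m - 2) ≤ ((n * (4 * m - 2) : ℕ) : ℝ) := by
        have h12 : (4 * (m : ℝ) - 2) ≤ ((4 * m - 2 : ℕ) : ℝ) := by
          rw [Nat.cast_sub (by omega)]
          push_cast
          linarith
        push_cast
        exact mul_le_mul_of_nonneg_left h12 (Nat.cast_nonneg _)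
      have hn' : (37 : ℝ) ≤ n := by exact_mod_cast k1
      have hm' : (n : ℝ) + 8 ≤ 2 * m := by exact_mod_cast k2
      have hs0 : 0 ≤ √(n : ℝ) := Real.sqrt_nonneg _
      have hss : √(n : ℝ) * √(n : ℝ) = n := Real.mul_self_sqrt (by linarith)
      have hc0 : (0 : ℝ) ≤ (cc n : ℝ) := Nat.cast_nonneg _
      have hs1 : √(n : ℝ) ≤ n := by nlinarith
      have h13 : (n : ℝ) * 2 ≤ n * (4 * m - 2) := mul_le_mul_of_nonneg_left (by linarith)
        (by linarith)
      rcases k4 with k4 | k4 <;> linarith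
    · omega
  exact hF' P (left_ne_zero_of_mul hP) w hw e (Or.inl hd)

end Pool.Agent.Run7.h866.NU
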