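import Pool.Agent.Run7.h866.NU.Class

/-! The controlled classes, with sets of points. -/

set_option autoImplicit false

namespace Pool.Agent.Run7.h866.NU

open MvPolynomial Pool.Agent.H932R3

/-- The function `v` on the set `T` of points is near-uniform (at least `200` points, values `m`,
`m + 1`) or close to a constant (at least `37` points). -/
def NearOn {n : ℕ} (T : Finset (Fin n)) (v : Fin n → ℕ) : Prop :=
  (200 ≤ T.card ∧ ∃ m : ℕ, 1 ≤ m ∧ ∀ i ∈ T, v i = m ∨ v i = m + 1) ∨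
  (37 ≤ T.card ∧ ∃ m : ℕ, T.card + 6 ≤ 2 * m ∧ (∀ i ∈ T, v i ≤ m + 1) ∧
    (((∑ i ∈ T, cst m (v i) : ℕ) : ℝ) + (cc T.card : ℝ) / 2 + 9 / 8 < 7 * √(T.card : ℝ) / 6 ∨
      ((∑ i ∈ T, cst m (v i) : ℕ) : ℝ) + cc T.card + 2 * √(T.card : ℝ) / 3 + 23 / 8 ≤
        (T.card : ℝ) / 4))

/-- the points of `T` -/
noncomputable def pts {n : ℕ} (T : Finset (Fin n)) : Fin T.card ↪ Fin n :=
  (T.orderEmbOfFin rfl).toEmbedding

theorem map_pts {n : ℕ} (T : Finset (Fin n)) : Finset.univ.map (pts T) = T :=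
  Finset.map_orderEmbOfFin_univ T rfl

theorem pts_mem {n : ℕ} (T : Finset (Fin n)) (j : Fin T.card) : pts T j ∈ T :=
  Finset.orderEmbOfFin_mem T rfl j

theorem sum_pts {M : Type} [AddCommMonoid M] {n : ℕ} (T : Finset (Fin n)) (g : Fin n → M) :
    ∑ j, g (pts T j) = ∑ i ∈ T, g i := by
  have h := Finset.sum_map Finset.univ (pts T) g
  rw [map_pts] at h
  exact h.symm

theorem nearV_of {n : ℕ} {T : Finset (Fin n)} {v : Fin n → ℕ} (h : NearOn T v) :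
    NearV (fun j => v (pts T j)) := by
  rcases h with ⟨h1, m, hm, h2⟩ | ⟨h1, m, hm, h2, h3⟩
  · exact Or.inl ⟨h1, m, hm, fun j => h2 _ (pts_mem T j)⟩
  · refine Or.inr ⟨m, h1, hm, fun j => h2 _ (pts_mem T j), ?_⟩
    rw [sum_pts T fun i => cst m (v i)]
    exact h3

/-- **Classes with a near-uniform part which decides the dimension.** -/
theorem ctrl_of_on {n d : ℕ} {w : Fin n → ℕ} {T : Finset (Fin n)} {v : Fin n → ℕ}
    (hT : NearOn T v)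
    (h : ((∀ i, i ∉ T → w i ≤ 1) ∧ ((∀ i ∈ T, w i = v i) ∨
          ((∀ i ∈ T, w i ≤ v i) ∧ ∑ i ∈ T, (v i + 1).choose 2 ≤ (d + 2).choose 2))) ∨
      ((∀ i ∈ T, v i ≤ w i) ∧ (d + 2).choose 2 ≤ ∑ i ∈ T, (v i + 1).choose 2)) :
    Ctrl d w := by
  refine ⟨T.card, pts T, fun j => v (pts T j), nearV_of hT, ?_⟩
  rw [map_pts, sum_pts T fun i => (v i + 1).choose 2]
  rcases h with ⟨h1, h2 | ⟨h2, h3⟩⟩ | ⟨h1, h2⟩
  · exact Or.inl ⟨h1, Or.inl fun j => h2 _ (pts_mem T j)⟩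
  · exact Or.inl ⟨h1, Or.inr ⟨fun j => h2 _ (pts_mem T j), h3⟩⟩
  · exact Or.inr ⟨fun j => h1 _ (pts_mem T j), h2⟩

end Pool.Agent.Run7.h866.NU
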