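import Pool.Agent.Run7.h866.NU.Neg
import Pool.Agent.Run7.h866.NU.Fin
import Pool.Agent.TH442.NF.Std

set_option autoImplicit false

/-! Symmetrization: curves at generic points, their conjugates and the product of the conjugates. -/

namespace Pool.Agent.Run7.h866.NU

open MvPolynomial Pool.Agent.W609 Pool.Agent.W609.CR Pool.Agent.TH167 Pool.Agent.TH167.SH

/-- the homogeneous ideal of a point -/
noncomputable def pI (p : Fin 2 → ℂ) : Ideal (MvPolynomial (Fin 3) ℂ) :=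
  Ideal.span ({X 0 - C (p 0) * X 2, X 1 - C (p 1) * X 2} : Set (MvPolynomial (Fin 3) ℂ))

theorem alg_perm {n : ℕ} {P : Fin n → Fin 2 → ℂ}
    (hP : AlgebraicIndependent ℚ (fun ij : Fin n × Fin 2 => P ij.1 ij.2)) (σ : Equiv.Perm (Fin n)) :
    AlgebraicIndependent ℚ (fun ij : Fin n × Fin 2 => (fun i => P (σ i)) ij.1 ij.2) :=
  Pool.Agent.TH885.CO.alg_emb σ.toEmbedding hP

/-- the conjugates of a curve at generic points -/
theorem perm_form {n d : ℕ} {w : Fin n → ℕ} {P : Fin n → Fin 2 → ℂ}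
    (hP : AlgebraicIndependent ℚ (fun ij : Fin n × Fin 2 => P ij.1 ij.2))
    {F : MvPolynomial (Fin 3) ℂ} (hFd : F.IsHomogeneous d) (hF0 : F ≠ 0)
    (hF : ∀ i, F ∈ pI (P i) ^ (w i)) (σ : Equiv.Perm (Fin n)) :
    ∃ G : MvPolynomial (Fin 3) ℂ, G ≠ 0 ∧ G.IsHomogeneous d ∧ ∀ i, G ∈ pI (P i) ^ (w (σ i)) := by
  obtain ⟨g, E, hE, hE'⟩ := dim_gen w d
  have h1 := hE' ℂ P fun h0 => hE (hP.eq_zero_of_aeval_eq_zero E h0)
  have hP2 := alg_perm hP σ.symm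
  have h2 := hE' ℂ (fun i => P (σ.symm i)) fun h0 => hE (hP2.eq_zero_of_aeval_eq_zero E h0)
  have hfin : ∀ Q : Fin n → Fin 2 → ℂ, Module.Finite ℂ ↥(SHDefs.sys Q d w) := by
    intro Q
    have h3 : Module.Finite ℂ ↥(MvPolynomial.homogeneousSubmodule (Fin 3) ℂ d) :=
      Module.Finite.iff_fg.2 (MvPolynomial.homogeneousSubmodule_fg _ _ d)
    exact Submodule.finiteDimensional_of_le
      (inf_le_left : SHDefs.sys Q d w ≤ MvPolynomial.homogeneousSubmodule (Fin 3) ℂ d)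
  have hmem : ∀ (Q : Fin n → Fin 2 → ℂ) (G : MvPolynomial (Fin 3) ℂ),
      G ∈ SHDefs.sys Q d w ↔ G.IsHomogeneous d ∧ ∀ i, G ∈ pI (Q i) ^ (w i) := by
    intro Q G
    unfold SHDefs.sys
    rw [Submodule.mem_inf, Submodule.restrictScalars_mem, Ideal.mem_iInf]
    exact Iff.rfl
  rw [← sys_eq] at h1 h2
  have h3 : 0 < Module.finrank ℂ ↥(SHDefs.sys P d w) := by
    have := hfin P
    rw [Module.finrank_pos_iff_exists_ne_zero]
    exact ⟨⟨F, (hmem P F).2 ⟨hFd, hF⟩⟩, fun h0 => hF0 (congrArg Subtype.val h0)⟩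
  have h4 : 0 < Module.finrank ℂ ↥(SHDefs.sys (fun i => P (σ.symm i)) d w) := by
    rw [h2, ← h1]
    exact h3
  have := hfin (fun i => P (σ.symm i))
  rw [Module.finrank_pos_iff_exists_ne_zero] at h4
  obtain ⟨⟨G, hG⟩, hG0⟩ := h4
  obtain ⟨h5, h6⟩ := (hmem _ G).1 hG
  refine ⟨G, fun h0 => hG0 (Subtype.ext h0), h5, fun i => ?_⟩
  have h7 := h6 (σ i)
  rwa [Equiv.symm_apply_apply] at h7

/-- the product of conjugates -/
theorem prod_form {n d r : ℕ} {w : Fin n → ℕ} {P : Fin n → Fin 2 → ℂ}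
    (hP : AlgebraicIndependent ℚ (fun ij : Fin n × Fin 2 => P ij.1 ij.2))
    {F : MvPolynomial (Fin 3) ℂ} (hFd : F.IsHomogeneous d) (hF0 : F ≠ 0)
    (hF : ∀ i, F ∈ pI (P i) ^ (w i)) (σ : Fin r → Equiv.Perm (Fin n)) :
    ∃ G : MvPolynomial (Fin 3) ℂ, G ≠ 0 ∧ G.IsHomogeneous (r * d) ∧
      ∀ i, G ∈ pI (P i) ^ (∑ j, w (σ j i)) := by
  classical
  choose G hG0 hGd hG using fun j => perm_form hP hFd hF0 hF (σ j)
  refine ⟨∏ j, G j, Finset.prod_ne_zero_iff.2 fun j _ => hG0 j, ?_, fun i => ?_⟩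
  · have h1 := IsHomogeneous.prod Finset.univ G (fun _ => d) fun j _ => hGd j
    rw [Finset.sum_const, Finset.card_univ, Fintype.card_fin, smul_eq_mul] at h1
    exact h1
  · rw [← Finset.prod_pow_eq_pow_sum]
    exact Ideal.prod_mem_prod fun j _ => hG j i

/-- **Symmetrization**: the multiplicities of `r` conjugates of a curve are together at least
near-uniform on `T`. -/
theorem strong_sym {n d r : ℕ} {w : Fin n → ℕ} {P : Fin n → Fin 2 → ℂ}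
    (hP : AlgebraicIndependent ℚ (fun ij : Fin n × Fin 2 => P ij.1 ij.2))
    {F : MvPolynomial (Fin 3) ℂ} (hFd : F.IsHomogeneous d) (hF0 : F ≠ 0)
    (hF : ∀ i, F ∈ pI (P i) ^ (w i)) (σ : Fin r → Equiv.Perm (Fin n)) {T : Finset (Fin n)}
    {v : Fin n → ℕ} (hT : NearOn T v) (hv : ∀ i ∈ T, v i ≤ ∑ j, w (σ j i)) :
    (∑ i ∈ T, (v i : ℝ) ^ 2) + (∑ i ∈ T, (v i : ℝ)) / 2 ≤ ((r : ℝ) * d) ^ 2 := by
  obtain ⟨G, hG0, hGd, hG⟩ := prod_form hP hFd hF0 hF σ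
  have h1 := strong_near (w := fun j => v (pts T j)) (P := fun j => P (pts T j)) (nearV_of hT)
    (Pool.Agent.TH885.CO.alg_emb (pts T) hP) hGd hG0
    (fun j => Ideal.pow_le_pow_right (hv _ (pts_mem T j)) (hG _))
  rw [sum_pts T fun i => (v i : ℝ) ^ 2, sum_pts T fun i => (v i : ℝ)] at h1
  push_cast at h1
  exact h1

/-- The variance on `T` plus the squares off `T`. -/
noncomputable def spr {n : ℕ} (T : Finset (Fin n)) (w : Fin n → ℕ) : ℝ :=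
  ∑ i ∈ T, ((w i : ℝ) - (∑ k ∈ T, (w k : ℝ)) / T.card) ^ 2 + ∑ i ∈ Tᶜ, (w i : ℝ) ^ 2

theorem sum_sq_spr {n : ℕ} {T : Finset (Fin n)} {w : Fin n → ℕ} (hT : 0 < T.card) :
    ∑ i, (w i : ℝ) ^ 2 = (∑ k ∈ T, (w k : ℝ)) ^ 2 / T.card + spr T w := by
  classical
  have ht : (0 : ℝ) < T.card := by exact_mod_cast hT
  obtain ⟨S, hS⟩ : ∃ S, S = ∑ k ∈ T, (w k : ℝ) := ⟨_, rfl⟩
  unfold spr
  rw [← hS, ← Finset.sum_add_sum_compl T (fun i => (w i : ℝ) ^ 2)]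
  have h3 : ∀ i ∈ T, ((w i : ℝ) - S / T.card) ^ 2 =
      (w i : ℝ) ^ 2 - 2 * (S / T.card) * w i + (S / T.card : ℝ) ^ 2 := by
    intro i _
    ring
  rw [Finset.sum_congr rfl h3, Finset.sum_add_distrib, Finset.sum_sub_distrib, ← Finset.mul_sum,
    ← hS, Finset.sum_const, nsmul_eq_mul]
  field_simp
  ring

/-- **Curves whose multiplicities are flattened by `r` permutations of `T`.** -/
theorem balanced {n d r : ℕ} {w : Fin n → ℕ} {P : Fin n → Fin 2 → ℂ}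
    (hP : AlgebraicIndependent ℚ (fun ij : Fin n × Fin 2 => P ij.1 ij.2))
    {F : MvPolynomial (Fin 3) ℂ} (hFd : F.IsHomogeneous d) (hF0 : F ≠ 0)
    (hF : ∀ i, F ∈ pI (P i) ^ (w i)) (hr : 1 ≤ r) (σ : Fin r → Equiv.Perm (Fin n))
    {T : Finset (Fin n)} (hσ : ∀ j, ∀ i ∈ T, σ j i ∈ T) (hT : NearOn T fun i => ∑ j, w (σ j i)) :
    (∑ i ∈ T, (w i : ℝ)) / (2 * r) - spr T w ≤ (d : ℝ) ^ 2 - ∑ i, (w i : ℝ) ^ 2 := by
  classical
  have hT0 : 0 < T.card := by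
    rcases hT with ⟨h, _⟩ | ⟨h, _⟩ <;> omega
  have ht : (0 : ℝ) < T.card := by exact_mod_cast hT0
  have hr0 : (0 : ℝ) < r := by exact_mod_cast hr
  have h1 := strong_sym hP hFd hF0 hF σ hT fun i _ => le_rfl
  have hS : ∑ i ∈ T, ((∑ j, w (σ j i) : ℕ) : ℝ) = r * ∑ i ∈ T, (w i : ℝ) := by
    push_cast
    rw [Finset.sum_comm]
    have h2 : ∀ j : Fin r, ∑ i ∈ T, (w (σ j i) : ℝ) = ∑ i ∈ T, (w i : ℝ) := by
      intro j
      have h3 : T.map (σ j).toEmbedding = T := by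
        refine Finset.eq_of_subset_of_card_le ?_ (by rw [Finset.card_map])
        intro x hx
        obtain ⟨y, hy, rfl⟩ := Finset.mem_map.1 hx
        exact hσ j y hy
      conv_rhs => rw [← h3]
      rw [Finset.sum_map]
      rfl
    rw [Finset.sum_congr rfl fun j _ => h2 j, Finset.sum_const, Finset.card_univ, Fintype.card_fin,
      nsmul_eq_mul]
  have hcs : (∑ i ∈ T, ((∑ j, w (σ j i) : ℕ) : ℝ)) ^ 2 ≤
      T.card * ∑ i ∈ T, ((∑ j, w (σ j i) : ℕ) : ℝ) ^ 2 := sq_sum_le_card_mul_sum_sq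
  obtain ⟨Q, hQ⟩ : ∃ Q, Q = ∑ i ∈ T, ((∑ j, w (σ j i) : ℕ) : ℝ) ^ 2 := ⟨_, rfl⟩
  obtain ⟨S, hSS⟩ : ∃ S, S = ∑ i ∈ T, (w i : ℝ) := ⟨_, rfl⟩
  rw [hS, ← hQ, ← hSS] at hcs
  rw [hS, ← hQ, ← hSS] at h1
  rw [sum_sq_spr hT0, ← hSS]
  -- `(r S) ^ 2 / t + r S / 2 ≤ (r d) ^ 2`
  have h5 : ((r : ℝ) * S) ^ 2 / T.card ≤ Q := by
    rw [div_le_iff₀ ht]
    linarith
  have h6 : (r : ℝ) ^ 2 * (S ^ 2 / T.card + S / (2 * r)) ≤ (r : ℝ) ^ 2 * (d : ℝ) ^ 2 := by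
    have e : (r : ℝ) ^ 2 * (S ^ 2 / T.card + S / (2 * r)) =
        ((r : ℝ) * S) ^ 2 / T.card + r * S / 2 := by
      field_simp
    rw [e]
    have e2 : ((r : ℝ) * d) ^ 2 = (r : ℝ) ^ 2 * (d : ℝ) ^ 2 := by ring
    linarith
  have h7 := le_of_mul_le_mul_left h6 (by positivity)
  linarith

end Pool.Agent.Run7.h866.NU
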