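import Pool.Agent.Run7.h866.NU.Close

/-! Plane curves with multiplicities at least `w i` at very general points, `w` near-uniform or close
to a uniform vector: `d ^ 2 ≥ ∑ (w i) ^ 2 + (∑ w i) / 2`. -/

set_option autoImplicit false

namespace Pool.Agent.Run7.h866.NU

open MvPolynomial

/-- Outside countably many hypersurfaces all coordinates are algebraically independent over `ℚ`. -/
theorem exists_familyC (σ : Type) [Finite σ] : ∃ F : ℕ → MvPolynomial σ ℂ, (∀ j, F j ≠ 0) ∧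
    ∀ x : σ → ℂ, (∀ j, eval x (F j) ≠ 0) → AlgebraicIndependent ℚ x := by
  classical
  have hc : Countable (MvPolynomial σ ℚ) := by
    rw [← Cardinal.mk_le_aleph0_iff]
    refine MvPolynomial.cardinalMk_le_max.trans ?_
    simp only [max_le_iff]
    exact ⟨⟨Cardinal.mk_le_aleph0, Cardinal.mk_le_aleph0⟩, le_rfl⟩
  have hne : Nonempty {f : MvPolynomial σ ℚ // f ≠ 0} := ⟨⟨1, one_ne_zero⟩⟩
  obtain ⟨g, hg⟩ := exists_surjective_nat {f : MvPolynomial σ ℚ // f ≠ 0}
  refine ⟨fun j => (g j).1.map (algebraMap ℚ ℂ), fun j h0 => (g j).2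
    (MvPolynomial.map_injective (algebraMap ℚ ℂ) (algebraMap ℚ ℂ).injective
      (h0.trans (map_zero _).symm)), fun x hx => ?_⟩
  rw [algebraicIndependent_iff]
  intro p hp
  by_contra hne0
  obtain ⟨j, hj⟩ := hg ⟨p, hne0⟩
  refine hx j ?_
  show eval x ((g j).1.map (algebraMap ℚ ℂ)) = 0
  rw [hj, eval_map]
  exact hp

/-- the numbers -/
theorem close_real {n m S Q R T : ℝ} (hn : 37 ≤ n) (hm : n + 6 ≤ 2 * m) (hT0 : 0 ≤ T)
    (hT : T ≤ n / 10 ∨ (38 ≤ n ∧ T ≤ n / 4)) (hS : n * m - T / 2 ≤ S)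
    (hQ : Q = 2 * m * S - n * m ^ 2 + R) (hR : R ≤ T ^ 2) :
    36 * (2 * Q + S) ≤ 2 * S ^ 2 := by
  have hn0 : 0 < n := by linarith
  have hT4 : T ≤ n / 4 := by rcases hT with h | h <;> linarith [h]
  have hS1 : n * (n + 6) / 2 - T / 2 ≤ S := by nlinarith
  -- `n Q ≤ S² + n R`
  have h1 : n * Q ≤ S ^ 2 + n * T ^ 2 := by
    rw [hQ]
    nlinarith [sq_nonneg (S - n * m), mul_le_mul_of_nonneg_left hR hn0.le]
  -- the goal times `n`
  have h2 : 36 * (2 * (S ^ 2 + n * T ^ 2) + n * S) ≤ 2 * n * S ^ 2 := by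
    rcases hT with h | ⟨h38, h⟩
    · -- `T² ≤ S / 50`
      have hT2 : 50 * T ^ 2 ≤ S := by nlinarith
      have hSn : n * (n + 5) / 2 + 4 * n / 10 ≤ S := by nlinarith
      have h3 : 36 * (2 / 50 + 1) * n ≤ 2 * (n - 36) * S := by nlinarith
      have hS0 : 0 ≤ S := by nlinarith
      nlinarith
    · have hT2 : 8 * T ^ 2 ≤ S := by nlinarith
      have hSn : n * (n + 5) / 2 ≤ S := by nlinarith
      have h3 : 36 * (2 / 8 + 1) * n ≤ 2 * (n - 36) * S := by nlinarith
      have hS0 : 0 ≤ S := by nlinarith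
      nlinarith
  have h3 : n * (36 * (2 * Q + S)) ≤ n * (2 * S ^ 2) := by nlinarith
  exact le_of_mul_le_mul_left h3 hn0

theorem sum_mul_sq {n : ℕ} (w : Fin n → ℕ) (m : ℕ) :
    ∑ i, (w i : ℝ) ^ 2 = 2 * m * (∑ i, (w i : ℝ)) - n * (m : ℝ) ^ 2 +
      ∑ i, ((w i : ℝ) - m) ^ 2 := by
  have e : ∀ i, (w i : ℝ) ^ 2 = 2 * m * (w i : ℝ) - (m : ℝ) ^ 2 + ((w i : ℝ) - m) ^ 2 :=
    fun i => by ring
  rw [Finset.sum_congr rfl fun i _ => e i, Finset.sum_add_distrib, Finset.sum_sub_distrib,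
    ← Finset.mul_sum, Finset.sum_const, Finset.card_univ, Fintype.card_fin, nsmul_eq_mul]

theorem near_real {n : ℕ} {w : Fin n → ℕ} (h : NearV w) :
    36 * (2 * ∑ i, (w i : ℝ) ^ 2 + ∑ i, (w i : ℝ)) ≤ 2 * (∑ i, (w i : ℝ)) ^ 2 := by
  rcases h with ⟨hn, m, hm, hw⟩ | ⟨m, hn, hm, hw, hT⟩
  · have hn' : (200 : ℝ) ≤ n := by exact_mod_cast hn
    have hm' : (1 : ℝ) ≤ m := by exact_mod_cast hm
    have hwm : ∀ i, (m : ℝ) ≤ w i ∧ (w i : ℝ) ≤ m + 1 := by
      intro i
      rcases hw i with h | h <;> rw [h] <;> push_cast <;> constructor <;> linarith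
    have hS : (n : ℝ) * m ≤ ∑ i, (w i : ℝ) := by
      have : ∑ _i : Fin n, (m : ℝ) ≤ ∑ i, (w i : ℝ) := Finset.sum_le_sum fun i _ => (hwm i).1
      rwa [Finset.sum_const, Finset.card_univ, Fintype.card_fin, nsmul_eq_mul] at this
    have hQ : ∑ i, (w i : ℝ) ^ 2 ≤ (m + 1) * ∑ i, (w i : ℝ) := by
      rw [Finset.mul_sum]
      refine Finset.sum_le_sum fun i _ => ?_
      nlinarith [(hwm i).1, (hwm i).2]
    have hS0 : 0 ≤ ∑ i, (w i : ℝ) := Finset.sum_nonneg fun i _ => Nat.cast_nonneg _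
    have h5 : 36 * (2 * ((m : ℝ) + 1) + 1) ≤ 2 * ∑ i, (w i : ℝ) := by nlinarith
    nlinarith
  · have hn' : (37 : ℝ) ≤ n := by exact_mod_cast hn
    have hm' : (n : ℝ) + 6 ≤ 2 * m := by exact_mod_cast hm
    have hT0 : (0 : ℝ) ≤ ((∑ i, cst m (w i) : ℕ) : ℝ) := Nat.cast_nonneg _
    have hs0 : 0 ≤ √(n : ℝ) := Real.sqrt_nonneg _
    have hss : √(n : ℝ) * √(n : ℝ) = n := Real.mul_self_sqrt (by linarith)
    have hs6 : 6 ≤ √(n : ℝ) := by
      apply Real.le_sqrt_of_sq_le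
      linarith
    refine close_real hn' hm' hT0 ?_ ?_ (sum_mul_sq w m) ?_
    · by_cases h37 : n = 37
      · left
        subst h37
        have hc : (cc 37 : ℝ) = 5 := by norm_num [cc]
        rw [hc] at hT
        have hs7 : √((37 : ℕ) : ℝ) ≤ 61 / 10 := by
          rw [Real.sqrt_le_left (by norm_num)]
          norm_num
        have h3 : ((∑ i, cst m (w i) : ℕ) : ℝ) < 4 := by
          rcases hT with h | h
          · linarith
          · push_cast at h hs6 ⊢
            linarith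
        have h4 : (∑ i, cst m (w i) : ℕ) < 4 := by exact_mod_cast h3
        have h5 : (∑ i, cst m (w i) : ℕ) ≤ 3 := by omega
        have h6 : ((∑ i, cst m (w i) : ℕ) : ℝ) ≤ 3 := by exact_mod_cast h5
        push_cast at h6 ⊢
        linarith
      · right
        have h38 : 38 ≤ n := by omega
        have h38' : (38 : ℝ) ≤ n := by exact_mod_cast h38
        refine ⟨h38', ?_⟩
        have hc0 : (0 : ℝ) ≤ (cc n : ℝ) := Nat.cast_nonneg _
        rcases hT with h | h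
        · nlinarith
        · linarith
    · -- the sum
      have h1 : ∀ i, (m : ℝ) - (cst m (w i) : ℝ) / 2 ≤ (w i : ℝ) := by
        intro i
        have h0 : 2 * m ≤ 2 * w i + cst m (w i) := by
          unfold cst
          split_ifs <;> omega
        have h2 : 2 * (m : ℝ) ≤ 2 * w i + cst m (w i) := by exact_mod_cast h0
        linarith
      have h2 := Finset.sum_le_sum fun i (_ : i ∈ Finset.univ) => h1 i
      rw [Finset.sum_sub_distrib, Finset.sum_const, Finset.card_univ, Fintype.card_fin,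
        nsmul_eq_mul, ← Finset.sum_div] at h2
      push_cast
      exact h2
    · have h1 : ∀ i, ((w i : ℝ) - m) ^ 2 ≤ (cst m (w i) : ℝ) ^ 2 := by
        intro i
        have h0 : w i ≤ m + cst m (w i) ∧ m ≤ w i + cst m (w i) := by
          have h := hw i
          unfold cst
          split_ifs <;> omega
        have h2 : (w i : ℝ) ≤ m + cst m (w i) := by exact_mod_cast h0.1
        have h3 : (m : ℝ) ≤ w i + cst m (w i) := by exact_mod_cast h0.2
        refine sq_le_sq' ?_ ?_ <;> linarith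
      refine (Finset.sum_le_sum fun i _ => h1 i).trans ?_
      push_cast
      exact Finset.sum_sq_le_sq_sum_of_nonneg fun i _ => Nat.cast_nonneg _

/-- a form with multiplicities at least `w` at points where the system is non-special -/
theorem count_of_form {n d : ℕ} {w : Fin n → ℕ} {P : Fin n → Fin 2 → ℂ}
    (h1 : H932R3.ExpDim ℂ w P d) {F : MvPolynomial (Fin 3) ℂ} (hFd : F.IsHomogeneous d)
    (hF0 : F ≠ 0) (hF : ∀ i, F ∈ (Ideal.span ({X 0 - C (P i 0) * X 2, X 1 - C (P i 1) * X 2} :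
        Set (MvPolynomial (Fin 3) ℂ))) ^ (w i)) :
    ∑ i, (w i + 1).choose 2 + 1 ≤ (d + 2).choose 2 := by
  unfold H932R3.ExpDim at h1
  have h2 : 0 < Module.finrank ℂ
      ↥(MvPolynomial.homogeneousSubmodule (Fin 3) ℂ d ⊓
        Submodule.restrictScalars ℂ
          (⨅ i : Fin n,
            (Ideal.span
              ({MvPolynomial.X 0 - MvPolynomial.C (P i 0) * MvPolynomial.X 2,
                MvPolynomial.X 1 - MvPolynomial.C (P i 1) * MvPolynomial.X 2} :
                Set (MvPolynomial (Fin 3) ℂ))) ^ (w i))) := by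
    have h3 : Module.Finite ℂ ↥(MvPolynomial.homogeneousSubmodule (Fin 3) ℂ d) :=
      Module.Finite.iff_fg.2 (MvPolynomial.homogeneousSubmodule_fg _ _ d)
    have h4 := Submodule.finiteDimensional_of_le
      (S₁ := MvPolynomial.homogeneousSubmodule (Fin 3) ℂ d ⊓
        Submodule.restrictScalars ℂ
          (⨅ i : Fin n,
            (Ideal.span
              ({MvPolynomial.X 0 - MvPolynomial.C (P i 0) * MvPolynomial.X 2,
                MvPolynomial.X 1 - MvPolynomial.C (P i 1) * MvPolynomial.X 2} :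
                Set (MvPolynomial (Fin 3) ℂ))) ^ (w i)))
      (S₂ := MvPolynomial.homogeneousSubmodule (Fin 3) ℂ d) inf_le_left
    rw [Module.finrank_pos_iff]
    refine ⟨⟨⟨F, Submodule.mem_inf.2 ⟨hFd, ?_⟩⟩, 0, fun h5 => hF0 ?_⟩⟩
    · rw [Submodule.restrictScalars_mem, Ideal.mem_iInf]
      exact hF
    · exact congrArg Subtype.val h5
  rw [h1] at h2
  omega

/-- **Curves with near-uniform multiplicities at very general points are far from negative.** -/
theorem strong_near {n d : ℕ} {w : Fin n → ℕ} (hw : NearV w) {P : Fin n → Fin 2 → ℂ}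
    (hP : AlgebraicIndependent ℚ (fun ij : Fin n × Fin 2 => P ij.1 ij.2))
    {F : MvPolynomial (Fin 3) ℂ} (hFd : F.IsHomogeneous d)
    (hF0 : F ≠ 0) (hF : ∀ i, F ∈ (Ideal.span ({X 0 - C (P i 0) * X 2, X 1 - C (P i 1) * X 2} :
        Set (MvPolynomial (Fin 3) ℂ))) ^ (w i)) :
    (∑ i, (w i : ℝ) ^ 2) + (∑ i, (w i : ℝ)) / 2 ≤ (d : ℝ) ^ 2 := by
  obtain ⟨G, hG, hG'⟩ := nearV_exp hw ℂ
  have hG2 : aeval (fun ij : Fin n × Fin 2 => P ij.1 ij.2) G ≠ (0 : ℂ) := by
    intro h0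
    exact hG ((algebraicIndependent_iff.1 hP) G h0)
  have h3 := count_of_form (hG' P hG2 d) hFd hF0 hF
  have h4 : (((∑ i, (w i + 1).choose 2 + 1 : ℕ)) : ℝ) ≤ (((d + 2).choose 2 : ℕ) : ℝ) := by
    exact_mod_cast h3
  push_cast at h4
  have e1 : (((d + 2).choose 2 : ℕ) : ℝ) = ((d : ℝ) + 2) * (d + 1) / 2 := by
    rw [Nat.cast_choose_two]
    push_cast
    ring
  have e2 : ∀ i, (((w i + 1).choose 2 : ℕ) : ℝ) = ((w i : ℝ) ^ 2 + w i) / 2 := by
    intro i
    rw [Nat.cast_choose_two]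
    push_cast
    ring
  have e3 : ∑ i, (((w i + 1).choose 2 : ℕ) : ℝ) =
      (∑ i, (w i : ℝ) ^ 2 + ∑ i, (w i : ℝ)) / 2 := by
    rw [Finset.sum_congr rfl fun i _ => e2 i, ← Finset.sum_div, Finset.sum_add_distrib]
  rw [e1, e3] at h4
  have h5 := near_real hw
  by_cases hc : 6 * (d : ℝ) ≤ ∑ i, (w i : ℝ)
  · nlinarith
  · push Not at hc
    have hS0 : 0 ≤ ∑ i, (w i : ℝ) := Finset.sum_nonneg fun i _ => Nat.cast_nonneg _
    have h6 : (∑ i, (w i : ℝ)) ^ 2 ≤ (6 * (d : ℝ)) ^ 2 := pow_le_pow_left₀ hS0 hc.le 2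
    nlinarith

end Pool.Agent.Run7.h866.NU
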