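import Pool.Agent.Run7.h866.NU.Close
import Pool.Agent.TH885.CO.Plus
import Pool.Agent.TH442.NF.HH

/-! Classes `(d; w)` with a near-uniform part which decides the dimension. -/

set_option autoImplicit false

namespace Pool.Agent.Run7.h866.NU

open MvPolynomial Pool.Agent.H932R3

/-- The class `(d; w)` is controlled by a vector `v` of type `NearV` on some of the points `e j`: `w` is
at most `1` at the other points and equal to `v`, or at most `v` with `χ (d; v) ≥ 0`, at the points
`e j`; or `w` is at least `v` at the points `e j` and `χ (d; v) ≤ 0`. -/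
def Ctrl {n : ℕ} (d : ℕ) (w : Fin n → ℕ) : Prop :=
  ∃ (k : ℕ) (e : Fin k ↪ Fin n) (v : Fin k → ℕ), NearV v ∧
    (((∀ i, i ∉ Finset.univ.map e → w i ≤ 1) ∧
        ((∀ j, w (e j) = v j) ∨
          ((∀ j, w (e j) ≤ v j) ∧ ∑ j, (v j + 1).choose 2 ≤ (d + 2).choose 2))) ∨
      ((∀ j, v j ≤ w (e j)) ∧ (d + 2).choose 2 ≤ ∑ j, (v j + 1).choose 2))

theorem sum_emb_le {n k : ℕ} (e : Fin k ↪ Fin n) (g : Fin n → ℕ) :
    ∑ j, g (e j) ≤ ∑ i, g i := by
  classical
  rw [← Finset.sum_map Finset.univ e g]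
  exact Finset.sum_le_sum_of_subset (Finset.subset_univ _)

theorem ctrl_exp {n d : ℕ} {w : Fin n → ℕ} (h : Ctrl d w) {K : Type} [Field K] [CharZero K]
    {P : Fin n → Fin 2 → K}
    (hP : AlgebraicIndependent ℚ (fun ij : Fin n × Fin 2 => P ij.1 ij.2)) : ExpDim K w P d := by
  obtain ⟨k, e, v, hv, h⟩ := h
  obtain ⟨F, hF, hF'⟩ := nearV_exp hv K
  rcases h with ⟨h1, h2⟩ | ⟨h1, h2⟩
  · have h3 := Pool.Agent.TH885.CO.exp_plus (K := K) e (w := w) (d := d) h1
      ⟨F, hF, fun Q hQ => by
        have h4 := hF' Q hQ d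
        rcases h2 with h2 | ⟨h2, h5⟩
        · have e1 : (fun j => w (e j)) = v := funext h2
          rw [e1]
          exact h4
        · exact Pool.Agent.TH442.NF.exp_mono h4 h5 h2⟩ hP
    rw [← Pool.Agent.TH885.CO.sys_eq P d w] at h3
    exact h3
  · have h4 := hF' (fun j => P (e j)) (fun h0 =>
      hF ((Pool.Agent.TH885.CO.alg_emb e hP).eq_zero_of_aeval_eq_zero F h0)) d
    unfold ExpDim at h4 ⊢
    have h5 : ∑ j, (v j + 1).choose 2 ≤ ∑ i, (w i + 1).choose 2 :=
      (Finset.sum_le_sum fun j _ => Nat.choose_le_choose 2 (Nat.add_le_add_right (h1 j) 1)).trans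
        (sum_emb_le e fun i => (w i + 1).choose 2)
    have h6 : Module.finrank K ↥(MvPolynomial.homogeneousSubmodule (Fin 3) K d ⊓
        Submodule.restrictScalars K (⨅ j : Fin k,
          (Ideal.span ({MvPolynomial.X 0 - MvPolynomial.C (P (e j) 0) * MvPolynomial.X 2,
            MvPolynomial.X 1 - MvPolynomial.C (P (e j) 1) * MvPolynomial.X 2} :
            Set (MvPolynomial (Fin 3) K))) ^ (v j))) = 0 := by
      rw [h4]
      omega
    have hfin : Module.Finite K ↥(MvPolynomial.homogeneousSubmodule (Fin 3) K d ⊓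
        Submodule.restrictScalars K (⨅ j : Fin k,
          (Ideal.span ({MvPolynomial.X 0 - MvPolynomial.C (P (e j) 0) * MvPolynomial.X 2,
            MvPolynomial.X 1 - MvPolynomial.C (P (e j) 1) * MvPolynomial.X 2} :
            Set (MvPolynomial (Fin 3) K))) ^ (v j))) := by
      have h7 : Module.Finite K ↥(MvPolynomial.homogeneousSubmodule (Fin 3) K d) :=
        Module.Finite.iff_fg.2 (MvPolynomial.homogeneousSubmodule_fg _ _ d)
      exact Submodule.finiteDimensional_of_le
        (S₂ := MvPolynomial.homogeneousSubmodule (Fin 3) K d) inf_le_left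
    have h8 := Submodule.finrank_eq_zero.1 h6
    have h9 : (MvPolynomial.homogeneousSubmodule (Fin 3) K d ⊓
        Submodule.restrictScalars K (⨅ i : Fin n,
          (Ideal.span ({MvPolynomial.X 0 - MvPolynomial.C (P i 0) * MvPolynomial.X 2,
            MvPolynomial.X 1 - MvPolynomial.C (P i 1) * MvPolynomial.X 2} :
            Set (MvPolynomial (Fin 3) K))) ^ (w i))) = ⊥ := by
      refine le_bot_iff.1 (le_trans ?_ h8.le)
      refine inf_le_inf le_rfl fun G hG => ?_
      rw [Submodule.restrictScalars_mem, Ideal.mem_iInf] at hG ⊢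
      exact fun j => Ideal.pow_le_pow_right (h1 j) (hG (e j))
    rw [h9, finrank_bot]
    omega

/-- a hypersurface for one degree -/
theorem ctrl_open {n d : ℕ} {w : Fin n → ℕ} (h : Ctrl d w) :
    ∃ F : MvPolynomial (Fin n × Fin 2) ℚ, F ≠ 0 ∧ ∀ {L : Type} [Field L] [CharZero L]
      (P : Fin n → Fin 2 → L),
      MvPolynomial.aeval (fun ij : Fin n × Fin 2 => P ij.1 ij.2) F ≠ 0 → ExpDim L w P d :=
  Pool.Agent.TH442.NF.to_open fun hP => ctrl_exp h hP

end Pool.Agent.Run7.h866.NU
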