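import Pool.Agent.Run7.h866.NU.InfNear

/-! One open set of points and directions (helper866). -/

set_option autoImplicit false

namespace Pool.Agent.Run7.h866.NU.IN

open MvPolynomial Pool.Agent.TH941.MR

variable {k : Type} [Field k]

/-- all degrees from two degrees -/
theorem all_of_two {n : ℕ} {ι : Type} {P : Fin n → Fin 2 → k} {w : Fin n → ℕ} {S : ℕ}
    (hP : ∀ d : ℕ, Module.finrank k ↥(forms P d w) = (d + 2).choose 2 - S)
    {c : ι → Fin n} {A : Finset ι} {t : ι → k} {D : ℕ} (hD : A.card ≤ (D + 2).choose 2 - S)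
    (hmin : ∀ d < D, (d + 2).choose 2 - S < A.card)
    (h1 : Module.finrank k (sys P D w c t A) ≤ (D + 2).choose 2 - (S + A.card))
    (h0 : Module.finrank k (sys P (D - 1) w c t A) ≤ (D - 1 + 2).choose 2 - (S + A.card)) (d : ℕ) :
    Module.finrank k (sys P d w c t A) = (d + 2).choose 2 - (S + A.card) := by
  classical
  rcases Nat.lt_or_ge d D with hlt | hge
  · have h1' := hmin d hlt
    have h2 := hmin (D - 1) (by omega)
    have h4 : sys P (D - 1) w c t A = ⊥ := by
      have := finDim_forms P (D - 1) w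
      have : Module.Finite k (sys P (D - 1) w c t A) :=
        Submodule.finiteDimensional_of_le
          (inf_le_left : sys P (D - 1) w c t A ≤ forms P (D - 1) w)
      apply Submodule.finrank_eq_zero.1
      omega
    have h5 : ∀ j : ℕ, ∀ F ∈ sys P d w c t A, X 2 ^ j * F ∈ sys P (d + j) w c t A := by
      intro j
      induction j with
      | zero =>
        intro F hF
        rw [pow_zero, one_mul]
        exact hF
      | succ j ih =>
        intro F hF
        rw [pow_succ', mul_assoc]
        exact sys_up (ih F hF)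
    have h6 : sys P d w c t A = ⊥ := by
      rw [eq_bot_iff]
      intro F hF
      obtain ⟨j, hj⟩ := Nat.exists_eq_add_of_le (show d ≤ D - 1 by omega)
      have h7 := h5 j F hF
      rw [← hj, h4, Submodule.mem_bot] at h7
      rw [Submodule.mem_bot]
      exact (mul_eq_zero.1 h7).resolve_left (pow_ne_zero _ (X_ne_zero _))
    rw [h6, finrank_bot]
    omega
  · have := finDim_forms P
    have h2 := sys_ge P D w c t A
    rw [hP] at h2
    have h1' : Function.Surjective (ev (Phi P D w c A) t) := by
      rw [surj_iff, ← finrank_sys, Fintype.card_coe, hP]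
      omega
    have h3 : ∀ j : ℕ, Function.Surjective (ev (Phi P (D + j) w c A) t) := by
      intro j
      induction j with
      | zero => exact h1'
      | succ j ih => exact surj_next ih
    obtain ⟨j, rfl⟩ := Nat.exists_eq_add_of_le hge
    have h4 := (surj_iff _ _).1 (h3 j)
    rw [← finrank_sys, Fintype.card_coe, hP] at h4
    omega

section joint

variable {n : ℕ} {ι : Type}

/-- points and directions as one family of coordinates -/
abbrev Co (n : ℕ) (ι : Type) : Type := (Fin n × Fin 2) ⊕ ι

/-- the family of coordinates -/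
def co (P : Fin n → Fin 2 → k) (t : ι → k) : Co n ι → k :=
  Sum.elim (fun ij : Fin n × Fin 2 => P ij.1 ij.2) t

/-- the local equation at the generic point -/
noncomputable def gloc (k : Type) [Field k] (n : ℕ) (ι : Type) (l : Fin n) :
    MvPolynomial (Fin 3) k →ₐ[k] MvPolynomial (Fin 2) (MvPolynomial (Co n ι) k) :=
  aeval ![X 0 + C (X (Sum.inl (l, 0))), X 1 + C (X (Sum.inl (l, 1))), 1]

theorem map_gloc (P : Fin n → Fin 2 → k) (t : ι → k) (l : Fin n) (F : MvPolynomial (Fin 3) k) :
    MvPolynomial.map (eval (co P t)) (gloc k n ι l F) = loc (P l) F := by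
  have h1 : (MvPolynomial.map (eval (co P t)) : MvPolynomial (Fin 2) (MvPolynomial (Co n ι) k) →+*
      MvPolynomial (Fin 2) k).comp (gloc k n ι l).toRingHom = (loc (P l)).toRingHom := by
    apply MvPolynomial.ringHom_ext
    · intro a
      have h2 : (gloc k n ι l) (C a) = C (C a) := by
        rw [← MvPolynomial.algebraMap_eq, AlgHom.commutes]
        rfl
      have h3 : (loc (P l)) (C a) = C a := by
        rw [← MvPolynomial.algebraMap_eq, AlgHom.commutes]
        rfl
      show MvPolynomial.map (eval (co P t)) ((gloc k n ι l) (C a)) = (loc (P l)) (C a)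
      rw [h2, h3, map_C, eval_C]
    · intro i
      show MvPolynomial.map (eval (co P t)) ((gloc k n ι l) (X i)) = (loc (P l)) (X i)
      fin_cases i
      · simp [gloc, loc, co]
      · simp [gloc, loc, co]
      · simp [gloc, loc]
  exact congrArg (fun f : MvPolynomial (Fin 3) k →+* MvPolynomial (Fin 2) k => f F) h1

/-- all the polynomial functionals: Taylor coefficients at the points, values at the directions -/
noncomputable def Psi (k : Type) [Field k] (d : ℕ) (w : Fin n → ℕ) (c : ι → Fin n) (A : Finset ι)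
    (M : ℕ) : ((Fin n × Fin M × Fin M) ⊕ A) → homogeneousSubmodule (Fin 3) k d →ₗ[k]
      MvPolynomial (Co n ι) k
  | Sum.inl (l, i, j) => if (i : ℕ) + (j : ℕ) < w l then
      ((lcoeff (MvPolynomial (Co n ι) k)
        (Finsupp.single 0 (i : ℕ) + Finsupp.single 1 (j : ℕ) : Fin 2 →₀ ℕ)).restrictScalars k) ∘ₗ
        (gloc k n ι l).toLinearMap ∘ₗ (homogeneousSubmodule (Fin 3) k d).subtype else 0
  | Sum.inr s => ((aeval ![1, X (Sum.inr (s : ι))] :
      MvPolynomial (Fin 2) (MvPolynomial (Co n ι) k) →ₐ[MvPolynomial (Co n ι) k]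
        MvPolynomial (Co n ι) k).toLinearMap.restrictScalars k) ∘ₗ
      ((homogeneousComponent (w (c s))).restrictScalars k) ∘ₗ
      (gloc k n ι (c s)).toLinearMap ∘ₗ (homogeneousSubmodule (Fin 3) k d).subtype

theorem eval_aeval (x : Co n ι → k) (s : ι) (a : ℕ)
    (Q : MvPolynomial (Fin 2) (MvPolynomial (Co n ι) k)) :
    eval x (aeval ![1, X (Sum.inr s)] (homogeneousComponent a Q)) =
      aeval ![1, x (Sum.inr s)] (homogeneousComponent a (MvPolynomial.map (eval x) Q)) := by
  have h1 : homogeneousComponent a (MvPolynomial.map (eval x) Q) =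
      MvPolynomial.map (eval x) (homogeneousComponent a Q) := by
    ext e
    rw [coeff_homogeneousComponent, coeff_map, coeff_map, coeff_homogeneousComponent]
    split_ifs with h
    · rfl
    · rw [map_zero]
  rw [h1]
  have h2 : (eval x).comp (aeval ![1, X (Sum.inr s)] :
      MvPolynomial (Fin 2) (MvPolynomial (Co n ι) k) →ₐ[MvPolynomial (Co n ι) k]
        MvPolynomial (Co n ι) k).toRingHom =
      ((aeval ![1, x (Sum.inr s)] : MvPolynomial (Fin 2) k →ₐ[k] k).toRingHom).comp
        (MvPolynomial.map (eval x)) := by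
    apply MvPolynomial.ringHom_ext
    · intro q
      simp
    · intro i
      fin_cases i
      · simp
      · simp
  exact congrArg (fun f : MvPolynomial (Fin 2) (MvPolynomial (Co n ι) k) →+* k =>
    f (homogeneousComponent a Q)) h2

theorem ker_Psi {d : ℕ} {w : Fin n → ℕ} {c : ι → Fin n} {A : Finset ι} {M : ℕ}
    (hM : ∀ i, w i ≤ M) (P : Fin n → Fin 2 → k) (t : ι → k) :
    (LinearMap.ker (ev (Psi k d w c A M) (co P t))).map (homogeneousSubmodule (Fin 3) k d).subtype =
      sys P d w c t A := by
  ext F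
  rw [mem_sys]
  have hval : ∀ (F : homogeneousSubmodule (Fin 3) k d) (s : A),
      ev (Psi k d w c A M) (co P t) F (Sum.inr s) =
        val (P (c s)) (w (c s)) (t s) (F : MvPolynomial (Fin 3) k) := by
    intro F s
    have h1 := eval_aeval (co P t) (s : ι) (w (c s)) (gloc k n ι (c s) F)
    rw [map_gloc] at h1
    exact h1
  have hco : ∀ (F : homogeneousSubmodule (Fin 3) k d) (l : Fin n) (i j : Fin M),
      (i : ℕ) + (j : ℕ) < w l → ev (Psi k d w c A M) (co P t) F (Sum.inl (l, i, j)) =
        coeff (Finsupp.single 0 (i : ℕ) + Finsupp.single 1 (j : ℕ)) (loc (P l) F) := by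
    intro F l i j hij
    rw [← map_gloc P t l, coeff_map]
    show aeval (co P t) (Psi k d w c A M (Sum.inl (l, i, j)) F) = _
    unfold Psi
    simp only [if_pos hij]
    rfl
  have hco0 : ∀ (F : homogeneousSubmodule (Fin 3) k d) (l : Fin n) (i j : Fin M),
      ¬ ((i : ℕ) + (j : ℕ) < w l) → ev (Psi k d w c A M) (co P t) F (Sum.inl (l, i, j)) = 0 := by
    intro F l i j hij
    show aeval (co P t) (Psi k d w c A M (Sum.inl (l, i, j)) F) = _
    unfold Psi
    simp only [if_neg hij]
    simp
  constructor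
  · rintro ⟨F, hF, rfl⟩
    have hF' : ev (Psi k d w c A M) (co P t) F = 0 := hF
    refine ⟨⟨F.2, ?_⟩, fun s hs => ?_⟩
    · show ((homogeneousSubmodule (Fin 3) k d).subtype F : MvPolynomial (Fin 3) k) ∈
        (⨅ i : Fin n, (Ideal.span {X 0 - C (P i 0) * X 2,
          X 1 - C (P i 1) * X 2} : Ideal (MvPolynomial (Fin 3) k)) ^ (w i))
      rw [Ideal.mem_iInf]
      intro l
      refine mem_of_loc (d := d) F.2 fun e he => ?_
      ext u
      rw [coeff_homogeneousComponent, coeff_zero]
      split_ifs with hu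
      · have h2 : u 0 + u 1 = e := by
          rw [← hu, Finsupp.degree_eq_sum]
          simp [Fin.sum_univ_two]
        have h3 : (Finsupp.single 0 (u 0) + Finsupp.single 1 (u 1) : Fin 2 →₀ ℕ) = u := by
          ext i
          fin_cases i
          · simp
          · simp
        have hMl := hM l
        have h4 := hco F l ⟨u 0, by omega⟩ ⟨u 1, by omega⟩ (by simp only; omega)
        rw [hF'] at h4
        simp only [h3, Pi.zero_apply] at h4
        exact h4.symm
      · rfl
    · have h1 := hval F ⟨s, hs⟩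
      rw [hF'] at h1
      exact h1.symm
  · rintro ⟨hF, h⟩
    refine ⟨⟨F, hF.1⟩, ?_, rfl⟩
    rw [SetLike.mem_coe, LinearMap.mem_ker]
    ext q
    rcases q with ⟨l, i, j⟩ | s
    · by_cases hij : (i : ℕ) + (j : ℕ) < w l
      · rw [hco _ l i j hij]
        have h1 : F ∈ (⨅ i : Fin n, (Ideal.span {X 0 - C (P i 0) * X 2,
          X 1 - C (P i 1) * X 2} : Ideal (MvPolynomial (Fin 3) k)) ^ (w i)) := hF.2
        rw [Ideal.mem_iInf] at h1
        have h2 := loc_of_mem (h1 l) hij
        have h3 := congrArg (coeff (Finsupp.single 0 (i : ℕ) + Finsupp.single 1 (j : ℕ))) h2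
        rw [coeff_homogeneousComponent, coeff_zero, if_pos] at h3
        · exact h3
        · rw [map_add, Finsupp.degree_single, Finsupp.degree_single]
      · rw [hco0 _ l i j hij]
        rfl
    · rw [hval]
      exact h s s.2

/-- **joint form**: one nonempty open set of points and directions, for every degree -/
theorem joint [Infinite k] {m : ℕ} {G : MvPolynomial (Fin n × Fin 2) k} (hG : G ≠ 0)
    (hP : ∀ P : Fin n → Fin 2 → k, eval (fun ij : Fin n × Fin 2 => P ij.1 ij.2) G ≠ 0 →
      ∀ w : Fin n → ℕ, (∀ i, w i = m ∨ w i = m + 1) → ∀ d : ℕ,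
      Module.finrank k ↥(forms P d w) = (d + 2).choose 2 - ∑ i, (w i + 1).choose 2)
    (c : ι → Fin n) (A : Finset ι) (w : Fin n → ℕ) (hw : ∀ i, w i = m ∨ w i = m + 1)
    (hA : ∀ s ∈ A, w (c s) = m) (hcard : ∀ i, (A.filter fun s => c s = i).card ≤ m + 1) :
    ∃ H : MvPolynomial (Co n ι) k, H ≠ 0 ∧ ∀ (P : Fin n → Fin 2 → k) (t : ι → k),
      eval (co P t) H ≠ 0 → ∀ d : ℕ,
      Module.finrank k (sys P d w c t A) =
        (d + 2).choose 2 - (∑ i, (w i + 1).choose 2 + A.card) := by
  classical
  obtain ⟨P0, hP0⟩ : ∃ P : Fin n → Fin 2 → k,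
      eval (fun ij : Fin n × Fin 2 => P ij.1 ij.2) G ≠ 0 := by
    by_contra hcon
    push Not at hcon
    refine hG (MvPolynomial.funext fun x => ?_)
    rw [map_zero]
    exact hcon fun i j => x (i, j)
  obtain ⟨H0, hH0, h0⟩ := all_degrees (fun w hw d => hP P0 hP0 w hw d) c A w hw hA hcard
  obtain ⟨t0, ht0⟩ : ∃ t0 : ι → k, eval t0 H0 ≠ 0 := by
    by_contra hcon
    push Not at hcon
    exact hH0 (MvPolynomial.funext fun x => by rw [hcon x, map_zero])
  have hfin : ∀ d, Module.Finite k (homogeneousSubmodule (Fin 3) k d) := fun d =>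
    Module.Finite.iff_fg.2 (homogeneousSubmodule_fg (Fin 3) k d)
  have hM : ∀ i, w i ≤ m + 1 := fun i => by rcases hw i with h | h <;> omega
  have hdim : ∀ (d : ℕ) (P : Fin n → Fin 2 → k) (t : ι → k),
      Module.finrank k (LinearMap.ker (ev (Psi k d w c A (m + 1)) (co P t))) =
        Module.finrank k (sys P d w c t A) := by
    intro d P t
    rw [← ker_Psi hM P t, Submodule.finrank_map_subtype_eq]
  have hopen : ∀ d : ℕ, ∃ H : MvPolynomial (Co n ι) k, H ≠ 0 ∧
      ∀ (P : Fin n → Fin 2 → k) (t : ι → k), eval (co P t) H ≠ 0 →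
        Module.finrank k (sys P d w c t A) ≤
          (d + 2).choose 2 - (∑ i, (w i + 1).choose 2 + A.card) := by
    intro d
    have := hfin d
    obtain ⟨H, hH, h1⟩ := open_ker (Psi k d w c A (m + 1)) (co P0 t0)
    refine ⟨H, hH, fun P t hPt => ?_⟩
    have h2 := h1 _ hPt
    rw [hdim, hdim, h0 t0 ht0] at h2
    exact h2
  choose H hH h using hopen
  have hex : ∃ d : ℕ, A.card ≤ (d + 2).choose 2 - ∑ i, (w i + 1).choose 2 := by
    refine ⟨∑ i, (w i + 1).choose 2 + A.card, ?_⟩
    obtain ⟨S, hS⟩ : ∃ S, S = ∑ i, (w i + 1).choose 2 := ⟨_, rfl⟩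
    rw [← hS, Nat.choose_succ_succ (S + A.card + 1) 1, Nat.choose_one_right]
    simp only [Nat.succ_eq_add_one]
    omega
  refine ⟨rename Sum.inl G * (H (Nat.find hex) * H (Nat.find hex - 1)), ?_, fun P t hPt d => ?_⟩
  · refine mul_ne_zero ?_ (mul_ne_zero (hH _) (hH _))
    intro h3
    exact hG (rename_injective _ Sum.inl_injective (h3.trans (map_zero _).symm))
  · rw [map_mul, map_mul, eval_rename] at hPt
    have h1 : eval (fun ij : Fin n × Fin 2 => P ij.1 ij.2) G ≠ 0 := left_ne_zero_of_mul hPt
    have h2 := right_ne_zero_of_mul hPt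
    exact all_of_two (fun d => hP P h1 w hw d) (Nat.find_spec hex)
      (fun d hd => not_le.1 (Nat.find_min hex hd)) (h _ P t (left_ne_zero_of_mul h2))
      (h _ P t (right_ne_zero_of_mul h2)) d

end joint

end Pool.Agent.Run7.h866.NU.IN
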