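import Pool.Agent.Run7.h866.NU.Crit
import Pool.Agent.TH941.NU.Out
import Pool.Agent.TH760.EN.Asm

/-! Multiplicities `m` and `m + 1` at every number `n ≥ 200` of general points: the expected dimension
in every degree. -/

set_option autoImplicit false

namespace Pool.Agent.Run7.h866.NU

open Finset Pool.Agent.TH176.Nag Pool.Agent.TH603.Sur Pool.Agent.TH763.DB Module
open Pool.Agent.TH641.UM Pool.Agent.TH2.NU Pool.Agent.TH760.EN Pool.Agent.H932R3

/-- `n = 4 a + c` with the two statements about the small triangles -/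
theorem exists_ac' {n : ℕ} (hn : 37 ≤ n) : ∃ a c : ℕ, n = 4 * a + c ∧ 8 ≤ a ∧ c ≤ 5 ∧
    HE c ∧ HS c := by
  have h3 : HE 3 := Pool.Agent.TH641.EN.HE_three
  rcases (by omega : n % 4 = 0 ∨ n % 4 = 1 ∨ n % 4 = 2 ∨ n % 4 = 3) with h | h | h | h
  · exact ⟨n / 4, 0, by omega, by omega, by omega, he0, hs0⟩
  · exact ⟨(n - 5) / 4, 5, by omega, by omega, by omega,
      Pool.Agent.TH938.Q5.he5 he2 h3, Pool.Agent.TH938.Q5.hs5 he2 h3⟩
  · exact ⟨n / 4, 2, by omega, by omega, by omega, he2, hs2⟩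
  · exact ⟨n / 4, 3, by omega, by omega, by omega, h3, hs3_of h3⟩

/-- the multiset of a vector with values `m`, `m + 1` -/
theorem ms_V4 {a c n m b e x0 x1 x2 : ℕ} {w : Fin n → ℕ} (hn : n = 4 * a + c)
    (hw : ∀ i, w i = m ∨ w i = m + 1)
    (hb : b = 2 * m ∨ b = 2 * m + 1) (he : e = m ∨ e = m + 1) (hx : x0 + x1 + x2 = a)
    (hW : ∑ i, w i + x0 = a * (2 * b + 1) + x2 + c * e) :
    ms w = x0 • q4 b + (x1 • r4 (b + 1) + x2 • q4 (b + 1) + c • {e}) := by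
  have e0 : ms (Sum.elim (fun p : Fin x0 × (Fin 2 × Fin 2) => qv b p.2)
      (Sum.elim (Sum.elim (fun p : Fin x1 × (Fin 2 × Fin 2) => rv (b + 1) p.2)
        (fun p : Fin x2 × (Fin 2 × Fin 2) => qv (b + 1) p.2)) (fun _ : Fin c => e))) =
      x0 • q4 b + (x1 • r4 (b + 1) + x2 • q4 (b + 1) + c • {e}) := by
    rw [ms_sum, ms_sum, ms_sum, ms_prod, ms_prod, ms_prod, ms_fin]
    rfl
  rw [← e0]
  refine ms_eq hw ?_ ?_ ?_
  · rintro (⟨-, ⟨i, j⟩⟩ | (⟨-, ⟨i, j⟩⟩ | ⟨-, ⟨i, j⟩⟩) | -)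
    · simp only [Sum.elim_inl, qv]
      have := i.2
      omega
    · simp only [Sum.elim_inl, Sum.elim_inr, rv]
      have := i.2
      have := j.2
      omega
    · simp only [Sum.elim_inl, Sum.elim_inr, qv]
      have := i.2
      omega
    · simp only [Sum.elim_inr]
      exact he
  · rw [Fintype.card_sum, Fintype.card_sum, Fintype.card_sum]
    simp only [Fintype.card_prod, Fintype.card_fin]
    omega
  · rw [Fintype.sum_sum_type, Fintype.sum_sum_type, Fintype.sum_sum_type]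
    simp only [Sum.elim_inl, Sum.elim_inr, sum_const, card_univ, Fintype.card_fin, smul_eq_mul]
    rw [sum_prod_val, sum_prod_val, sum_prod_val, sum_qv_val, sum_rv_val, sum_qv_val]
    have h1 : x0 * (2 * b) + (x1 * (2 * b + 1) + x2 * (2 * (b + 1)) + c * e) + x0 =
        a * (2 * b + 1) + x2 + c * e := by
      rw [← hx]
      ring
    omega

/-- the choice of the spectators -/
theorem choose_e {a c n m W : ℕ} (hn : n = 4 * a + c) (hca : c ≤ a) (h1 : n * m ≤ W)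
    (h2 : W ≤ n * m + n) : ∃ (e b : ℕ) (δ : ℤ), (e = m ∨ e = m + 1) ∧ (b = 2 * m ∨ b = 2 * m + 1) ∧
      2 * e ≤ b + 1 ∧ b ≤ 2 * e + 1 ∧ |δ| ≤ a ∧ (W : ℤ) = a * (2 * b + 1) + δ + c * e := by
  obtain ⟨j, hj⟩ := Nat.exists_eq_add_of_le h1
  have hjn : j ≤ 4 * a + c := by omega
  have hW : (W : ℤ) = (4 * a + c) * m + j := by
    rw [hj, hn]; push_cast; ring
  rcases le_or_gt j (4 * a) with hc | hc
  · rcases le_or_gt j (2 * a) with hj2 | hj2
    · refine ⟨m, 2 * m, (j : ℤ) - a, Or.inl rfl, Or.inl rfl, by omega, by omega, ?_, ?_⟩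
      · rw [abs_le]; omega
      · rw [hW]; push_cast; ring
    · refine ⟨m, 2 * m + 1, (j : ℤ) - 3 * a, Or.inl rfl, Or.inr rfl, by omega, by omega, ?_, ?_⟩
      · rw [abs_le]; omega
      · rw [hW]; push_cast; ring
  · refine ⟨m + 1, 2 * m + 1, (j : ℤ) - c - 3 * a, Or.inr rfl, Or.inr rfl, by omega, by omega, ?_, ?_⟩
    · rw [abs_le]; omega
    · rw [hW]; push_cast; ring

/-- **the critical degrees** -/
theorem crit_all {n m : ℕ} (hn : 200 ≤ n) {w : Fin n → ℕ} (hw : ∀ i, w i = m ∨ w i = m + 1)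
    (hm : (n : ℝ) - 6 * √(n : ℝ) + 10 ≤ m) {d : ℕ}
    (hcrit : |√(n : ℝ) * (2 * d + 3) - (n + 2 * (∑ i, (w i : ℝ)))| ≤
      2 * √(n : ℝ) / 3 + 9 / 4) :
    ((d + 2).choose 2 ≤ Pool.Agent.TH603.Sur.cond w → Emp w (TZ d)) ∧
      (Pool.Agent.TH603.Sur.cond w ≤ (d + 2).choose 2 → Sur w (TZ d)) := by
  obtain ⟨a, c, hac, ha8, hc5, hE, hS⟩ := exists_ac' (by omega : 37 ≤ n)
  have hnR : (200 : ℝ) ≤ n := by exact_mod_cast hn
  have hn4 : (n : ℝ) = 4 * a + c := by rw [hac]; push_cast; ring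
  obtain ⟨s, hs⟩ : ∃ s, s = √(n : ℝ) := ⟨_, rfl⟩
  have hss : s * s = n := by rw [hs]; exact Real.mul_self_sqrt (by linarith)
  have hs14 : 14 ≤ s := by rw [hs]; exact Real.le_sqrt_of_sq_le (by norm_num; linarith)
  have h2mR : (n : ℝ) ≤ 2 * m := by
    rw [← hs] at hm
    nlinarith
  have h2m : n ≤ 2 * m := by exact_mod_cast h2mR
  obtain ⟨W, hW⟩ : ∃ W : ℕ, W = ∑ i, w i := ⟨_, rfl⟩
  have hlow : n * m ≤ W := by
    have h1 : ∑ _i : Fin n, m ≤ ∑ i, w i := sum_le_sum fun i _ => by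
      rcases hw i with h | h <;> omega
    rw [hW]
    simpa using h1
  have hup : W ≤ n * m + n := by
    have h1 : ∑ i, w i ≤ ∑ _i : Fin n, (m + 1) := sum_le_sum fun i _ => by
      rcases hw i with h | h <;> omega
    simp only [sum_const, card_univ, Fintype.card_fin, smul_eq_mul] at h1
    rw [hW]
    linarith
  have hWR : (∑ i, (w i : ℝ)) = (W : ℝ) := by rw [hW]; push_cast; rfl
  rw [hWR] at hcrit
  obtain ⟨e, b, δ, he, hb, hh1, hh2, hδ, hWd⟩ := choose_e (a := a) (c := c) (m := m) hac (by omega) hlow hup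
  have hWdR : (W : ℝ) = a * (2 * b + 1) + δ + c * e := by exact_mod_cast hWd
  have hlowR : (n : ℝ) * m ≤ W := by exact_mod_cast hlow
  have hcr := abs_le.1 hcrit
  rw [← hs] at hcr
  have X : Ctx a c n e b d := by
    refine ⟨hac, hc5, hn, by omega, hh1, hh2, hE, hS, ?_⟩
    rw [← hs]
    have h3 : (n : ℝ) * n ≤ n * (2 * m) := mul_le_mul_of_nonneg_left h2mR (by linarith)
    have h4 : s ≤ (n : ℝ) / 14 := by rw [← hss]; nlinarith
    nlinarith [hcr.1]
  obtain ⟨x0, x1, x2, hx, hx', hsg⟩ := sgn_all4 (δ := δ) X hδ (by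
    have e1 : 4 * (a : ℝ) * ((b + 1 : ℕ) : ℝ) + 2 * c * e + (n : ℝ) / 2 + (c : ℝ) / 2 + 2 * (δ : ℝ) =
        n + 2 * (W : ℝ) := by
      rw [hWdR, hn4]
      push_cast
      ring
    rw [e1]
    exact hcrit)
  have hms : ms w = x0 • q4 b + (x1 • r4 (b + 1) + x2 • q4 (b + 1) + c • {e}) := by
    refine ms_V4 hac hw hb he hx ?_
    rw [← hW]
    zify
    rw [hWd]
    linarith
  exact Pool.Agent.TH2.NU.Sgn_of_ms hms hsg

/-- **Every degree, every near-uniform vector, every number `n ≥ 200` of points.** -/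
theorem near_all {n m : ℕ} (hn : 200 ≤ n) (hm1 : 1 ≤ m) {w : Fin n → ℕ}
    (hw : ∀ i, w i = m ∨ w i = m + 1) {L : Type} [Field L] [CharZero L] :
    ∃ F : MvPolynomial (Fin n × Fin 2) ℚ, F ≠ 0 ∧ ∀ (P : Fin n → Fin 2 → L),
      MvPolynomial.aeval (fun ij : Fin n × Fin 2 => P ij.1 ij.2) F ≠ 0 →
      ∀ d : ℕ, ExpDim L w P d :=
  Pool.Agent.TH941.NU.near_of_window (by omega) hm1 hw fun hm _ hcrit => crit_all hn hw hm hcrit

end Pool.Agent.Run7.h866.NU
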