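import Pool.Agent.Run7.h866.NU.End
import Pool.Agent.Run7.h866.NU.Near
import Pool.Agent.TH641.DI.All

/-! Vectors close to a uniform vector, every number `n ≥ 37` of points. -/

set_option autoImplicit false

namespace Pool.Agent.Run7.h866.NU

open Finset Pool.Agent.TH176.Nag Pool.Agent.TH603.Sur Pool.Agent.TH603.Cut Pool.Agent.TH641.NW
open Pool.Agent.TH641.UM Pool.Agent.TH2.NU Pool.Agent.TH760.EN Pool.Agent.H932R3
open Pool.Agent.TH641.DI (low up dist exc cost exc_card sum_map_fs card_fs le_choose emp_clusters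
  sur_clusters)

/-- from families to multisets -/
theorem EmpM_fam {M : Multiset ℕ} {c e : ℕ} {S : Set (ℤ × ℤ)}
    (h : ∀ v : Fin M.toList.length → ℕ, (∑ i, v i = M.sum) → (∀ i, v i ∈ M) → Emp (mx v c e) S) :
    EmpM (M + c • {e}) S := by
  refine (EmpM_iff (w := mx (fun i : Fin M.toList.length => M.toList.get i) c e) (by
    unfold mx
    rw [ms_sum, ms_fin, exists_fam]) _).2 (h _ ?_ ?_)
  · rw [← ms_sum_val, exists_fam]
  · exact fun i => Multiset.mem_toList.1 (List.get_mem _ _)

theorem SurM_fam {M : Multiset ℕ} {c e : ℕ} {S : Set (ℤ × ℤ)}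
    (h : ∀ v : Fin M.toList.length → ℕ, (∑ i, v i = M.sum) → (∀ i, v i ∈ M) → Sur (mx v c e) S) :
    SurM (M + c • {e}) S := by
  refine (SurM_iff (w := mx (fun i : Fin M.toList.length => M.toList.get i) c e) (by
    unfold mx
    rw [ms_sum, ms_fin, exists_fam]) _).2 (h _ ?_ ?_)
  · rw [← ms_sum_val, exists_fam]
  · exact fun i => Multiset.mem_toList.1 (List.get_mem _ _)

theorem card_fam {M : Multiset ℕ} {a : ℕ} (h : M.card = a) :
    Fintype.card (Fin M.toList.length) = a := by
  rw [Fintype.card_fin, Multiset.length_toList, h]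

/-- the sign theorem near a uniform vector -/
theorem sgn_dist4 {a c m d : ℕ} {E : Multiset ℕ} (hk : E.card < a) (hm : 1 ≤ m)
    (hE : ∀ e ∈ E, e ≤ m + 1 ∧ e ≠ m)
    (h1 : SurM ((a - E.card) • {2 * m} + E.map (up m) + c • {m}) (TZ d))
    (h2 : EmpM ((a - E.card) • {2 * m + 1} + E.map (low m) + c • {m}) (TZ d)) :
    Sgn ((a - E.card) • q4 (2 * m) + ((3 * E.card) • {m} + E + c • {m})) d := by
  refine Sgn_dbl (by omega) ?_ ?_
  · have e1 : (a - E.card) • ({2 * m} : Multiset ℕ) + ((3 * E.card) • {m} + E + c • {m}) =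
        (a - E.card) • {2 * m} + c • {m} + ((3 * E.card) • {m} + E) := by abel
    rw [e1]
    refine sur_clusters hm E _ hE ?_
    have e2 : (a - E.card) • ({2 * m} : Multiset ℕ) + c • {m} + E.map (up m) =
        (a - E.card) • {2 * m} + E.map (up m) + c • {m} := by abel
    rw [e2]
    exact h1
  · have e1 : (a - E.card) • ({2 * m + 1} : Multiset ℕ) + ((3 * E.card) • {m} + E + c • {m}) =
        (a - E.card) • {2 * m + 1} + c • {m} + ((3 * E.card) • {m} + E) := by abel
    rw [e1]
    refine emp_clusters hm E _ (fun e he => (hE e he).1) ?_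
    have e2 : (a - E.card) • ({2 * m + 1} : Multiset ℕ) + c • {m} + E.map (low m) =
        (a - E.card) • {2 * m + 1} + E.map (low m) + c • {m} := by abel
    rw [e2]
    exact h2

theorem card_eq4 {n m : ℕ} {w : Fin n → ℕ} :
    (univ.filter fun i => w i = m).card + (exc m w).card = n := by
  unfold Pool.Agent.TH641.DI.exc
  rw [card_filter_add_card_filter_not]
  simp

theorem split_sum4 {n m : ℕ} {w : Fin n → ℕ} (g : ℕ → ℕ) :
    ∑ i, g (w i) = (univ.filter fun i => w i = m).card * g m + ∑ i ∈ exc m w, g (w i) := by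
  have h1 : ∑ i, g (w i) = ∑ i ∈ univ.filter (fun i => w i = m), g (w i) +
      ∑ i ∈ exc m w, g (w i) := by
    unfold Pool.Agent.TH641.DI.exc
    exact (sum_filter_add_sum_filter_not univ (fun i => w i = m) _).symm
  have h2 : ∑ i ∈ univ.filter (fun i => w i = m), g (w i) =
      ∑ _i ∈ univ.filter (fun i => w i = m), g m := by
    refine sum_congr rfl fun i hi => ?_
    rw [(mem_filter.1 hi).2]
  rw [h1, h2, sum_const, smul_eq_mul]

theorem ms_dist4 {n a c m : ℕ} (hn : n = 4 * a + c) {w : Fin n → ℕ} (hk : (exc m w).card ≤ a) :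
    ms w = (a - (exc m w).card) • q4 (2 * m) + ((3 * (exc m w).card) • {m} +
      ∑ i ∈ exc m w, ({w i} : Multiset ℕ) + c • {m}) := by
  have h1 : ms w = ∑ i ∈ univ.filter (fun i => w i = m), ({w i} : Multiset ℕ) +
      ∑ i ∈ exc m w, ({w i} : Multiset ℕ) := by
    unfold ms Pool.Agent.TH641.DI.exc
    exact (sum_filter_add_sum_filter_not univ (fun i => w i = m) _).symm
  have h2 : ∑ i ∈ univ.filter (fun i => w i = m), ({w i} : Multiset ℕ) =
      (univ.filter fun i => w i = m).card • ({m} : Multiset ℕ) := by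
    rw [← sum_const]
    refine sum_congr rfl fun i hi => ?_
    rw [(mem_filter.1 hi).2]
  have h3 := card_eq4 (m := m) (w := w)
  have h4 : (univ.filter fun i => w i = m).card =
      (a - (exc m w).card) * 4 + 3 * (exc m w).card + c := by
    omega
  rw [h1, h2, h4, Pool.Agent.TH641.DI.q4_even, add_smul, add_smul, mul_smul]
  abel

theorem sum_low4 {n a c m : ℕ} (hn : n = 4 * a + c) {w : Fin n → ℕ} (hw : ∀ i, w i ≤ m + 1)
    (hk : (exc m w).card ≤ a) :
    2 * ((a - (exc m w).card) * (2 * m + 1) + ∑ i ∈ exc m w, low m (w i)) + dist m w + c * m =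
      ∑ i, max (w i) m + 2 * a := by
  have h1 := split_sum4 (m := m) (w := w) (fun e => max e m)
  have h2 := split_sum4 (m := m) (w := w) (cost m)
  have h3 := card_eq4 (m := m) (w := w)
  have h4 : ∑ i ∈ exc m w, (2 * low m (w i) + cost m (w i)) =
      ∑ i ∈ exc m w, (max (w i) m + (3 * m + 2)) := by
    refine sum_congr rfl fun i hi => ?_
    have h5 : ¬ w i = m := (mem_filter.1 hi).2
    have h6 := hw i
    unfold Pool.Agent.TH641.DI.low Pool.Agent.TH641.DI.cost
    omega
  rw [sum_add_distrib, sum_add_distrib, ← mul_sum, sum_const, smul_eq_mul] at h4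
  have e1 : cost m m = 0 := by unfold Pool.Agent.TH641.DI.cost; omega
  rw [e1, mul_zero, zero_add] at h2
  have h2' : dist m w = ∑ i ∈ exc m w, cost m (w i) := h2
  obtain ⟨t, ht⟩ := Nat.exists_eq_add_of_le hk
  have e2 : a - (exc m w).card = t := by omega
  have e3 : (univ.filter fun i => w i = m).card = 3 * (exc m w).card + 4 * t + c := by omega
  simp only [max_self] at h1
  rw [e2, h1, h2', e3]
  rw [ht]
  linarith

theorem sum_up4 {n a c m : ℕ} (hn : n = 4 * a + c) {w : Fin n → ℕ} (hw : ∀ i, w i ≤ m + 1)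
    (hk : (exc m w).card ≤ a) :
    2 * ((a - (exc m w).card) * (2 * m) + ∑ i ∈ exc m w, up m (w i)) + c * m ≤
      ∑ i, w i + dist m w := by
  have h1 := split_sum4 (m := m) (w := w) (fun e => e)
  have h2 := split_sum4 (m := m) (w := w) (cost m)
  have h3 := card_eq4 (m := m) (w := w)
  have h4 : ∑ i ∈ exc m w, 2 * up m (w i) ≤
      ∑ i ∈ exc m w, (w i + cost m (w i) + 3 * m) := by
    refine sum_le_sum fun i hi => ?_
    have h5 : ¬ w i = m := (mem_filter.1 hi).2
    have h6 := hw i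
    unfold Pool.Agent.TH641.DI.up Pool.Agent.TH641.DI.cost
    omega
  rw [sum_add_distrib, sum_add_distrib, ← mul_sum, sum_const, smul_eq_mul] at h4
  have e1 : cost m m = 0 := by unfold Pool.Agent.TH641.DI.cost; omega
  rw [e1, mul_zero, zero_add] at h2
  have h2' : dist m w = ∑ i ∈ exc m w, cost m (w i) := h2
  obtain ⟨t, ht⟩ := Nat.exists_eq_add_of_le hk
  have e2 : a - (exc m w).card = t := by omega
  have e3 : (univ.filter fun i => w i = m).card = 3 * (exc m w).card + 4 * t + c := by omega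
  rw [e2, h1, h2', e3]
  linarith

theorem sum_up_ge4 {n a m : ℕ} {w : Fin n → ℕ} (hk : (exc m w).card ≤ a) :
    a * (2 * m) ≤ (a - (exc m w).card) * (2 * m) + ∑ i ∈ exc m w, up m (w i) := by
  have h4 : ∑ i ∈ exc m w, 2 * m ≤ ∑ i ∈ exc m w, up m (w i) := by
    refine sum_le_sum fun i hi => ?_
    unfold Pool.Agent.TH641.DI.up
    omega
  rw [sum_const, smul_eq_mul] at h4
  obtain ⟨t, ht⟩ := Nat.exists_eq_add_of_le hk
  have e2 : a - (exc m w).card = t := by omega
  rw [e2]
  calc a * (2 * m) = ((exc m w).card + t) * (2 * m) := by rw [← ht]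
    _ = t * (2 * m) + (exc m w).card * (2 * m) := by ring
    _ ≤ _ := by omega

/-- the number of spectators -/
def cc (n : ℕ) : ℕ := if n % 4 = 1 then 5 else n % 4

theorem exists_ac4 {n : ℕ} (hn : 37 ≤ n) : ∃ a : ℕ, n = 4 * a + cc n ∧ 8 ≤ a ∧ cc n ≤ 5 ∧
    HE (cc n) ∧ HS (cc n) := by
  have h3 : HE 3 := Pool.Agent.TH641.EN.HE_three
  unfold cc
  rcases (by omega : n % 4 = 0 ∨ n % 4 = 1 ∨ n % 4 = 2 ∨ n % 4 = 3) with h | h | h | h
  · rw [h]
    exact ⟨n / 4, by simp; omega, by omega, by simp, by simpa using he0, by simpa using hs0⟩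
  · rw [h]
    exact ⟨(n - 5) / 4, by simp; omega, by omega, by simp,
      by simpa using Pool.Agent.TH938.Q5.he5 he2 h3, by simpa using Pool.Agent.TH938.Q5.hs5 he2 h3⟩
  · rw [h]
    exact ⟨n / 4, by simp; omega, by omega, by simp, by simpa using he2, by simpa using hs2⟩
  · rw [h]
    exact ⟨n / 4, by simp; omega, by omega, by simp, by simpa using h3, by simpa using hs3_of h3⟩

/-- **Expected dimension in every degree for all vectors close to a uniform vector, every number
`n ≥ 37` of points.** -/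
theorem expDim_ball {n m : ℕ} (hn : 37 ≤ n) (hm : n + 6 ≤ 2 * m) {w : Fin n → ℕ}
    (hw : ∀ i, w i ≤ m + 1)
    (hT : (dist m w : ℝ) + (cc n : ℝ) / 2 + 9 / 8 < 7 * √(n : ℝ) / 6 ∨
      (dist m w : ℝ) + cc n + 2 * √(n : ℝ) / 3 + 23 / 8 ≤ (n : ℝ) / 4) :
    ∃ F : MvPolynomial (Fin n × Fin 2) ℚ, F ≠ 0 ∧
      ∀ {L : Type} [Field L] [CharZero L] (P : Fin n → Fin 2 → L),
        MvPolynomial.aeval (fun ij : Fin n × Fin 2 => P ij.1 ij.2) F ≠ 0 →
        ∀ d : ℕ, ExpDim L w P d := by
  obtain ⟨a, hac, ha8, hc5, hHE, hHS⟩ := exists_ac4 hn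
  obtain ⟨c, hc⟩ : ∃ c, c = cc n := ⟨_, rfl⟩
  rw [← hc] at hac hc5 hHE hHS hT
  have hnR : (37 : ℝ) ≤ n := by exact_mod_cast hn
  have hn4 : (n : ℝ) = 4 * a + c := by exact_mod_cast hac
  have hc0 : (0 : ℝ) ≤ c := Nat.cast_nonneg c
  have hmR : (n : ℝ) + 6 ≤ 2 * m := by exact_mod_cast hm
  obtain ⟨s, hs⟩ : ∃ s, s = √(n : ℝ) := ⟨_, rfl⟩
  have hss : s * s = n := by rw [hs]; exact Real.mul_self_sqrt (by linarith)
  have hs6 : 6 ≤ s := by rw [hs]; exact Real.le_sqrt_of_sq_le (by norm_num; linarith)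
  rw [← hs] at hT
  have hCa : dist m w < a := by
    have h : (dist m w : ℝ) < a := by
      rcases hT with h | h
      · have h6 : 0 ≤ (s - 6) * (s + 4 / 3) := mul_nonneg (by linarith) (by linarith)
        linarith
      · linarith
    exact_mod_cast h
  have hkC := exc_card m w
  have hk : (exc m w).card ≤ a := by omega
  have hlow := sum_low4 hac hw hk
  have hup := sum_up4 hac hw hk
  have hge := sum_up_ge4 (m := m) hk
  obtain ⟨C, hCd⟩ : ∃ C, C = dist m w := ⟨_, rfl⟩
  obtain ⟨k, hkd⟩ : ∃ k, k = (exc m w).card := ⟨_, rfl⟩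
  obtain ⟨W, hWd⟩ : ∃ W, W = ∑ i, w i := ⟨_, rfl⟩
  obtain ⟨V, hVd⟩ : ∃ V, V = ∑ i, max (w i) m := ⟨_, rfl⟩
  obtain ⟨E, hEd⟩ : ∃ E : Multiset ℕ, E = ∑ i ∈ exc m w, ({w i} : Multiset ℕ) := ⟨_, rfl⟩
  have hEc : E.card = k := by rw [hEd, hkd]; exact card_fs _ _
  have hEm : ∀ e ∈ E, e ≤ m + 1 ∧ e ≠ m := by
    intro e he
    rw [hEd, Multiset.mem_sum] at he
    obtain ⟨i, hi, hi'⟩ := he
    rw [Multiset.mem_singleton] at hi'
    rw [hi']
    exact ⟨hw i, (mem_filter.1 hi).2⟩
  have hms : ms w = (a - k) • q4 (2 * m) + ((3 * k) • {m} + E + c • {m}) := by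
    rw [hEd, hkd]
    exact ms_dist4 hac hk
  have eL : (E.map (low m)).sum = ∑ i ∈ exc m w, low m (w i) := by rw [hEd]; exact sum_map_fs _ _ _
  have eU : (E.map (up m)).sum = ∑ i ∈ exc m w, up m (w i) := by rw [hEd]; exact sum_map_fs _ _ _
  rw [← eL, ← hkd, ← hCd, ← hVd, ← hEc] at hlow
  rw [← eU, ← hkd, ← hCd, ← hWd, ← hEc] at hup
  rw [← eU, ← hkd, ← hEc] at hge
  rw [← hCd] at hT hCa
  obtain ⟨SL, hSL⟩ : ∃ SL : ℕ, SL = (a - E.card) * (2 * m + 1) + (E.map (low m)).sum := ⟨_, rfl⟩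
  obtain ⟨SU, hSU⟩ : ∃ SU : ℕ, SU = (a - E.card) * (2 * m) + (E.map (up m)).sum := ⟨_, rfl⟩
  rw [← hSL] at hlow
  rw [← hSU] at hup hge
  have hlowR : 2 * (SL : ℝ) + C + c * m = V + 2 * a := by exact_mod_cast hlow
  have hupR : 2 * (SU : ℝ) + c * m ≤ W + C := by exact_mod_cast hup
  have hgeR : (a : ℝ) * (2 * m) ≤ SU := by exact_mod_cast hge
  have hV : n * m ≤ V := by
    rw [hVd]
    have e : n * m = ∑ _i : Fin n, m := by simp
    rw [e]
    exact sum_le_sum fun i _ => le_max_right _ _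
  have hVR : (n : ℝ) * m ≤ V := by exact_mod_cast hV
  have hNm : (n : ℝ) * (n + 6) ≤ n * (2 * m) := mul_le_mul_of_nonneg_left hmR (by linarith)
  have hC0 : (0 : ℝ) ≤ C := Nat.cast_nonneg C
  have hCaR : (C : ℝ) ≤ a := by exact_mod_cast hCa.le
  have hWm : (n : ℝ) * m ≤ W + C := by
    have e1 : (n : ℝ) * m = 2 * (a * (2 * m)) + c * m := by rw [hn4]; ring
    rw [e1]
    linarith
  have hWlow : (n : ℝ) * ((n : ℝ) / 2 + 2) ≤ W := by linarith
  have hnn : (0 : ℝ) ≤ (n : ℝ) * n := by positivity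
  have hsn : s ≤ (n : ℝ) / 6 := by rw [← hss]; nlinarith
  have hT' : (C : ℝ) + (c : ℝ) / 2 + 9 / 8 < 7 * s / 6 ∨
      (40 ≤ n ∧ (C : ℝ) + c + 2 * s / 3 + 23 / 8 ≤ (n : ℝ) / 4) := by
    rcases hT with h | h
    · exact Or.inl h
    · rcases Nat.lt_or_ge n 40 with h40 | h40
      · left
        have h39 : (n : ℝ) ≤ 39 := by exact_mod_cast (by omega : n ≤ 39)
        linarith
      · exact Or.inr ⟨h40, h⟩
  -- the middle degrees
  have mid : ∀ d : ℕ, 2 * (W : ℝ) + n ≤ s * (2 * d + 3) + 2 * s / 3 + 9 / 4 →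
      s * (2 * d + 3) ≤ 2 * (V : ℝ) + n + 2 * s / 3 + 1 / 4 →
      ((d + 2).choose 2 ≤ Pool.Agent.TH603.Sur.cond w → Emp w (TZ d)) ∧
        (Pool.Agent.TH603.Sur.cond w ≤ (d + 2).choose 2 → Sur w (TZ d)) := by
    intro d h1 h2
    refine Pool.Agent.TH2.NU.Sgn_of_ms (M := (a - E.card) • q4 (2 * m) +
      ((3 * E.card) • {m} + E + c • {m})) ?_ ?_
    · rw [hEc]; exact hms
    · refine sgn_dist4 (by omega) (by omega) hEm ?_ ?_
      · refine SurM_fam fun v hv1 hv2 => ?_
        have hvs : ∑ i, v i = SU := by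
          rw [hv1, hSU, Multiset.sum_add, Multiset.sum_nsmul, Multiset.sum_singleton, smul_eq_mul]
        have hvb : ∀ i, 2 * m ≤ v i ∧ v i ≤ 2 * m + 1 := by
          intro i
          have he := hv2 i
          rw [Multiset.mem_add] at he
          rcases he with he | he
          · have h1 := Multiset.mem_of_mem_nsmul he
            rw [Multiset.mem_singleton] at h1
            omega
          · obtain ⟨x, hx, hx'⟩ := Multiset.mem_map.1 he
            have h1 := hEm x hx
            rw [← hx']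
            unfold Pool.Agent.TH641.DI.up
            omega
        have hvm : ∑ i, max (v i) (2 * m) = SU := by
          rw [← hvs]
          exact sum_congr rfl fun i _ => max_eq_left (hvb i).1
        have hcard := card_fam (M := (a - E.card) • {2 * m} + E.map (up m)) (a := a) (by
          rw [Multiset.card_add, Multiset.card_nsmul, Multiset.card_singleton, Multiset.card_map]
          omega)
        rcases hT' with hT | ⟨h40, hT⟩
        · refine Sur_end hcard hac (by omega) hHS (b := 2 * m) (fun i => (hvb i).2) (by omega)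
            (by omega) ?_
          rw [hvm, ← hs]
          linarith
        · refine Sur_mix hcard hac h40 hHS (b := 2 * m) (fun i => (hvb i).2) (by omega) (by omega) ?_
          rw [hvm, ← hs]
          linarith
      · refine EmpM_fam fun v hv1 hv2 => ?_
        have hvs : ∑ i, v i = SL := by
          rw [hv1, hSL, Multiset.sum_add, Multiset.sum_nsmul, Multiset.sum_singleton, smul_eq_mul]
        have hcard := card_fam (M := (a - E.card) • {2 * m + 1} + E.map (low m)) (a := a) (by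
          rw [Multiset.card_add, Multiset.card_nsmul, Multiset.card_singleton, Multiset.card_map]
          omega)
        rcases hT' with hT | ⟨h40, hT⟩
        · refine Emp_end hcard hac (by omega) hHE ?_
          rw [hvs, ← hs]
          linarith
        · refine Emp_mix hcard hac h40 (by omega) hHE ?_ ?_
          · rw [← hs]
            linarith
          · rw [hvs, ← hs]
            linarith
  -- all degrees
  have hcn : Fintype.card (Fin n) = n := Fintype.card_fin _
  obtain ⟨F, hF, hF'⟩ := expDim_two (w := w)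
    (A := fun d => d ≤ W + n + Pool.Agent.TH603.Sur.cond w ∧ Emp w (TZ d))
    (B := fun d => Sur w (TZ d))
    (W + n + Pool.Agent.TH603.Sur.cond w) (fun d hd => hd.1) (fun d hd => hd.2) (fun d hd => hd)
  refine ⟨F, hF, fun P hP d => hF' P hP d ?_⟩
  rcases lt_or_ge (s * (2 * d + 3) + 2 * s / 3 + 9 / 4) (2 * (W : ℝ) + n) with h1 | h1
  · left
    constructor
    · have h2 : (2 * d + 3 : ℝ) ≤ s * (2 * d + 3) :=
        le_mul_of_one_le_left (by positivity) (by linarith)
      have h3 : (d : ℝ) ≤ ((W + n : ℕ) : ℝ) := by push_cast; linarith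
      have h4 : d ≤ W + n := by exact_mod_cast h3
      omega
    · refine Emp_win2 keyE (n := n) (by omega) hcn ?_ ?_
      · rw [← hWd]
        exact hWlow
      · rw [← hWd, ← hs]
        linarith
  · rcases lt_or_ge (2 * (V : ℝ) + n + 2 * s / 3 + 1 / 4) (s * (2 * d + 3)) with h2 | h2
    · right
      refine Sur_win2 keyS (n := n) (b := m) (by omega) hcn hw ?_
      rw [← hVd, ← hs]
      linarith
    · rcases le_total ((d + 2).choose 2) (Pool.Agent.TH603.Sur.cond w) with h3 | h3
      · left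
        refine ⟨?_, (mid d h1 h2).1 h3⟩
        have h4 := le_choose d
        omega
      · right
        exact (mid d h1 h2).2 h3

end Pool.Agent.Run7.h866.NU
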