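import Mathlib

/-! The choice of `p` in the middle case, with `c` additional points of multiplicity `e`. -/

set_option autoImplicit false

namespace Pool.Agent.Run7.h866.NU

/-- the middle case -/
theorem mid4 {a c n B e d x0 x2 : ℕ} (hn : n = 4 * a + c) (hc : c ≤ 5) (hn200 : 200 ≤ n)
    (hB : n ≤ B) (he1 : 2 * e ≤ B) (he2 : B ≤ 2 * e + 2) (hx : x0 + x2 ≤ a)
    (h0 : √(n : ℝ) / 3 + 9 ≤ x0) (h2 : √(n : ℝ) / 3 + 9 ≤ x2)
    (hcrit : |√(n : ℝ) * (2 * d + 3) - (4 * a * B + 2 * c * e + (n : ℝ) / 2 + (c : ℝ) / 2 +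
      2 * ((x2 : ℝ) - x0))| ≤ 2 * √(n : ℝ) / 3 + 9 / 4) :
    ∃ p : ℕ, p + 1 ≤ x0 ∧
      (d + 1) * (d + 2) + 2 * (p * B) ≤
        2 * ((B + 1) / 2 * x2) + a * (B * (B + 1)) + c * (e * (e + 1)) ∧
      2 * ((B + 1) / 2 * x2) + a * (B * (B + 1)) + c * (e * (e + 1)) ≤
        (d + 1) * (d + 2) + 2 * ((p + 1) * B) ∧
      4 * ((a : ℝ) * B - p) + 2 * c * e + c + (n : ℝ) / 2 + 2 * √(n : ℝ) / 3 + 3 / 2 <
        √(n : ℝ) * (2 * d + 3) ∧
      √(n : ℝ) * (2 * d + 3) + 2 * √(n : ℝ) / 3 + 11 / 2 + c ≤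
        4 * ((a : ℝ) * B - (p + 1) + x2) + 2 * c * e + (n : ℝ) / 2 := by
  have hn' : (200 : ℝ) ≤ n := by exact_mod_cast hn200
  have hn4 : (n : ℝ) = 4 * a + c := by rw [hn]; push_cast; ring
  have hc0 : (0 : ℝ) ≤ c := Nat.cast_nonneg c
  have hc5 : (c : ℝ) ≤ 5 := by exact_mod_cast hc
  have hB' : (n : ℝ) ≤ B := by exact_mod_cast hB
  have hx' : (x0 : ℝ) + x2 ≤ a := by exact_mod_cast hx
  have he1' : 2 * (e : ℝ) ≤ B := by exact_mod_cast he1
  have he2' : (B : ℝ) ≤ 2 * e + 2 := by exact_mod_cast he2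
  have hs2 : √(n : ℝ) ^ 2 = 4 * a + c := by rw [Real.sq_sqrt (by positivity), hn4]
  have hs12 : 14 ≤ √(n : ℝ) := by
    apply Real.le_sqrt_of_sq_le
    linarith
  rw [hn4] at hcrit hn' hB' ⊢
  rw [hn4] at h0 h2 hs12 hs2
  generalize √(4 * (a : ℝ) + c) = s at *
  have ha48 : (48 : ℝ) ≤ a := by linarith
  have hsa : s ≤ 0.3 * a := by nlinarith
  obtain ⟨hc1, hc2⟩ := abs_le.1 hcrit
  obtain ⟨u, hu⟩ : ∃ u : ℝ, u = 2 * e - B := ⟨_, rfl⟩
  have hu1 : -2 ≤ u := by rw [hu]; linarith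
  have hu2 : u ≤ 0 := by rw [hu]; linarith
  obtain ⟨y, hy⟩ : ∃ y : ℝ, y = s * (2 * d + 3) - (4 * a * B + 2 * c * e + (4 * a + c) / 2) := ⟨_, rfl⟩
  have hy1 : (c : ℝ) / 2 + 2 * ((x2 : ℝ) - x0) - 2 * s / 3 - 9 / 4 ≤ y := by rw [hy]; linarith
  have hy2 : y ≤ (c : ℝ) / 2 + 2 * ((x2 : ℝ) - x0) + 2 * s / 3 + 9 / 4 := by rw [hy]; linarith
  have hx0 : (0 : ℝ) ≤ x0 := Nat.cast_nonneg _
  have hx2 : (0 : ℝ) ≤ x2 := Nat.cast_nonneg _
  have hya : y ≤ 2.3 * a := by linarith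
  have hyb : -(2.3 * a) ≤ y := by linarith
  obtain ⟨q, hq⟩ : ∃ q : ℕ, q = (B + 1) / 2 := ⟨_, rfl⟩
  rw [← hq]
  have hq1 : (B : ℝ) ≤ 2 * q := by exact_mod_cast (by omega : B ≤ 2 * q)
  have hq2 : 2 * (q : ℝ) ≤ B + 1 := by exact_mod_cast (by omega : 2 * q ≤ B + 1)
  have hBpos : (0 : ℝ) < B := by linarith
  have hapos : (0 : ℝ) < a := by linarith
  obtain ⟨N, hN⟩ : ∃ N : ℝ, N = 4 * a + c := ⟨_, rfl⟩
  have hNpos : 0 < N := by rw [hN]; linarith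
  obtain ⟨C, hCdef⟩ : ∃ C : ℤ, C = 2 * ((q : ℤ) * x2) + a * (B * (B + 1)) + c * (e * (e + 1)) -
    (d + 1) * (d + 2) := ⟨_, rfl⟩
  have hC : 4 * N * C = 8 * N * q * x2 + N * c * (B + 1 / 2) - N * (2 * B + 1) * y - N * (a + c) +
      N * c * (u + 1 / 2) ^ 2 - (c * u + y) ^ 2 + N := by
    rw [hCdef, hy, hN, hu]
    push_cast
    linear_combination ((2 * (d : ℝ) + 3) ^ 2) * hs2
  have hU : (C : ℝ) ≤ B * x2 + B * (c / 4 - y / 2) + 0.4 * B := by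
    have h1 : 4 * N * C ≤ 4 * N * (B * x2 + B * (c / 4 - y / 2) + 0.4 * B) := by
      rw [hC]
      have e1 : 8 * N * q * x2 ≤ 4 * N * (B + 1) * x2 := by
        have := mul_le_mul_of_nonneg_right hq2 (mul_nonneg hNpos.le hx2)
        linarith
      have e2 : N * (4 * x2 - y - a + 7 * c / 4 + 1) ≤ N * (1.6 * B) := by
        apply mul_le_mul_of_nonneg_left _ hNpos.le
        linarith
      have e3 := sq_nonneg (c * u + y)
      have e4 : (u + 1 / 2) ^ 2 ≤ 9 / 4 := by nlinarith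
      have e5 : N * c * (u + 1 / 2) ^ 2 ≤ N * c * (9 / 4) :=
        mul_le_mul_of_nonneg_left e4 (by positivity)
      linarith
    exact le_of_mul_le_mul_left h1 (by positivity)
  have hL : B * x2 + B * (c / 4 - y / 2) - 0.5 * B ≤ (C : ℝ) := by
    have h1 : 4 * N * (B * x2 + B * (c / 4 - y / 2) - 0.5 * B) ≤ 4 * N * C := by
      rw [hC]
      have e1 : 4 * N * B * x2 ≤ 8 * N * q * x2 := by
        have := mul_le_mul_of_nonneg_right hq1 (mul_nonneg hNpos.le hx2)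
        linarith
      have e2 : N * (y + a + c / 2 - 1) + (c * u + y) ^ 2 ≤ 2 * N * B := by
        have f0 : |c * u| ≤ 10 := by
          rw [abs_mul, abs_of_nonneg hc0, abs_of_nonpos hu2]
          nlinarith
        have f0' := abs_le.1 f0
        have f1 : (c * u + y) ^ 2 ≤ (2.6 * (a : ℝ)) ^ 2 := by
          apply sq_le_sq'
          · linarith [f0'.1]
          · linarith [f0'.2]
        have f2 : N * (y + a + c / 2 - 1) ≤ N * (3.4 * a) :=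
          mul_le_mul_of_nonneg_left (by linarith) hNpos.le
        have f3 : N * (4 * a) ≤ N * B := mul_le_mul_of_nonneg_left (by linarith) hNpos.le
        have f4 : 4 * (a : ℝ) * a ≤ N * a := mul_le_mul_of_nonneg_right (by rw [hN]; linarith) hapos.le
        nlinarith
      have e6 : 0 ≤ N * c * (u + 1 / 2) ^ 2 := by positivity
      linarith
    exact le_of_mul_le_mul_left h1 (by positivity)
  have hC0r : (0 : ℝ) ≤ C := by
    refine le_trans ?_ hL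
    have : 0 ≤ (B : ℝ) * (x2 + (c / 4 - y / 2) - 0.5) := by
      apply mul_nonneg hBpos.le
      linarith
    linarith
  have hC0 : 0 ≤ C := by exact_mod_cast hC0r
  have hB2 : (0 : ℤ) < 2 * B := by
    have : 0 < B := by omega
    omega
  obtain ⟨p, hp⟩ : ∃ p : ℕ, (p : ℤ) = C / (2 * B) :=
    ⟨(C / (2 * B)).toNat, Int.toNat_of_nonneg (Int.ediv_nonneg hC0 hB2.le)⟩
  have hp1 : 2 * (B : ℤ) * p ≤ C := by
    rw [hp]; exact Int.mul_ediv_self_le hB2.ne'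
  have hp2 : C < 2 * (B : ℤ) * (p + 1) := by
    rw [hp]
    have := Int.lt_ediv_add_one_mul_self C hB2
    linarith
  have hp1r : 2 * (B : ℝ) * p ≤ C := by exact_mod_cast hp1
  have hp2r : (C : ℝ) < 2 * (B : ℝ) * (p + 1) := by exact_mod_cast hp2
  have hpa : 4 * (p : ℝ) ≤ 2 * x2 + c / 2 - y + 0.8 := by
    have h1 : (B : ℝ) * (4 * p) ≤ B * (2 * x2 + c / 2 - y + 0.8) := by linarith
    exact le_of_mul_le_mul_left h1 hBpos
  have hpb : 2 * (x2 : ℝ) + c / 2 - y - 1 < 4 * (p + 1) := by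
    have h1 : (B : ℝ) * (2 * x2 + c / 2 - y - 1) < B * (4 * (p + 1)) := by linarith
    exact lt_of_mul_lt_mul_left h1 hBpos.le
  refine ⟨p, ?_, ?_, ?_, ?_, ?_⟩
  · have : (p : ℝ) + 1 ≤ x0 := by linarith
    exact_mod_cast this
  · zify
    rw [hCdef] at hp1
    linarith
  · zify
    rw [hCdef] at hp2
    linarith
  · linarith
  · linarith

end Pool.Agent.Run7.h866.NU
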