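import Pool.Agent.TH760.EN.EndE
import Pool.Agent.TH335.EN.EndS
import Pool.Agent.TH641.NW.Win2
import Pool.Agent.TH641.NW.Inst

/-! Windows for `a` points of multiplicities `v` and `c` points of multiplicity `e` (about half as
large), `n = 4 a + c`: the degree is compared with the slope `√ n / 2`. -/

set_option autoImplicit false

namespace Pool.Agent.Run7.h866.NU

open Finset Pool.Agent.TH176.Nag Pool.Agent.TH603.Sur Pool.Agent.TH603.Cut Pool.Agent.TH181.NagM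
open Pool.Agent.TH760.EN Pool.Agent.TH641.NW

/-- the weights: `v`, and `c` points of multiplicity `e` -/
def mx {ι : Type} (v : ι → ℕ) (c e : ℕ) : ι ⊕ Fin c → ℕ := Sum.elim v (fun _ => e)

/-- the right triangle of slope `a + c / 4`, emptiness -/
def U4 (a c V e : ℕ) : Set (ℤ × ℤ) :=
  {p | 0 ≤ p.1 ∧ 0 ≤ p.2 ∧ 4 * p.1 + (4 * (a : ℤ) + c) * p.2 < 4 * (V : ℤ) + 2 * (c : ℤ) * e}

theorem U4_finite {a c V e : ℕ} (h : 1 ≤ 4 * a + c) : (U4 a c V e).Finite := by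
  obtain ⟨N, hN⟩ : ∃ N : ℤ, N = 4 * (V : ℤ) + 2 * (c : ℤ) * e := ⟨_, rfl⟩
  apply Set.Finite.subset (Set.finite_Icc ((0, 0) : ℤ × ℤ) (N, N))
  rintro ⟨x, y⟩ ⟨h1, h2, h3⟩
  simp only at h1 h2 h3
  rw [← hN] at h3
  have h4 : (1 : ℤ) ≤ 4 * (a : ℤ) + c := by exact_mod_cast h
  have h5 : y ≤ (4 * (a : ℤ) + c) * y := by nlinarith
  rw [Set.mem_Icc, Prod.mk_le_mk, Prod.mk_le_mk]
  exact ⟨⟨h1, h2⟩, by linarith, by linarith⟩

theorem Emp_U4 {ι : Type} [Fintype ι] {v : ι → ℕ} {a c V e : ℕ} (ha : Fintype.card ι = a)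
    (hac : 1 ≤ 4 * a + c) (hV : ∑ i, v i = V) (h : Emp (fun _ : Fin c => e) (QQ c e)) :
    Emp (mx v c e) (U4 a c V e) := by
  have hfin := U4_finite (V := V) (e := e) hac
  have e0 : U4 a c V e = {p | p ∈ U4 a c V e ∧ p.1 + (a : ℤ) * p.2 < (V : ℤ)} ∪
      {p | p ∈ U4 a c V e ∧ (V : ℤ) ≤ p.1 + (a : ℤ) * p.2} := by
    ext p
    constructor
    · intro hp
      rcases lt_or_ge (p.1 + (a : ℤ) * p.2) (V : ℤ) with h1 | h1
      · exact Or.inl ⟨hp, h1⟩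
      · exact Or.inr ⟨hp, h1⟩
    · rintro (hp | hp) <;> exact hp.1
  rw [e0]
  refine Pool.Agent.TH698.NagT3.Emp_cut (hfin.subset fun p hp => hp.1)
    (hfin.subset fun p hp => hp.1) (fun p hp => ⟨hp.1.1, hp.1.2.1⟩)
    (fun p hp => ⟨hp.1.1, hp.1.2.1⟩) 1 a ?_ ?_ ?_
  · rintro p ⟨_, h1⟩ q ⟨_, h2⟩
    linarith
  · refine (Emp_rows v 0).mono ?_
    rintro ⟨x, y⟩ ⟨⟨h1, h2, h3⟩, h4⟩
    simp only at h1 h2 h3 h4
    refine ⟨h2, h1, ?_⟩
    obtain ⟨k, rfl⟩ := Int.eq_ofNat_of_zero_le h2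
    have h5 : ∑ i, v i ≤ ∑ i, (v i - k) + a * k := by
      have e1 : a * k = ∑ _i : ι, k := by
        rw [sum_const, card_univ, ha, smul_eq_mul]
      rw [e1, ← sum_add_distrib]
      exact sum_le_sum fun i _ => by omega
    rw [hV] at h5
    have h6 : (V : ℤ) ≤ ((∑ i, (v i - k) : ℕ) : ℤ) + (a : ℤ) * k := by exact_mod_cast h5
    simp only [Int.toNat_natCast, zero_add]
    linarith
  · refine h.comap 1 a 0 1 (-(V : ℤ)) 0 (by norm_num) ?_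
    rintro ⟨x, y⟩ ⟨⟨h1, h2, h3⟩, h4⟩
    simp only at h1 h2 h3 h4
    refine ⟨by simp only; linarith, by simp only; linarith, ?_⟩
    simp only
    linarith

/-- emptiness of the final triangle -/
theorem Emp_Cl4 {ι : Type} [Fintype ι] {v : ι → ℕ} {a c e : ℕ} (ha : Fintype.card ι = a)
    (hac : 1 ≤ 4 * a + c) (h : HE c) {Z' n' : ℝ} (hn' : n' = (a : ℝ) + (c : ℝ) / 4)
    (hZ : Z' ≤ ((∑ i, v i : ℕ) : ℝ) + (c : ℝ) * e / 2 + 3 / 4) :
    Emp (mx v c e) (Cl Z' n') := by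
  refine (Emp_U4 ha hac rfl (h e)).mono ?_
  rintro ⟨x, y⟩ ⟨h1, h2, h3⟩
  simp only at h1 h2 h3
  refine ⟨h1, h2, ?_⟩
  simp only
  rw [hn'] at h3
  have h4 : ((4 * x + (4 * (a : ℤ) + c) * y : ℤ) : ℝ) <
      ((4 * ((∑ i, v i : ℕ) : ℤ) + 2 * (c : ℤ) * e : ℤ) : ℝ) := by
    push_cast at hZ ⊢
    linarith
  exact_mod_cast h4

/-- the right triangle of slope `a + c / 4`, independence -/
def R4 (a c V e b : ℕ) : Set (ℤ × ℤ) :=
  {p | 0 ≤ p.1 ∧ 0 ≤ p.2 ∧ p.2 ≤ b ∧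
    4 * p.1 + (4 * (a : ℤ) + c) * p.2 + 4 ≤ 4 * (V : ℤ) + 2 * (c : ℤ) * e + c}

theorem Sur_R4 {ι : Type} [Fintype ι] {v : ι → ℕ} {a c b V e : ℕ} (ha : Fintype.card ι = a)
    (hb : ∀ i, v i ≤ b + 1) (hV : ∑ i, max (v i) b = V) (hbe : b ≤ 2 * e + 1) (heb : 2 * e ≤ b + 1)
    (h : HS c) : Sur (mx v c e) (R4 a c V e b) := by
  have haV : a * b ≤ V := by
    rw [← hV]
    have e1 : a * b = ∑ _i : ι, b := by rw [sum_const, card_univ, ha, smul_eq_mul]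
    rw [e1]
    exact sum_le_sum fun i _ => le_max_right _ _
  have haVz : (a : ℤ) * b ≤ V := by exact_mod_cast haV
  have ha0 : (0 : ℤ) ≤ a := Int.natCast_nonneg a
  have hc0 : (0 : ℤ) ≤ c := Int.natCast_nonneg c
  have h1 : Sur v {p : ℤ × ℤ | 0 ≤ p.1 ∧ 0 ≤ p.2 ∧ p.2 ≤ b ∧ p.1 + (a : ℤ) * p.2 < V} := by
    apply Sur_rows v 0
    intro k j hj
    have hk : ∃ i, k < v i := by
      by_contra hcon
      push Not at hcon
      have : ∑ i, (v i - k) = 0 := sum_eq_zero fun i _ => Nat.sub_eq_zero_of_le (hcon i)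
      omega
    obtain ⟨i, hi⟩ := hk
    have hkb : k ≤ b := by have := hb i; omega
    have h2 : ∑ i, (v i - k) + a * k ≤ V := by
      have e1 : a * k = ∑ _i : ι, k := by rw [sum_const, card_univ, ha, smul_eq_mul]
      rw [e1, ← sum_add_distrib, ← hV]
      refine sum_le_sum fun i _ => ?_
      rcases le_total (v i) k with h | h
      · rw [Nat.sub_eq_zero_of_le h, zero_add]
        exact hkb.trans (le_max_right _ _)
      · rw [Nat.sub_add_cancel h]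
        exact le_max_left _ _
    have h3 : j + a * k < V := by omega
    refine ⟨by simp, by simp, by simp only; exact_mod_cast hkb, ?_⟩
    simp only [zero_add]
    exact_mod_cast h3
  have h2 : Sur (fun _ : Fin c => e)
      {p : ℤ × ℤ | 0 ≤ p.2 ∧ p.2 < 2 * e ∧ (V : ℤ) ≤ p.1 + (a : ℤ) * p.2 ∧
        4 * p.1 + (4 * (a : ℤ) + c) * p.2 + 4 ≤ 4 * (V : ℤ) + 2 * (c : ℤ) * e + c} := by
    refine (h e).comap 1 a 0 1 (-(V : ℤ)) 0 (by norm_num) ?_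
    rintro ⟨i, y⟩ ⟨k1, k2, k3, k4⟩
    simp only at k1 k2 k3 k4
    refine ⟨(i - a * y + V, y), ⟨k2, k3, ?_, ?_⟩, ?_⟩
    · simp only
      linarith
    · simp only
      linarith
    · simp only [Prod.mk.injEq]
      exact ⟨by ring, by ring⟩
  have hpos : ∀ p : ℤ × ℤ, p.2 < 2 * e → (V : ℤ) ≤ p.1 + (a : ℤ) * p.2 → 0 ≤ p.1 := by
    intro p hp1 hp2
    have h3 : p.2 ≤ b := by omega
    have h4 : (a : ℤ) * p.2 ≤ a * b := mul_le_mul_of_nonneg_left h3 ha0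
    linarith
  have h3 := Pool.Agent.TH335.EN.Sur_cut (fun p hp => ⟨hp.1, hp.2.1⟩)
    (fun p hp => ⟨hpos p hp.2.1 hp.2.2.1, hp.1⟩) 1 a ?_ h1 h2
  · refine h3.mono ?_
    rintro p (⟨k1, k2, k3, k4⟩ | ⟨k1, k2, k3, k4⟩)
    · refine ⟨k1, k2, k3, ?_⟩
      have k5 : p.2 ≤ 2 * (e : ℤ) + 1 := by
        have : (b : ℤ) ≤ 2 * e + 1 := by exact_mod_cast hbe
        linarith
      have k6 : (c : ℤ) * p.2 ≤ c * (2 * e + 1) := mul_le_mul_of_nonneg_left k5 hc0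
      linarith
    · exact ⟨hpos p k2 k3, k1, by omega, k4⟩
  · rintro p ⟨k1, k2, k3, k4⟩ p' ⟨k1', k2', k3', k4'⟩
    linarith

/-- independence for the final triangle -/
theorem Sur_Op4 {ι : Type} [Fintype ι] {v : ι → ℕ} {a c b e : ℕ} (ha : Fintype.card ι = a)
    (hb : ∀ i, v i ≤ b + 1) (hbe : b ≤ 2 * e + 1) (heb : 2 * e ≤ b + 1) (h : HS c) {Z' n' : ℝ}
    (hn' : n' ≤ (a : ℝ) + (c : ℝ) / 4)
    (hZ : ((∑ i, max (v i) b : ℕ) : ℝ) + (c : ℝ) * e / 2 + (c : ℝ) / 4 - 1 < Z') :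
    Sur (mx v c e) (Op Z' n') := by
  refine (Sur_R4 ha hb rfl hbe heb h).mono ?_
  rintro ⟨x, y⟩ ⟨h1, h2, -, h3⟩
  simp only at h1 h2 h3
  refine ⟨h1, h2, ?_⟩
  simp only
  have h4 : ((4 * x + (4 * (a : ℤ) + c) * y + 4 : ℤ) : ℝ) ≤
      ((4 * ((∑ i, max (v i) b : ℕ) : ℤ) + 2 * (c : ℤ) * e + c : ℤ) : ℝ) := by exact_mod_cast h3
  push_cast at h4 hZ
  have h2' : (0 : ℝ) ≤ y := by exact_mod_cast h2
  have h5 : n' * y ≤ ((a : ℝ) + (c : ℝ) / 4) * y := mul_le_mul_of_nonneg_right hn' h2'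
  linarith

/-- **window, emptiness** -/
theorem Emp_mix {ι : Type} [Fintype ι] {v : ι → ℕ} {a c n e d : ℕ} (ha : Fintype.card ι = a)
    (hn : n = 4 * a + c) (hn40 : 40 ≤ n) (ha1 : 1 ≤ a) (h : HE c)
    (hd : (n : ℝ) * ((n : ℝ) / 8 + 2) ≤ 2 * (√(n : ℝ) * d))
    (h1 : √(n : ℝ) * (2 * d + 3) + 2 * √(n : ℝ) / 3 + 11 / 2 + c ≤
      4 * ((∑ i, v i : ℕ) : ℝ) + 2 * c * e + (n : ℝ) / 2) :
    Emp (mx v c e) (TZ d) := by
  classical
  have hnR : (40 : ℝ) ≤ n := by exact_mod_cast hn40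
  have hn4 : (n : ℝ) = 4 * a + c := by rw [hn]; push_cast; ring
  obtain ⟨s, hsdef⟩ : ∃ s, s = √(n : ℝ) / 2 := ⟨_, rfl⟩
  have hs2 : √(n : ℝ) = 2 * s := by rw [hsdef]; ring
  have hs : s * s = (n : ℝ) / 4 := by
    have := Real.mul_self_sqrt (show (0 : ℝ) ≤ n by linarith)
    rw [hs2] at this
    linarith
  have hs3 : 3.1 ≤ s := by
    rw [hsdef]
    have : (6.2 : ℝ) ≤ √(n : ℝ) := Real.le_sqrt_of_sq_le (by norm_num; linarith)
    linarith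
  have hs0 : 0 < s := by linarith
  rw [hs2] at h1 hd
  obtain ⟨V, hV⟩ : ∃ V : ℝ, V = ((∑ i, v i : ℕ) : ℝ) := ⟨_, rfl⟩
  obtain ⟨J, hJ⟩ : ∃ J : ℕ, J = ⌊(d : ℝ) / s⌋₊ := ⟨_, rfl⟩
  have hJ1 : s * J ≤ d := by
    have := Nat.floor_le (show 0 ≤ (d : ℝ) / s by positivity)
    rw [← hJ, le_div_iff₀ hs0] at this
    linarith
  have hJ2 : (d : ℝ) < s * (J + 1) := by
    have := Nat.lt_floor_add_one ((d : ℝ) / s)
    rw [← hJ, div_lt_iff₀ hs0] at this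
    linarith
  have hJn : (n : ℝ) / 8 ≤ J := by
    have h2 : s * (d : ℝ) < s * (s * (J + 1)) := mul_lt_mul_of_pos_left hJ2 hs0
    have h3 : s * (s * ((J : ℝ) + 1)) = (n : ℝ) / 4 * (J + 1) := by rw [← mul_assoc, hs]
    rw [h3] at h2
    have h4 : (n : ℝ) * ((n : ℝ) / 8 + 2) < n * (J + 1) := by linarith
    have h5 := lt_of_mul_lt_mul_left h4 (by linarith)
    linarith
  rw [← hV] at h1
  have eK : (3 * s) ^ 2 = 9 * ((n : ℝ) / 4) := by rw [mul_pow, sq s, hs]; ring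
  have hσ : ((a - 1 : ℕ) : ℝ) = a - 1 := by
    rw [Nat.cast_sub (by omega)]; push_cast; ring
  have hK0 : 0 ≤ 3 * s := by linarith
  have hc0 : (0 : ℝ) ≤ c := Nat.cast_nonneg c
  obtain ⟨Y, hY⟩ : ∃ Y : ℝ, Y = 3 * d - 3 * s * J := ⟨_, rfl⟩
  have hY0 : 0 ≤ Y := by rw [hY]; linarith
  have hYK : Y < 3 * s := by rw [hY]; linarith
  refine Emp_pl keyE (K := 3 * s) hK0 (n' := (n : ℝ) / 4)
    (Z' := V + (c : ℝ) * e / 2 + 3 / 4)
    (σ := a - 1) (J := J) (ρ := fun j => if j < J then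
      s * (d + 3 / 2) - (n : ℝ) / 8 - (n : ℝ) / 4 * j + s / 3 + 9 / 8 else
    if j = J then Y ^ 2 / 18 + 11 / 18 * Y + 17 / 8
      else 0) ?_ ?_ ?_ ?_ ?_ ?_
  · rw [hσ]; linarith
  · intro x j B hB
    split_ifs with h2 h3
    · have h3 : (j : ℝ) + 1 ≤ J := by exact_mod_cast h2
      have h4 := mul_le_mul_of_nonneg_left h3 hK0
      have h5 := up_row2 (x := x) (by linarith) (by linarith) hB
      rw [ell_row, eK] at h5
      linarith
    · subst h3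
      rw [hY]
      exact up_top (by linarith) (by linarith) (by linarith) hB
    · have h3 : (J : ℝ) + 1 ≤ j := by exact_mod_cast (by omega : J + 1 ≤ j)
      have h4 := mul_le_mul_of_nonneg_left h3 hK0
      have h5 : B = ∅ := by
        rw [Finset.eq_empty_iff_forall_notMem]
        exact fun c hc => U_empty (by linarith) (hB c hc)
      rw [h5]; simp
  · intro j hj
    simp only [if_pos hj]
    rw [hσ]
    linarith
  · simp only [lt_irrefl, if_false, if_true]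
    rw [hσ]
    have e1 : (n : ℝ) / 4 * J = s * d - s * Y / 3 := by rw [hY, ← hs]; ring
    have h7 : (3 * s - Y) ^ 2 = 9 * ((n : ℝ) / 4) - 6 * s * Y + Y ^ 2 := by
      have : (3 * s - Y) ^ 2 = 9 * (s * s) - 6 * s * Y + Y ^ 2 := by ring
      rw [this, hs]
    have h5 : (3 * s - Y) ^ 2 ≤ (3 * s) ^ 2 := pow_le_pow_left₀ (by linarith) (by linarith) 2
    have hJ0 : (0 : ℝ) ≤ J := Nat.cast_nonneg J
    have h8 : 0 ≤ (c : ℝ) * J := mul_nonneg hc0 hJ0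
    have e2 : ((a : ℝ) - 1) * J = (n : ℝ) / 4 * J - (c : ℝ) * J / 4 - J := by
      rw [hn4]; ring
    rw [e2, e1]
    linarith
  · intro j hj
    simp only [if_neg (not_lt.2 hj.le), if_neg (show ¬ j = J by omega)]
    norm_num
  · refine Emp_Cl4 ha (by omega) h ?_ ?_
    · rw [hn4]; ring
    · rw [hV]

/-- **window, independence** -/
theorem Sur_mix {ι : Type} [Fintype ι] {v : ι → ℕ} {a c n b e d : ℕ} (ha : Fintype.card ι = a)
    (hn : n = 4 * a + c) (hn40 : 40 ≤ n) (h : HS c)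
    (hb : ∀ i, v i ≤ b + 1) (hbe : b ≤ 2 * e + 1) (heb : 2 * e ≤ b + 1)
    (h1 : 4 * ((∑ i, max (v i) b : ℕ) : ℝ) + 2 * c * e + c + (n : ℝ) / 2 + 2 * √(n : ℝ) / 3 + 3 / 2 <
      √(n : ℝ) * (2 * d + 3)) :
    Sur (mx v c e) (TZ d) := by
  have hnR : (40 : ℝ) ≤ n := by exact_mod_cast hn40
  have hn4 : (n : ℝ) = 4 * a + c := by rw [hn]; push_cast; ring
  obtain ⟨s, hsdef⟩ : ∃ s, s = √(n : ℝ) / 2 := ⟨_, rfl⟩
  have hs2 : √(n : ℝ) = 2 * s := by rw [hsdef]; ring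
  have hs : s * s = (n : ℝ) / 4 := by
    have := Real.mul_self_sqrt (show (0 : ℝ) ≤ n by linarith)
    rw [hs2] at this
    linarith
  have hs3 : 3.1 ≤ s := by
    rw [hsdef]
    have : (6.2 : ℝ) ≤ √(n : ℝ) := Real.le_sqrt_of_sq_le (by norm_num; linarith)
    linarith
  have hs0 : 0 < s := by linarith
  rw [hs2] at h1
  obtain ⟨W, hW⟩ : ∃ W : ℝ, W = ((∑ i, max (v i) b : ℕ) : ℝ) + (c : ℝ) * e / 2 + (c : ℝ) / 4 - 3 / 4 :=
    ⟨_, rfl⟩
  have h1' : W + 9 / 8 + (n : ℝ) / 8 + s / 3 < s * (d + 3 / 2) := by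
    rw [hW]
    linarith
  -- an irrational slope slightly smaller than `3 s`
  obtain ⟨η, hη0, hη⟩ : ∃ η : ℝ, 0 < η ∧ η ≤ 0.3 ∧
      W + 9 / 8 + (n : ℝ) / 8 + s / 3 + η * ((d + 3 / 2) / 3) ≤ s * (d + 3 / 2) := by
    have hd : 0 < ((d : ℝ) + 3 / 2) / 3 := by positivity
    refine ⟨min 0.3 ((s * (d + 3 / 2) - (W + 9 / 8 + (n : ℝ) / 8 + s / 3)) / ((d + 3 / 2) / 3)), ?_,
      min_le_left _ _, ?_⟩
    · exact lt_min (by norm_num) (div_pos (by linarith) hd)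
    · have h2 := mul_le_mul_of_nonneg_right (min_le_right (0.3 : ℝ)
        ((s * (d + 3 / 2) - (W + 9 / 8 + (n : ℝ) / 8 + s / 3)) / ((d + 3 / 2) / 3))) hd.le
      rw [div_mul_cancel₀ _ hd.ne'] at h2
      linarith
  obtain ⟨K, hKirr, hK1, hK2⟩ := exists_irrational_btwn (show 3 * s - η < 3 * s by linarith)
  have hK9 : 9 ≤ K := by linarith [hη.1]
  have hKs : K ^ 2 ≤ 9 * ((n : ℝ) / 4) := by
    have : K ^ 2 ≤ (3 * s) ^ 2 := pow_le_pow_left₀ (by linarith) hK2.le 2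
    have e : (3 * s) ^ 2 = 9 * ((n : ℝ) / 4) := by rw [mul_pow, sq s, hs]; ring
    linarith
  have hmain : W + 9 / 8 + (n : ℝ) / 8 + K / 9 ≤ K / 3 * ((d : ℝ) + 3 / 2) := by
    have h3 : (3 * s - η) / 3 * ((d : ℝ) + 3 / 2) ≤ K / 3 * (d + 3 / 2) :=
      mul_le_mul_of_nonneg_right (by linarith) (by positivity)
    have h4 : (3 * s - η) / 3 * ((d : ℝ) + 3 / 2) = s * (d + 3 / 2) - η * ((d + 3 / 2) / 3) := by ring
    linarith [hη.2]
  refine Sur_pl keyS hK9 hKirr (n' := (n : ℝ) / 4) (Z' := W) ?_ ?_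
  · intro x j hj
    have hj0 : (0 : ℝ) ≤ j := Nat.cast_nonneg j
    have hY : 0 ≤ 3 * (d : ℝ) - K * j := by
      have h3 : K * j ≤ 3 * s * j := mul_le_mul_of_nonneg_right hK2.le hj0
      have h4 : s * (3 * s * j) < s * (3 * d) := by
        have e : s * (3 * s * (j : ℝ)) = 3 * ((n : ℝ) / 4 * j) := by rw [← hs]; ring
        rw [e]
        have h6 : 7 / 6 * s ≤ (n : ℝ) / 8 + 9 / 8 := by
          have e8 : (n : ℝ) / 8 = s * s / 2 := by rw [hs]; ring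
          rw [e8]; nlinarith
        linarith
      have h5 := lt_of_mul_lt_mul_left h4 hs0.le
      linarith
    obtain ⟨B, hB1, hB2⟩ := low_row2 (x := x) hK9 hY
    refine ⟨B, hB1, ?_⟩
    rw [ell_row] at hB2
    have h7 : K ^ 2 / 9 * j ≤ (n : ℝ) / 4 * j := mul_le_mul_of_nonneg_right (by linarith) hj0
    linarith
  · refine Sur_Op4 ha hb hbe heb h ?_ ?_
    · rw [hn4]
      linarith
    · rw [hW]; linarith

end Pool.Agent.Run7.h866.NU
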