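import Pool.Agent.TH2.NU.Near4
import Pool.Agent.Run7.h866.NU.Tri
import Pool.Agent.Run7.h866.NU.Mid

/-! The critical degrees for clusters of the three kinds and `c` spectators of multiplicity `e`. -/

set_option autoImplicit false

namespace Pool.Agent.Run7.h866.NU

open Finset Pool.Agent.TH176.Nag Pool.Agent.TH603.Sur Pool.Agent.TH763.DB Module
open Pool.Agent.TH641.UM Pool.Agent.TH2.NU Pool.Agent.TH760.EN

/-- the standing hypotheses -/
structure Ctx (a c n e b d : ℕ) : Prop where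
  hn : n = 4 * a + c
  hc : c ≤ 5
  h200 : 200 ≤ n
  hB : n ≤ b + 1
  he1 : 2 * e ≤ b + 1
  he2 : b ≤ 2 * e + 1
  hE : HE c
  hS : HS c
  hd : (n : ℝ) * ((n : ℝ) / 8 + 2) ≤ 2 * (√(n : ℝ) * d)

/-- window `Emp`, multiset form -/
theorem EmpW4 {a c n e b d p q r : ℕ} (X : Ctx a c n e b d) (h : p + q + r = a)
    (hwin : √(n : ℝ) * (2 * d + 3) + 2 * √(n : ℝ) / 3 + 11 / 2 + c ≤
      4 * ((a : ℝ) * ((b + 1 : ℕ) : ℝ) - p + r) + 2 * c * e + (n : ℝ) / 2) :
    EmpM (p • {b} + (q • {b + 1} + r • {b + 2}) + c • {e}) (TZ d) := by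
  refine (EmpM_iff (w := mx (Sum.elim (fun _ : Fin p => b) (Sum.elim (fun _ : Fin q => b + 1)
    (fun _ : Fin r => b + 2))) c e) (by
      unfold mx
      rw [ms_sum, ms_sum, ms_sum, ms_fin, ms_fin, ms_fin, ms_fin]) _).2 ?_
  have := X.hn
  have := X.h200
  have := X.hc
  refine Emp_mix (a := a) (n := n) ?_ X.hn (by omega) (by omega) X.hE X.hd ?_
  · rw [Fintype.card_sum, Fintype.card_sum, Fintype.card_fin, Fintype.card_fin, Fintype.card_fin]
    omega
  · rw [Fintype.sum_sum_type, Fintype.sum_sum_type]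
    simp only [Sum.elim_inl, Sum.elim_inr, sum_const, card_univ, Fintype.card_fin, smul_eq_mul]
    have e1 : (a : ℝ) = p + q + r := by rw [← h]; push_cast; ring
    have e2 : ((p * b + (q * (b + 1) + r * (b + 2)) : ℕ) : ℝ) =
        (a : ℝ) * ((b + 1 : ℕ) : ℝ) - p + r := by
      rw [e1]
      push_cast
      ring
    rw [e2]
    exact hwin

/-- window `Sur`, multiset form -/
theorem SurW4 {a c n e b d p q : ℕ} (X : Ctx a c n e b d) (h : p + q = a)
    (hwin : 4 * ((a : ℝ) * ((b + 1 : ℕ) : ℝ) - p) + 2 * c * e + c + (n : ℝ) / 2 +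
      2 * √(n : ℝ) / 3 + 3 / 2 < √(n : ℝ) * (2 * d + 3)) :
    SurM (p • {b} + q • {b + 1} + c • {e}) (TZ d) := by
  refine (SurM_iff (w := mx (Sum.elim (fun _ : Fin p => b) (fun _ : Fin q => b + 1)) c e)
    (by
      unfold mx
      rw [ms_sum, ms_sum, ms_fin, ms_fin, ms_fin]) _).2 ?_
  have := X.hn
  have := X.h200
  have := X.hc
  refine Sur_mix (a := a) (n := n) (b := b) ?_ X.hn (by omega) X.hS ?_ X.he2 X.he1 ?_
  · rw [Fintype.card_sum, Fintype.card_fin, Fintype.card_fin]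
    omega
  · rintro (i | i)
    · exact Nat.le_succ _
    · exact le_refl _
  · rw [Fintype.sum_sum_type]
    simp only [Sum.elim_inl, Sum.elim_inr, sum_const, card_univ, Fintype.card_fin, smul_eq_mul,
      max_self, max_eq_left (Nat.le_succ b)]
    have e1 : (a : ℝ) = p + q := by rw [← h]; push_cast; ring
    have e2 : ((p * b + q * (b + 1) : ℕ) : ℝ) = (a : ℝ) * ((b + 1 : ℕ) : ℝ) - p := by
      rw [e1]
      push_cast
      ring
    rw [e2]
    exact hwin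

/-- case A: clusters `q4 b` and `r4 (b + 1)` -/
theorem caseA4 {a c n e b d x0 x1 : ℕ} (X : Ctx a c n e b d) (hx : x0 + x1 = a) (h0 : 0 < x0)
    (hE : √(n : ℝ) * (2 * d + 3) + 2 * √(n : ℝ) / 3 + 11 / 2 + c ≤
      4 * ((a : ℝ) * ((b + 1 : ℕ) : ℝ)) + 2 * c * e + (n : ℝ) / 2)
    (hS : 4 * ((a : ℝ) * ((b + 1 : ℕ) : ℝ) - x0) + 2 * c * e + c + (n : ℝ) / 2 +
      2 * √(n : ℝ) / 3 + 3 / 2 < √(n : ℝ) * (2 * d + 3)) :
    Sgn (x0 • q4 b + (x1 • r4 (b + 1) + c • {e})) d := by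
  refine Sgn_dbl h0 ?_ ?_
  · have h1 := SurW4 X hx hS
    have e1 : x0 • ({b} : Multiset ℕ) + (x1 • r4 (b + 1) + c • {e}) =
        x1 • r4 (b + 1) + (x0 • {b} + c • {e}) := by abel
    rw [e1]
    refine exMS (by omega) ?_
    have e2 : x1 • ({b + 1} : Multiset ℕ) + (x0 • {b} + c • {e}) =
        x0 • {b} + x1 • {b + 1} + c • {e} := by abel
    rw [e2]
    exact h1
  · have h1 := EmpW4 (p := 0) (q := a) (r := 0) X (by omega) (by
      push_cast at hE ⊢
      linarith)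
    rw [zero_smul, zero_smul, zero_add, add_zero] at h1
    have e1 : x0 • ({b + 1} : Multiset ℕ) + (x1 • r4 (b + 1) + c • {e}) =
        x1 • r4 (b + 1) + (x0 • {b + 1} + c • {e}) := by abel
    rw [e1]
    refine Pool.Agent.TH2.NU.exM' (by omega) ?_
    have e2 : x1 • ({b + 1} : Multiset ℕ) + (x0 • {b + 1} + c • {e}) = a • {b + 1} + c • {e} := by
      rw [← hx, add_smul]
      abel
    rw [e2]
    exact h1

/-- case B: clusters `r4 (b + 1)` and `q4 (b + 1)` -/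
theorem caseB4 {a c n e b d x1 x2 : ℕ} (X : Ctx a c n e b d) (hx : x1 + x2 = a) (h0 : 0 < x2)
    (hE : √(n : ℝ) * (2 * d + 3) + 2 * √(n : ℝ) / 3 + 11 / 2 + c ≤
      4 * ((a : ℝ) * ((b + 1 : ℕ) : ℝ) + x2) + 2 * c * e + (n : ℝ) / 2)
    (hS : 4 * ((a : ℝ) * ((b + 1 : ℕ) : ℝ)) + 2 * c * e + c + (n : ℝ) / 2 +
      2 * √(n : ℝ) / 3 + 3 / 2 < √(n : ℝ) * (2 * d + 3)) :
    Sgn (x2 • q4 (b + 1) + (x1 • r4 (b + 1) + c • {e})) d := by
  refine Sgn_dbl h0 ?_ ?_
  · have h1 := SurW4 (p := 0) (q := a) X (by omega) (by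
      push_cast at hS ⊢
      linarith)
    rw [zero_smul, zero_add] at h1
    have e1 : x2 • ({b + 1} : Multiset ℕ) + (x1 • r4 (b + 1) + c • {e}) =
        x1 • r4 (b + 1) + (x2 • {b + 1} + c • {e}) := by abel
    rw [e1]
    refine exMS (by omega) ?_
    have e2 : x1 • ({b + 1} : Multiset ℕ) + (x2 • {b + 1} + c • {e}) = a • {b + 1} + c • {e} := by
      rw [← hx, add_smul]
      abel
    rw [e2]
    exact h1
  · have h1 := EmpW4 (p := 0) (q := x1) (r := x2) X (by omega) (by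
      push_cast at hE ⊢
      linarith)
    rw [zero_smul, zero_add] at h1
    have e1 : x2 • ({b + 1 + 1} : Multiset ℕ) + (x1 • r4 (b + 1) + c • {e}) =
        x1 • r4 (b + 1) + (x2 • {b + 2} + c • {e}) := by abel
    rw [e1]
    refine Pool.Agent.TH2.NU.exM' (by omega) ?_
    have e2 : x1 • ({b + 1} : Multiset ℕ) + (x2 • {b + 2} + c • {e}) =
        x1 • {b + 1} + x2 • {b + 2} + c • {e} := by abel
    rw [e2]
    exact h1

/-- the inner step of case C -/
theorem inner4 {a c n e b d x0 x1 x2 p : ℕ} (X : Ctx a c n e b d) (hx : x0 + x1 + x2 = a)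
    (h2 : 0 < x2) (hp : p ≤ x0)
    (hS : 4 * ((a : ℝ) * ((b + 1 : ℕ) : ℝ) - p) + 2 * c * e + c + (n : ℝ) / 2 +
      2 * √(n : ℝ) / 3 + 3 / 2 < √(n : ℝ) * (2 * d + 3))
    (hE : √(n : ℝ) * (2 * d + 3) + 2 * √(n : ℝ) / 3 + 11 / 2 + c ≤
      4 * ((a : ℝ) * ((b + 1 : ℕ) : ℝ) - p + x2) + 2 * c * e + (n : ℝ) / 2) :
    Sgn (x2 • q4 (b + 1) + (p • {b} + ((x0 - p) • {b + 1} + (x1 • r4 (b + 1) + c • {e})))) d := by
  refine Sgn_dbl h2 ?_ ?_
  · have h1 := SurW4 (p := p) (q := a - p) X (by omega) hS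
    have e1 : x2 • ({b + 1} : Multiset ℕ) +
        (p • {b} + ((x0 - p) • {b + 1} + (x1 • r4 (b + 1) + c • {e}))) =
        x1 • r4 (b + 1) + (x2 • ({b + 1} : Multiset ℕ) + (p • {b} + (x0 - p) • {b + 1}) + c • {e}) := by
      abel
    rw [e1]
    refine exMS (by omega) ?_
    have e2 : x1 • ({b + 1} : Multiset ℕ) +
        (x2 • ({b + 1} : Multiset ℕ) + (p • {b} + (x0 - p) • {b + 1}) + c • {e}) =
        p • {b} + (a - p) • {b + 1} + c • {e} := by
      have e3 : a - p = x1 + x2 + (x0 - p) := by omega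
      rw [e3, add_smul, add_smul]
      abel
    rw [e2]
    exact h1
  · have h1 := EmpW4 (p := p) (q := x0 - p + x1) (r := x2) X (by omega) hE
    have e1 : x2 • ({b + 1 + 1} : Multiset ℕ) +
        (p • {b} + ((x0 - p) • {b + 1} + (x1 • r4 (b + 1) + c • {e}))) =
        x1 • r4 (b + 1) +
          (x2 • ({b + 1 + 1} : Multiset ℕ) + (p • {b} + (x0 - p) • {b + 1}) + c • {e}) := by
      abel
    rw [e1]
    refine Pool.Agent.TH2.NU.exM' (by omega) ?_
    have e2 : x1 • ({b + 1} : Multiset ℕ) + (x2 • ({b + 1 + 1} : Multiset ℕ) +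
        (p • {b} + (x0 - p) • {b + 1}) + c • {e}) =
        p • {b} + ((x0 - p + x1) • {b + 1} + x2 • {b + 2}) + c • {e} := by
      rw [add_smul]
      abel
    rw [e2]
    exact h1

/-- case C -/
theorem caseC4 {a c n e b d x0 x1 x2 : ℕ} (X : Ctx a c n e b d) (hx : x0 + x1 + x2 = a)
    (h0 : √(n : ℝ) / 3 + 9 ≤ x0) (h2 : √(n : ℝ) / 3 + 9 ≤ x2)
    (hcrit : |√(n : ℝ) * (2 * d + 3) - (4 * a * ((b + 1 : ℕ) : ℝ) + 2 * c * e + (n : ℝ) / 2 +
      (c : ℝ) / 2 + 2 * ((x2 : ℝ) - x0))| ≤ 2 * √(n : ℝ) / 3 + 9 / 4) :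
    Sgn (x0 • q4 b + (x1 • r4 (b + 1) + x2 • q4 (b + 1) + c • {e})) d := by
  have hs0 := Real.sqrt_nonneg (n : ℝ)
  have h0' : 0 < x0 := by
    have : (0 : ℝ) < x0 := by linarith
    exact_mod_cast this
  have h2' : 0 < x2 := by
    have : (0 : ℝ) < x2 := by linarith
    exact_mod_cast this
  have hB := X.hB
  have he2 := X.he2
  obtain ⟨p, hp, c1, c2, c3, c4⟩ := mid4 X.hn X.hc X.h200 X.hB X.he1 (by omega)
    (by omega : x0 + x2 ≤ a) h0 h2 hcrit
  have i1 := inner4 (p := p) X hx h2' (by omega) c3 (by push_cast at c4 ⊢; linarith)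
  have i2 := inner4 (p := p + 1) X hx h2' hp (by push_cast at c3 ⊢; linarith) (by
    push_cast at c4 ⊢; linarith)
  -- the conditions
  have hcond : ∀ p, p ≤ x0 → 2 * Pool.Agent.TH2.NU.condM (x2 • q4 (b + 1) + (p • {b} + ((x0 - p) • {b + 1} +
      (x1 • r4 (b + 1) + c • {e})))) + 2 * (p * (b + 1)) =
      2 * ((b + 1 + 1) / 2 * x2) + a * ((b + 1) * (b + 1 + 1)) + c * (e * (e + 1)) := by
    intro p hp
    obtain ⟨t, rfl⟩ := Nat.exists_eq_add_of_le hp
    rw [condM_add, condM_add, condM_add, condM_add, condM_smul, condM_smul, condM_smul, condM_smul,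
      condM_smul, condM_q4, condM_r4 (by omega), condM_single, condM_single, condM_single, ← hx,
      Nat.add_sub_cancel_left]
    have e1 := two_choose b
    have e2 := two_choose (b + 1)
    have e4 := two_choose e
    obtain ⟨h, hh⟩ : ∃ h, h = (b + 1 + 1) / 2 := ⟨_, rfl⟩
    rw [← hh]
    have e3 : 2 * (x2 * ((b + 1 + 1).choose 2 + h) + (p * (b + 1).choose 2 +
        (t * (b + 1 + 1).choose 2 + (x1 * (b + 1 + 1).choose 2 + c * (e + 1).choose 2)))) =
        x2 * (2 * (b + 1 + 1).choose 2) + 2 * (h * x2) +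
        p * (2 * (b + 1).choose 2) + t * (2 * (b + 1 + 1).choose 2) + x1 * (2 * (b + 1 + 1).choose 2) +
        c * (2 * (e + 1).choose 2) := by
      ring
    rw [e3, e1, e2, e4]
    ring
  have hk1 := hcond p (by omega)
  have hk2 := hcond (p + 1) hp
  have hd := Pool.Agent.TH2.NU.two_choose' d
  have s1 := i1.1 (by omega)
  have s2 := i2.2 (by omega)
  refine Sgn_dbl h0' ?_ ?_
  · have e1 : x2 • q4 (b + 1) + ((p + 1) • {b} + ((x0 - (p + 1)) • {b + 1} +
        (x1 • r4 (b + 1) + c • {e}))) =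
        (x0 - (p + 1)) • {b + 1} + (x2 • q4 (b + 1) + (p + 1) • {b} + x1 • r4 (b + 1) + c • {e}) := by
      abel
    rw [e1] at s2
    have s3 := s2.lower (Nat.le_succ b)
    have e2 : (x0 - (p + 1)) • ({b} : Multiset ℕ) +
        (x2 • q4 (b + 1) + (p + 1) • {b} + x1 • r4 (b + 1) + c • {e}) =
        x0 • {b} + (x1 • r4 (b + 1) + x2 • q4 (b + 1) + c • {e}) := by
      have e3 : x0 • ({b} : Multiset ℕ) = (x0 - (p + 1)) • {b} + (p + 1) • {b} := by
        rw [← add_smul, Nat.sub_add_cancel hp]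
      rw [e3]
      abel
    rw [e2] at s3
    exact s3
  · have e1 : x2 • q4 (b + 1) + (p • {b} + ((x0 - p) • {b + 1} + (x1 • r4 (b + 1) + c • {e}))) =
        p • {b} + (x2 • q4 (b + 1) + (x0 - p) • {b + 1} + x1 • r4 (b + 1) + c • {e}) := by abel
    rw [e1] at s1
    have s3 := Pool.Agent.TH2.NU.EmpM.raise (Nat.le_succ b) s1
    have e2 : p • ({b + 1} : Multiset ℕ) +
        (x2 • q4 (b + 1) + (x0 - p) • {b + 1} + x1 • r4 (b + 1) + c • {e}) =
        x0 • {b + 1} + (x1 • r4 (b + 1) + x2 • q4 (b + 1) + c • {e}) := by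
      have e3 : x0 • ({b + 1} : Multiset ℕ) = (x0 - p) • {b + 1} + p • {b + 1} := by
        rw [← add_smul, Nat.sub_add_cancel (by omega)]
      rw [e3]
      abel
    rw [e2] at s3
    exact s3

/-- the three cases together -/
theorem sgn_all4 {a c n e b d : ℕ} {δ : ℤ} (X : Ctx a c n e b d) (hδ : |δ| ≤ a)
    (hcrit : |√(n : ℝ) * (2 * d + 3) - (4 * a * ((b + 1 : ℕ) : ℝ) + 2 * c * e + (n : ℝ) / 2 +
      (c : ℝ) / 2 + 2 * (δ : ℝ))| ≤ 2 * √(n : ℝ) / 3 + 9 / 4) :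
    ∃ x0 x1 x2 : ℕ, x0 + x1 + x2 = a ∧ (x2 : ℤ) - x0 = δ ∧
      Sgn (x0 • q4 b + (x1 • r4 (b + 1) + x2 • q4 (b + 1) + c • {e})) d := by
  have hs0 := Real.sqrt_nonneg (n : ℝ)
  have hn' : (200 : ℝ) ≤ n := by exact_mod_cast X.h200
  have hn4 : (n : ℝ) = 4 * a + c := by rw [X.hn]; push_cast; ring
  have hc0 : (0 : ℝ) ≤ c := Nat.cast_nonneg c
  have hc5 : (c : ℝ) ≤ 5 := by exact_mod_cast X.hc
  obtain ⟨s, hs⟩ : ∃ s, s = √(n : ℝ) := ⟨_, rfl⟩
  have hss : s * s = n := by rw [hs]; exact Real.mul_self_sqrt (by linarith)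
  have hs14 : 14.14 ≤ s := by rw [hs]; exact Real.le_sqrt_of_sq_le (by norm_num; linarith)
  have hcrit' := abs_le.1 hcrit
  rw [← hs] at hcrit'
  rw [abs_le] at hδ
  rcases le_or_gt ((δ : ℝ)) (-(2 * s / 3 + 8)) with h1 | h1
  · -- case A
    obtain ⟨x0, hx0⟩ : ∃ x0 : ℕ, (x0 : ℤ) = -δ := ⟨(-δ).toNat, by
      have : (δ : ℝ) ≤ 0 := by linarith
      have : δ ≤ 0 := by exact_mod_cast this
      omega⟩
    have hxR : (x0 : ℝ) = -δ := by exact_mod_cast hx0
    refine ⟨x0, a - x0, 0, by omega, by omega, ?_⟩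
    rw [zero_smul, add_zero]
    have h0 : 0 < x0 := by
      have : (0 : ℝ) < x0 := by rw [hxR]; linarith
      exact_mod_cast this
    refine caseA4 X (by omega) h0 ?_ ?_
    · rw [← hs]
      push_cast at hcrit' ⊢
      linarith [hcrit'.2]
    · rw [← hs]
      push_cast at hcrit' ⊢
      linarith [hcrit'.1]
  rcases le_or_gt (2 * s / 3 + 8) ((δ : ℝ)) with h2 | h2
  · -- case B
    obtain ⟨x2, hx2⟩ : ∃ x2 : ℕ, (x2 : ℤ) = δ := ⟨δ.toNat, by
      have : 0 ≤ (δ : ℝ) := by linarith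
      have : 0 ≤ δ := by exact_mod_cast this
      omega⟩
    have hxR : (x2 : ℝ) = δ := by exact_mod_cast hx2
    refine ⟨0, a - x2, x2, by omega, by omega, ?_⟩
    have h0 : 0 < x2 := by
      have : (0 : ℝ) < x2 := by rw [hxR]; linarith
      exact_mod_cast this
    have h3 := caseB4 (x1 := a - x2) X (by omega) h0 (by
      rw [← hs]
      push_cast at hcrit' ⊢
      linarith [hcrit'.2]) (by
      rw [← hs]
      push_cast at hcrit' ⊢
      linarith [hcrit'.1])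
    have e1 : 0 • q4 b + ((a - x2) • r4 (b + 1) + x2 • q4 (b + 1) + c • {e}) =
        x2 • q4 (b + 1) + ((a - x2) • r4 (b + 1) + c • {e}) := by
      rw [zero_smul]
      abel
    rw [e1]
    exact h3
  · -- case C
    obtain ⟨k, hk⟩ : ∃ k : ℕ, k = ⌈s / 3 + 9⌉₊ := ⟨_, rfl⟩
    have hk1 : s / 3 + 9 ≤ k := by rw [hk]; exact Nat.le_ceil _
    have hk2 : (k : ℝ) < s / 3 + 9 + 1 := by rw [hk]; exact Nat.ceil_lt_add_one (by positivity)
    have hroom : 4 * s / 3 + 28 ≤ a := by nlinarith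
    obtain ⟨x0, hx0⟩ : ∃ x0 : ℕ, (x0 : ℤ) = k + max (-δ) 0 := ⟨k + (-δ).toNat, by omega⟩
    obtain ⟨x2, hx2⟩ : ∃ x2 : ℕ, (x2 : ℤ) = k + max δ 0 := ⟨k + δ.toNat, by omega⟩
    have hsum : x0 + x2 ≤ a := by
      rcases le_total 0 δ with h | h
      · have e1 : (x0 : ℤ) + x2 = 2 * k + δ := by omega
        have e2 : (x0 : ℝ) + x2 = 2 * k + δ := by exact_mod_cast e1
        have : (x0 : ℝ) + x2 ≤ a := by rw [e2]; linarith
        exact_mod_cast this
      · have e1 : (x0 : ℤ) + x2 = 2 * k + -δ := by omega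
        have e2 : (x0 : ℝ) + x2 = 2 * k + -δ := by exact_mod_cast e1
        have : (x0 : ℝ) + x2 ≤ a := by rw [e2]; linarith
        exact_mod_cast this
    refine ⟨x0, a - (x0 + x2), x2, by omega, by omega, ?_⟩
    have hx0R : (k : ℝ) ≤ x0 := by
      have : (k : ℤ) ≤ x0 := by omega
      exact_mod_cast this
    have hx2R : (k : ℝ) ≤ x2 := by
      have : (k : ℤ) ≤ x2 := by omega
      exact_mod_cast this
    have hdiff : (x2 : ℝ) - x0 = δ := by
      have : (x2 : ℤ) - x0 = δ := by omega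
      exact_mod_cast this
    refine caseC4 X (by omega) ?_ ?_ ?_
    · rw [← hs]; linarith
    · rw [← hs]; linarith
    · rw [hdiff]; exact hcrit

end Pool.Agent.Run7.h866.NU
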