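import Pool.Agent.Run7.h866.NU.Tri

/-! The two ends for `a` points of multiplicities `v` and `c` points of multiplicity `e`. -/

set_option autoImplicit false

namespace Pool.Agent.Run7.h866.NU

open Finset Pool.Agent.TH176.Nag Pool.Agent.TH603.Sur Pool.Agent.TH603.Cut Pool.Agent.TH181.NagM
open Pool.Agent.TH648.SH Pool.Agent.TH760.EN Filter Topology

theorem Emp_RegU4 {ι : Type} [Fintype ι] {v : ι → ℕ} {a c e : ℕ} (ha : Fintype.card ι = a)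
    (hac : 1 ≤ 4 * a + c) (h : HE c) {α β ν : ℝ} (hν : 4 * ν = 4 * a + c)
    (hβ : β - α < ((∑ i, v i : ℕ) : ℝ) + (c : ℝ) * e / 2) :
    Emp (mx v c e) (Reg α β 0 ν) := by
  refine (Emp_U4 ha hac rfl (h e)).comap 1 0 0 1 (-⌈α⌉) 0 (by norm_num) ?_
  rintro ⟨x, y⟩ ⟨h1, h2, h3⟩
  simp only [zero_mul, add_zero] at h1 h2 h3
  have h4 : ⌈α⌉ ≤ x := Int.ceil_le.2 h2
  refine ⟨by simp only; linarith, by simp only; linarith, ?_⟩
  simp only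
  have h5 := Int.le_ceil α
  have h6 : ((4 * (1 * x + 0 * y + -⌈α⌉) + (4 * (a : ℤ) + c) * (0 * x + 1 * y + 0) : ℤ) : ℝ) <
      ((4 * ((∑ i, v i : ℕ) : ℤ) + 2 * (c : ℤ) * e : ℤ) : ℝ) := by
    push_cast at hβ ⊢
    have h7 : (4 * (a : ℝ) + c) * y = 4 * (ν * y) := by rw [← hν]; ring
    nlinarith
  exact_mod_cast h6

/-- **the emptiness end** -/
theorem Emp_end {ι : Type} [Fintype ι] {v : ι → ℕ} {a c n e d : ℕ} (ha : Fintype.card ι = a)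
    (hn : n = 4 * a + c) (hn36 : 36 ≤ n) (h : HE c)
    (hlt : √(n : ℝ) * d < 2 * ((∑ i, v i : ℕ) : ℝ) + c * e) : Emp (mx v c e) (TZ d) := by
  have hnR : (36 : ℝ) ≤ n := by exact_mod_cast hn36
  have hn4 : (n : ℝ) = 4 * a + c := by rw [hn]; push_cast; ring
  obtain ⟨s, hs⟩ : ∃ s : ℝ, s = √(n : ℝ) := ⟨_, rfl⟩
  have hs2 : s * s = n := by rw [hs]; exact Real.mul_self_sqrt (by linarith)
  have hs6 : 6 ≤ s := by
    rw [hs]
    exact Real.le_sqrt_of_sq_le (by linarith)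
  rw [← hs] at hlt
  have hs0 : 0 < s := by linarith
  obtain ⟨V, hV⟩ : ∃ V : ℝ, V = ((∑ i, v i : ℕ) : ℝ) := ⟨_, rfl⟩
  rw [← hV] at hlt
  obtain ⟨r, hr⟩ : ∃ r : ℝ, r = s / 2 := ⟨_, rfl⟩
  have hr3 : 3 ≤ r := by linarith
  have hr0 : 0 < r := by linarith
  have hr2 : 4 * r ^ 2 = 4 * a + c := by rw [hr, ← hn4, ← hs2]; ring
  obtain ⟨c', hc1, hc2⟩ : ∃ c' : ℝ, (d : ℝ) < c' ∧ c' < (2 * V + c * e) / s := by
    apply _root_.exists_between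
    rw [lt_div_iff₀ hs0]
    linarith
  rw [lt_div_iff₀ hs0] at hc2
  have hd0 : (0 : ℝ) ≤ d := Nat.cast_nonneg d
  have hEP : EP (mx v c e) c' 0 (r ^ 2) := by
    refine ⟨by positivity, fun E hE0 hE α => ?_⟩
    rw [zero_add, Real.sqrt_sq hr0.le]
    refine Emp_RegU4 ha (by omega) h hr2 ?_
    rw [← hV]
    have h1 : E * r < c' * r := mul_lt_mul_of_pos_right hE hr0
    have h2 : c' * r = c' * s / 2 := by rw [hr]; ring
    linarith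
  obtain ⟨k, τ, hk, h0, h1⟩ := exists_tau r
  have h2 := (Mv_tau hr3 k hk).closed EP_closed hEP
  apply Pool.Agent.TH603.EL.Emp_key h0 h1
  rcases Nat.eq_zero_or_pos d with hd | hd
  · subst hd
    obtain ⟨c2, hc1', hc2'⟩ : ∃ c2 : ℝ, 0 < c2 ∧ c2 < c'
      := _root_.exists_between (by simpa using hc1)
    have h3 := h2.2 c2 hc1' hc2' 0
    refine h3.mono ?_
    rintro m' ⟨k1, k2, k3⟩
    refine ⟨k1, ?_, ?_⟩
    · simpa using k2
    · have : 0 ≤ c2 * √(3 * (1 + τ) + 3 * (2 - τ)) := by positivity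
      simp only [Nat.cast_zero, zero_mul] at k3
      linarith
  · have hd' : (0 : ℝ) < d := by exact_mod_cast hd
    have h3 := h2.2 d hd' hc1 (-((d : ℝ) * (1 + τ)))
    have e1 : 3 * (1 + τ) + 3 * (2 - τ) = (3 : ℝ) ^ 2 := by ring
    rw [e1, Real.sqrt_sq (by norm_num)] at h3
    have e2 : -((d : ℝ) * (1 + τ)) + d * 3 = d * (2 - τ) := by ring
    rw [e2] at h3
    exact h3

/-- the right triangle of real slope `s ^ 2` slightly larger than `n / 4` -/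
theorem Sur_regO4 {ι : Type} [Fintype ι] {v : ι → ℕ} {a c b e : ℕ} (ha : Fintype.card ι = a)
    (hb : ∀ i, v i ≤ b + 1) (hbe : b ≤ 2 * e + 1) (heb : 2 * e ≤ b + 1) (h : HS c) {s α B : ℝ}
    (hs : a + (c : ℝ) / 4 ≤ s ^ 2)
    (hB : ((∑ i, max (v i) b : ℕ) : ℝ) + (c : ℝ) * e / 2 + a + (c : ℝ) / 2 +
      (b + 1) * (s ^ 2 - (a + (c : ℝ) / 4)) < B) :
    Sur (mx v c e) (RegO α (α + B) 0 (s ^ 2)) := by
  refine (Sur_R4 ha hb rfl hbe heb h).shift (-(⌊α⌋ + 1)) (-1) ?_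
  rintro ⟨x, y⟩ ⟨k1, k2, k3, k4⟩
  simp only at k1 k2 k3 k4
  have k1' : (0 : ℝ) ≤ x := by exact_mod_cast k1
  have k2' : (0 : ℝ) ≤ y := by exact_mod_cast k2
  have k3' : (y : ℝ) ≤ b := by exact_mod_cast k3
  have k4' : ((4 * x + (4 * (a : ℤ) + c) * y + 4 : ℤ) : ℝ) ≤
      ((4 * ((∑ i, max (v i) b : ℕ) : ℤ) + 2 * (c : ℤ) * e + c : ℤ) : ℝ) := by exact_mod_cast k4
  push_cast at k4' hB
  have f1 := Int.floor_le α
  have f2 := Int.lt_floor_add_one α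
  refine ⟨by simp only; omega, ?_, ?_⟩
  · simp only
    push_cast
    linarith
  · simp only
    push_cast
    have k5 : (s ^ 2 - (a + (c : ℝ) / 4)) * (y + 1) ≤ (s ^ 2 - (a + (c : ℝ) / 4)) * (b + 1) :=
      mul_le_mul_of_nonneg_left (by linarith) (by linarith)
    linarith

theorem Sur_irr4 {ι : Type} [Fintype ι] {v : ι → ℕ} {a c b e : ℕ} (ha : Fintype.card ι = a)
    (hb : ∀ i, v i ≤ b + 1) (hbe : b ≤ 2 * e + 1) (heb : 2 * e ≤ b + 1) (h : HS c) (d : ℕ) {r : ℝ}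
    (hr : 3 ≤ r) (hirr : Irrational r) (hs : a + (c : ℝ) / 4 ≤ r ^ 2)
    (hB : ((∑ i, max (v i) b : ℕ) : ℝ) + (c : ℝ) * e / 2 + a + (c : ℝ) / 2 +
      (b + 1) * (r ^ 2 - (a + (c : ℝ) / 4)) < r * (d + 3)) :
    Sur (mx v c e) (TZ d) := by
  have hr0 : 0 < r := by linarith
  obtain ⟨L, hL⟩ : ∃ L : ℝ, L = ((∑ i, max (v i) b : ℕ) : ℝ) + (c : ℝ) * e / 2 + a + (c : ℝ) / 2 +
      (b + 1) * (r ^ 2 - (a + (c : ℝ) / 4)) := ⟨_, rfl⟩
  rw [← hL] at hB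
  have hL0 : 0 ≤ L := by
    have h1 : 0 ≤ r ^ 2 - (a + (c : ℝ) / 4) := by linarith
    rw [hL]
    positivity
  have hc0 : 0 ≤ L / r := by positivity
  have hcd : L / r < d + 3 := by
    rw [div_lt_iff₀ hr0]
    linarith
  have hSP : SP (mx v c e) (L / r) 0 (r ^ 2) := by
    refine ⟨by positivity, fun E hE α => ?_⟩
    rw [zero_add, Real.sqrt_sq hr0.le]
    apply Sur_regO4 ha hb hbe heb h hs
    rw [← hL]
    rwa [div_lt_iff₀ hr0] at hE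
  obtain ⟨k, τ, hk, h0, h1⟩ := exists_tau r
  have h2 := (Mv_tau hr k hk).closed (SP_closed hc0) hSP
  have h3 := h2.2 ((d : ℝ) + 3) hcd (-(((d : ℝ) + 3) * (1 + τ)))
  have e1 : 3 * (1 + τ) + 3 * (2 - τ) = (3 : ℝ) ^ 2 := by ring
  rw [e1, Real.sqrt_sq (by norm_num)] at h3
  have e2 : -(((d : ℝ) + 3) * (1 + τ)) + ((d : ℝ) + 3) * 3 = ((d : ℝ) + 3) * (2 - τ) := by ring
  rw [e2] at h3
  refine Sur_keyO h0 h1 ?_ h3
  intro hq
  obtain ⟨q, hq⟩ := hq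
  apply hirr
  refine ⟨(k + 3 * q) / 3, ?_⟩
  push_cast
  rw [hq]
  linarith

/-- **the independence end** -/
theorem Sur_end {ι : Type} [Fintype ι] {v : ι → ℕ} {a c n b e d : ℕ} (ha : Fintype.card ι = a)
    (hn : n = 4 * a + c) (hn36 : 36 ≤ n) (h : HS c)
    (hb : ∀ i, v i ≤ b + 1) (hbe : b ≤ 2 * e + 1) (heb : 2 * e ≤ b + 1)
    (hd : 2 * ((∑ i, max (v i) b : ℕ) : ℝ) + c * e + 2 * a + c < √(n : ℝ) * (d + 3)) :
    Sur (mx v c e) (TZ d) := by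
  have hn' : (n : ℝ) = 4 * a + c := by rw [hn]; push_cast; ring
  have hn36' : (36 : ℝ) ≤ n := by exact_mod_cast hn36
  obtain ⟨V, hV⟩ : ∃ V : ℝ, V = ((∑ i, max (v i) b : ℕ) : ℝ) := ⟨_, rfl⟩
  rw [← hV] at hd
  obtain ⟨r₀, hr₀⟩ : ∃ r₀ : ℝ, r₀ = √(n : ℝ) / 2 := ⟨_, rfl⟩
  have hsq : √(n : ℝ) ^ 2 = n := Real.sq_sqrt (by linarith)
  have hr₀2 : r₀ ^ 2 = a + (c : ℝ) / 4 := by
    rw [hr₀, div_pow, hsq, hn']; ring
  have hr₀3 : 3 ≤ r₀ := by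
    have h1 : (6 : ℝ) ≤ √(n : ℝ) := by
      apply Real.le_sqrt_of_sq_le
      linarith
    rw [hr₀]; linarith
  -- a slightly larger slope
  have hcont : Filter.Tendsto (fun s : ℝ => s * ((d : ℝ) + 3) -
      (V + (c : ℝ) * e / 2 + a + (c : ℝ) / 2 + (b + 1) * (s ^ 2 - (a + (c : ℝ) / 4)))) (𝓝 r₀)
      (𝓝 (r₀ * ((d : ℝ) + 3) -
        (V + (c : ℝ) * e / 2 + a + (c : ℝ) / 2 + (b + 1) * (r₀ ^ 2 - (a + (c : ℝ) / 4))))) := by
    apply Continuous.tendsto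
    fun_prop
  have hpos : 0 < r₀ * ((d : ℝ) + 3) -
        (V + (c : ℝ) * e / 2 + a + (c : ℝ) / 2 + (b + 1) * (r₀ ^ 2 - (a + (c : ℝ) / 4))) := by
    rw [hr₀2, hr₀]
    have e0 : (a + (c : ℝ) / 4) - (a + (c : ℝ) / 4) = 0 := sub_self _
    rw [e0, mul_zero, add_zero]
    linarith
  have hev := hcont.eventually (Ioi_mem_nhds hpos)
  obtain ⟨ε, hε, hball⟩ := Metric.eventually_nhds_iff.1 hev
  obtain ⟨s, hs, hs1, hs2⟩ := exists_irrational_btwn (show r₀ < r₀ + ε by linarith)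
  have h2 := hball (y := s) (by rw [Real.dist_eq, abs_of_pos (by linarith)]; linarith)
  have h2' : 0 < s * ((d : ℝ) + 3) -
      (V + (c : ℝ) * e / 2 + a + (c : ℝ) / 2 + (b + 1) * (s ^ 2 - (a + (c : ℝ) / 4))) := h2
  refine Sur_irr4 ha hb hbe heb h d (by linarith) hs ?_ (by rw [← hV]; linarith)
  rw [← hr₀2]
  exact pow_le_pow_left₀ (by linarith) hs1.le 2

end Pool.Agent.Run7.h866.NU
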