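import Pool.Agent.TH941.MR.Gen

/-! Simple infinitely near points in the first neighbourhoods of near-uniform points (helper866). -/

set_option autoImplicit false

namespace Pool.Agent.Run7.h866.NU.IN

open MvPolynomial Pool.Agent.TH941.MR

variable {k : Type} [Field k]

/-- evaluation of polynomial-valued functionals -/
noncomputable def ev {V σ ι : Type} [AddCommGroup V] [Module k V]
    (Φ : ι → V →ₗ[k] MvPolynomial σ k) (t : σ → k) : V →ₗ[k] (ι → k) :=
  LinearMap.pi fun s => (aeval t : MvPolynomial σ k →ₐ[k] k).toLinearMap ∘ₗ Φ s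

theorem open_ker {V σ ι : Type} [AddCommGroup V] [Module k V] [FiniteDimensional k V] [Finite ι]
    (Φ : ι → V →ₗ[k] MvPolynomial σ k) (t0 : σ → k) :
    ∃ H : MvPolynomial σ k, H ≠ 0 ∧ ∀ t, eval t H ≠ 0 →
      Module.finrank k (LinearMap.ker (ev Φ t)) ≤ Module.finrank k (LinearMap.ker (ev Φ t0)) := by
  classical
  have := Fintype.ofFinite ι
  obtain ⟨U, hU⟩ := Submodule.exists_isCompl (LinearMap.ker (ev Φ t0))
  have hinj : LinearMap.ker ((ev Φ t0).domRestrict U) = ⊥ := by
    rw [LinearMap.ker_eq_bot']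
    intro u hu
    have h1 : (u : V) ∈ LinearMap.ker (ev Φ t0) ⊓ U := ⟨hu, u.2⟩
    rw [hU.inf_eq_bot] at h1
    exact Subtype.ext h1
  obtain ⟨g, hg⟩ := ((ev Φ t0).domRestrict U).exists_leftInverse_of_injective hinj
  let b := Module.finBasis k U
  let M : Matrix (Fin (Module.finrank k U)) (Fin (Module.finrank k U)) (MvPolynomial σ k) :=
    fun i j => ∑ s, C (b.repr (g (Pi.single s 1)) i) * Φ s (b j)
  have hM : ∀ t, M.map (eval t) = LinearMap.toMatrix b b (g ∘ₗ (ev Φ t).domRestrict U) := by
    intro t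
    ext i j
    rw [Matrix.map_apply, LinearMap.toMatrix_apply]
    have h1 : (ev Φ t).domRestrict U (b j) = ∑ s, (eval t (Φ s (b j))) • (Pi.single s 1 : ι → k) := by
      ext s
      rw [Finset.sum_apply]
      simp [ev, Pi.single_apply, aeval_eq_eval]
    rw [LinearMap.comp_apply, h1, map_sum (eval t), map_sum g, map_sum b.repr, Finsupp.finsetSum_apply]
    refine Finset.sum_congr rfl fun s _ => ?_
    rw [map_smul, map_smul, Finsupp.smul_apply, smul_eq_mul, map_mul, eval_C, mul_comm]
  refine ⟨M.det, ?_, ?_⟩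
  · intro h0
    have h1 : eval t0 M.det = 0 := by rw [h0, map_zero]
    rw [RingHom.map_det, RingHom.mapMatrix_apply, hM, hg, LinearMap.toMatrix_id,
      Matrix.det_one] at h1
    exact one_ne_zero h1
  · intro t ht
    rw [RingHom.map_det, RingHom.mapMatrix_apply, hM, LinearMap.det_toMatrix] at ht
    have h2 : Function.Injective (g ∘ₗ (ev Φ t).domRestrict U) :=
      (LinearMap.equivOfDetNeZero _ ht).injective
    have h3 : Disjoint (LinearMap.ker (ev Φ t)) U := by
      rw [Submodule.disjoint_def]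
      intro x hx hxU
      have h4 : (g ∘ₗ (ev Φ t).domRestrict U) ⟨x, hxU⟩ = 0 := by
        rw [LinearMap.comp_apply]
        have : (ev Φ t).domRestrict U ⟨x, hxU⟩ = 0 := hx
        rw [this, map_zero]
      have h5 := h2 (h4.trans (map_zero _).symm)
      exact congrArg Subtype.val h5
    have h6 := Submodule.finrank_add_finrank_le_of_disjoint h3
    have h7 := Submodule.finrank_add_eq_of_isCompl hU
    omega

theorem dim_ge {V σ ι : Type} [AddCommGroup V] [Module k V] [FiniteDimensional k V] [Fintype ι]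
    (Φ : ι → V →ₗ[k] MvPolynomial σ k) (t : σ → k) :
    Module.finrank k V ≤ Module.finrank k (LinearMap.ker (ev Φ t)) + Fintype.card ι := by
  have h1 := LinearMap.finrank_range_add_finrank_ker (ev Φ t)
  have h2 := Submodule.finrank_le (LinearMap.range (ev Φ t))
  rw [Module.finrank_fintype_fun_eq_card] at h2
  omega

theorem surj_iff {V σ ι : Type} [AddCommGroup V] [Module k V] [FiniteDimensional k V] [Fintype ι]
    (Φ : ι → V →ₗ[k] MvPolynomial σ k) (t : σ → k) :
    Function.Surjective (ev Φ t) ↔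
      Module.finrank k V = Module.finrank k (LinearMap.ker (ev Φ t)) + Fintype.card ι := by
  have h1 := LinearMap.finrank_range_add_finrank_ker (ev Φ t)
  have h3 : Module.finrank k (ι → k) = Fintype.card ι := Module.finrank_fintype_fun_eq_card k
  rw [← LinearMap.range_eq_top]
  constructor
  · intro h
    rw [h, finrank_top] at h1
    omega
  · intro h
    apply Submodule.eq_top_of_finrank_eq
    omega

/-- a nonzero binary form does not vanish at some direction `(1 : τ)` -/
theorem exists_dir [Infinite k] {m : ℕ} {G : MvPolynomial (Fin 2) k} (hG : G.IsHomogeneous m)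
    (h0 : G ≠ 0) : ∃ τ : k, aeval ![1, τ] G ≠ 0 := by
  have h1 : G * X 0 ≠ 0 := mul_ne_zero h0 (X_ne_zero _)
  obtain ⟨x, hx⟩ : ∃ x : Fin 2 → k, eval x (G * X 0) ≠ 0 := by
    by_contra hcon
    push Not at hcon
    exact h1 (MvPolynomial.funext fun x => by rw [hcon x, map_zero])
  rw [map_mul, eval_X] at hx
  have hx0 : x 0 ≠ 0 := right_ne_zero_of_mul hx
  have hxG : eval x G ≠ 0 := left_ne_zero_of_mul hx
  refine ⟨x 1 / x 0, fun hcon => hxG ?_⟩
  have h2 : x = fun i => x 0 * (![1, x 1 / x 0] : Fin 2 → k) i := by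
    ext i
    fin_cases i
    · simp
    · simp
      field_simp
  have h3 : eval (fun i => x 0 * (![1, x 1 / x 0] : Fin 2 → k) i) G =
      x 0 ^ m * eval (![1, x 1 / x 0] : Fin 2 → k) G := by
    rw [eval_eq, eval_eq, Finset.mul_sum]
    refine Finset.sum_congr rfl fun s hs => ?_
    have h4 := hG (mem_support_iff.1 hs)
    rw [Finsupp.weight_apply, Finsupp.sum_fintype _ _ (by simp)] at h4
    simp only [Pi.one_apply, smul_eq_mul, mul_one] at h4
    simp only [mul_pow]
    rw [Finset.prod_mul_distrib, ← h4]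
    have h5 : ∏ i ∈ s.support, x 0 ^ s i = x 0 ^ (∑ i, s i) := by
      rw [Finset.prod_pow_eq_pow_sum]
      congr 1
      exact Finset.sum_subset (Finset.subset_univ _) fun i _ hi => by
        simpa using hi
    rw [h5]
    ring
  rw [h2, h3]
  rw [aeval_eq_eval] at hcon
  have h6 : eval (![1, x 1 / x 0] : Fin 2 → k) G = 0 := hcon
  rw [h6, mul_zero]

/-- the value at the direction `(1 : τ)` of the term of degree `a` of the local equation at `p` -/
noncomputable def val (p : Fin 2 → k) (a : ℕ) (τ : k) : MvPolynomial (Fin 3) k →ₗ[k] k :=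
  (aeval ![1, τ] : MvPolynomial (Fin 2) k →ₐ[k] k).toLinearMap ∘ₗ (homogeneousComponent a) ∘ₗ
    (loc p).toLinearMap

theorem val_apply (p : Fin 2 → k) (a : ℕ) (τ : k) (F : MvPolynomial (Fin 3) k) :
    val p a τ F = aeval ![1, τ] (homogeneousComponent a (loc p F)) := rfl

/-- The forms in `forms P d w` through the simple points with direction `t s` in the first
neighbourhoods of the points `P (c s)`, for `s ∈ A`. -/
noncomputable def sys {n : ℕ} {ι : Type} (P : Fin n → Fin 2 → k) (d : ℕ) (w : Fin n → ℕ)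
    (c : ι → Fin n) (t : ι → k) (A : Finset ι) : Submodule k (MvPolynomial (Fin 3) k) :=
  forms P d w ⊓ ⨅ s ∈ A, LinearMap.ker (val (P (c s)) (w (c s)) (t s))

theorem mem_sys {n : ℕ} {ι : Type} {P : Fin n → Fin 2 → k} {d : ℕ} {w : Fin n → ℕ}
    {c : ι → Fin n} {t : ι → k} {A : Finset ι} {F : MvPolynomial (Fin 3) k} :
    F ∈ sys P d w c t A ↔ F ∈ forms P d w ∧ ∀ s ∈ A, val (P (c s)) (w (c s)) (t s) F = 0 := by
  unfold sys
  rw [Submodule.mem_inf, Submodule.mem_iInf]
  refine and_congr_right fun _ => forall_congr' fun s => ?_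
  rw [Submodule.mem_iInf]
  exact forall_congr' fun _ => Iff.rfl

/-- the polynomial functionals -/
noncomputable def Phi {n : ℕ} {ι : Type} (P : Fin n → Fin 2 → k) (d : ℕ) (w : Fin n → ℕ)
    (c : ι → Fin n) (A : Finset ι) (s : A) : forms P d w →ₗ[k] MvPolynomial ι k :=
  (aeval ![1, X (s : ι)] : MvPolynomial (Fin 2) k →ₐ[k] MvPolynomial ι k).toLinearMap ∘ₗ
    (homogeneousComponent (w (c s))) ∘ₗ (loc (P (c s))).toLinearMap ∘ₗ (forms P d w).subtype

theorem ev_Phi {n : ℕ} {ι : Type} (P : Fin n → Fin 2 → k) (d : ℕ) (w : Fin n → ℕ)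
    (c : ι → Fin n) (A : Finset ι) (t : ι → k) (F : forms P d w) (s : A) :
    ev (Phi P d w c A) t F s = val (P (c s)) (w (c s)) (t s) (F : MvPolynomial (Fin 3) k) := by
  have h1 : ((aeval t : MvPolynomial ι k →ₐ[k] k).comp
      (aeval ![1, X (s : ι)] : MvPolynomial (Fin 2) k →ₐ[k] MvPolynomial ι k)) =
      aeval ![1, t s] := by
    apply MvPolynomial.algHom_ext
    intro i
    fin_cases i
    · simp
    · simp
  have h2 := DFunLike.congr_fun h1 (homogeneousComponent (w (c s)) (loc (P (c s)) F))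
  exact h2

theorem finDim_forms {n : ℕ} (P : Fin n → Fin 2 → k) (d : ℕ) (w : Fin n → ℕ) :
    Module.Finite k (forms P d w) := by
  have hfin3 : Module.Finite k (homogeneousSubmodule (Fin 3) k d) :=
    Module.Finite.iff_fg.2 (homogeneousSubmodule_fg (Fin 3) k d)
  exact Submodule.finiteDimensional_of_le (inf_le_left : forms P d w ≤ _)

theorem sys_eq {n : ℕ} {ι : Type} (P : Fin n → Fin 2 → k) (d : ℕ) (w : Fin n → ℕ)
    (c : ι → Fin n) (t : ι → k) (A : Finset ι) :
    sys P d w c t A = (LinearMap.ker (ev (Phi P d w c A) t)).map (forms P d w).subtype := by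
  ext F
  rw [mem_sys]
  constructor
  · rintro ⟨hF, h⟩
    refine ⟨⟨F, hF⟩, ?_, rfl⟩
    rw [SetLike.mem_coe, LinearMap.mem_ker]
    ext s
    rw [ev_Phi]
    exact h s s.2
  · rintro ⟨F, hF, rfl⟩
    refine ⟨F.2, fun s hs => ?_⟩
    have h1 := congrFun (LinearMap.mem_ker.1 hF) ⟨s, hs⟩
    rw [ev_Phi] at h1
    exact h1

theorem finrank_sys {n : ℕ} {ι : Type} (P : Fin n → Fin 2 → k) (d : ℕ) (w : Fin n → ℕ)
    (c : ι → Fin n) (t : ι → k) (A : Finset ι) :
    Module.finrank k (sys P d w c t A) =
      Module.finrank k (LinearMap.ker (ev (Phi P d w c A) t)) := by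
  rw [sys_eq, Submodule.finrank_map_subtype_eq]

theorem sys_ge {n : ℕ} {ι : Type} (P : Fin n → Fin 2 → k) (d : ℕ) (w : Fin n → ℕ)
    (c : ι → Fin n) (t : ι → k) (A : Finset ι) :
    Module.finrank k (forms P d w) - A.card ≤ Module.finrank k (sys P d w c t A) := by
  have := finDim_forms P d w
  have h := dim_ge (Phi P d w c A) t
  rw [← finrank_sys, Fintype.card_coe] at h
  omega

theorem sum_update {n : ℕ} (w : Fin n → ℕ) (j : Fin n) :
    ∑ i, (Function.update w j (w j + 1) i + 1).choose 2 =
      (w j + 1) + ∑ i, (w i + 1).choose 2 := by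
  rw [← Finset.add_sum_erase _ _ (Finset.mem_univ j),
    ← Finset.add_sum_erase Finset.univ (fun i => (w i + 1).choose 2) (Finset.mem_univ j)]
  rw [Function.update_self, Nat.choose_succ_succ (w j + 1) 1, Nat.choose_one_right]
  have : ∑ x ∈ Finset.univ.erase j, (Function.update w j (w j + 1) x + 1).choose 2 =
      ∑ x ∈ Finset.univ.erase j, (w x + 1).choose 2 :=
    Finset.sum_congr rfl fun x hx => by rw [Function.update_of_ne (Finset.ne_of_mem_erase hx)]
  rw [this]
  simp only [Nat.succ_eq_add_one, Nat.reduceAdd]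
  omega

/-- one degree -/
theorem one_degree [Infinite k] {n m : ℕ} {ι : Type} {P : Fin n → Fin 2 → k} {d : ℕ}
    (hP : ∀ w : Fin n → ℕ, (∀ i, w i = m ∨ w i = m + 1) →
      Module.finrank k ↥(forms P d w) = (d + 2).choose 2 - ∑ i, (w i + 1).choose 2)
    (c : ι → Fin n) (A : Finset ι) :
    ∀ w : Fin n → ℕ, (∀ i, w i = m ∨ w i = m + 1) → (∀ s ∈ A, w (c s) = m) →
      (∀ i, (A.filter fun s => c s = i).card ≤ m + 1) →
      ∃ H : MvPolynomial ι k, H ≠ 0 ∧ ∀ t : ι → k, eval t H ≠ 0 →
        Module.finrank k (sys P d w c t A) = Module.finrank k (forms P d w) - A.card := by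
  classical
  induction A using Finset.strongInduction with
  | H A IH =>
  intro w hw hA hcard
  rcases A.eq_empty_or_nonempty with rfl | ⟨s0, hs0⟩
  · refine ⟨1, one_ne_zero, fun t _ => ?_⟩
    have : sys P d w c t ∅ = forms P d w := by
      ext F
      rw [mem_sys]
      simp
    rw [this, Finset.card_empty, Nat.sub_zero]
  set i := c s0 with hi
  have hwi : w i = m := hA s0 hs0
  -- the two smaller systems
  obtain ⟨H1, hH1, h1⟩ := IH (A.erase s0) (Finset.erase_ssubset hs0) w hw
    (fun s hs => hA s (Finset.mem_of_mem_erase hs))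
    (fun j => (Finset.card_le_card (Finset.filter_subset_filter _ (Finset.erase_subset _ _))).trans
      (hcard j))
  have hA2 : A.filter (fun s => c s ≠ i) ⊂ A := by
    refine (Finset.filter_ssubset).2 ⟨s0, hs0, ?_⟩
    simp [hi]
  have hw2 : ∀ j, Function.update w i (w i + 1) j = m ∨ Function.update w i (w i + 1) j = m + 1 := by
    intro j
    by_cases hj : j = i
    · subst hj
      rw [Function.update_self, hwi]
      exact Or.inr rfl
    · rw [Function.update_of_ne hj]
      exact hw j
  obtain ⟨H2, hH2, h2⟩ := IH (A.filter fun s => c s ≠ i) hA2 (Function.update w i (w i + 1)) hw2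
    (fun s hs => by
      rw [Finset.mem_filter] at hs
      rw [Function.update_of_ne hs.2]
      exact hA s hs.1)
    (fun j => (Finset.card_le_card (Finset.filter_subset_filter _ (Finset.filter_subset _ _))).trans
      (hcard j))
  have hce : (A.erase s0).card + 1 = A.card := Finset.card_erase_add_one hs0
  have hmono : ∀ t, sys P d w c t A ≤ sys P d w c t (A.erase s0) := by
    intro t F hF
    rw [mem_sys] at hF ⊢
    exact ⟨hF.1, fun s hs => hF.2 s (Finset.mem_of_mem_erase hs)⟩
  have hfd : ∀ (w : Fin n → ℕ) (t : ι → k) (A : Finset ι), Module.Finite k (sys P d w c t A) := by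
    intro w t A
    have := finDim_forms P d w
    exact Submodule.finiteDimensional_of_le (inf_le_left : sys P d w c t A ≤ forms P d w)
  rcases Nat.lt_or_ge (A.erase s0).card (Module.finrank k (forms P d w)) with hlt | hge
  swap
  · refine ⟨H1, hH1, fun t ht => ?_⟩
    have h3 := h1 t ht
    have := hfd w t (A.erase s0)
    have h4 := Submodule.finrank_mono (hmono t)
    omega
  obtain ⟨t0, ht0⟩ : ∃ t0 : ι → k, eval t0 (H1 * H2) ≠ 0 := by
    by_contra hcon
    push Not at hcon
    exact mul_ne_zero hH1 hH2 (MvPolynomial.funext fun x => by rw [hcon x, map_zero])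
  rw [map_mul] at ht0
  have hD1 := h1 t0 (left_ne_zero_of_mul ht0)
  have hD2 := h2 t0 (right_ne_zero_of_mul ht0)
  rw [hP _ hw2, sum_update] at hD2
  have hcount : (A.erase s0).card ≤ (A.filter fun s => c s ≠ i).card + m := by
    have h3 : (A.filter fun s => c s = i).card + (A.filter fun s => ¬ (c s = i)).card = A.card :=
      Finset.card_filter_add_card_filter_not _
    have h4 := hcard i
    have h5 : (A.filter fun s => c s ≠ i) = A.filter fun s => ¬ (c s = i) := rfl
    rw [h5]
    omega
  -- a form with nonzero leading term at the point `i`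
  obtain ⟨F, hF, hne⟩ : ∃ F ∈ sys P d w c t0 (A.erase s0),
      homogeneousComponent (w i) (loc (P i) F) ≠ 0 := by
    by_contra hcon
    push Not at hcon
    have h3 : sys P d w c t0 (A.erase s0) ≤
        sys P d (Function.update w i (w i + 1)) c t0 (A.filter fun s => c s ≠ i) := by
      intro F hF
      have h4 := hcon F hF
      rw [mem_sys] at hF ⊢
      refine ⟨ker_rho (F := ⟨F, hF.1⟩) (Subtype.ext h4), fun s hs => ?_⟩
      rw [Finset.mem_filter] at hs
      rw [Function.update_of_ne hs.2]
      refine hF.2 s (Finset.mem_erase.2 ⟨?_, hs.1⟩)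
      rintro rfl
      exact hs.2 rfl
    have := hfd (Function.update w i (w i + 1)) t0 (A.filter fun s => c s ≠ i)
    have h5 := Submodule.finrank_mono h3
    have h6 := hP w hw
    omega
  obtain ⟨τ, hτ⟩ := exists_dir (homogeneousComponent_isHomogeneous _ _) hne
  have hsame : ∀ s ∈ A.erase s0, Function.update t0 s0 τ s = t0 s := fun s hs =>
    Function.update_of_ne (Finset.ne_of_mem_erase hs) _ _
  have hlt2 : sys P d w c (Function.update t0 s0 τ) A < sys P d w c t0 (A.erase s0) := by
    refine lt_of_le_of_ne (fun G hG => ?_) fun heq => ?_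
    · rw [mem_sys] at hG ⊢
      refine ⟨hG.1, fun s hs => ?_⟩
      rw [← hsame s hs]
      exact hG.2 s (Finset.mem_of_mem_erase hs)
    · rw [← heq, mem_sys] at hF
      have h3 := hF.2 s0 hs0
      rw [Function.update_self, val_apply] at h3
      exact hτ h3
  have := hfd w t0 (A.erase s0)
  have h7 := Submodule.finrank_lt_finrank_of_lt hlt2
  have := finDim_forms P d w
  obtain ⟨H, hH, h8⟩ := open_ker (Phi P d w c A) (Function.update t0 s0 τ)
  refine ⟨H, hH, fun t ht => ?_⟩
  have h9 := h8 t ht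
  rw [← finrank_sys, ← finrank_sys] at h9
  have h10 := sys_ge P d w c t A
  omega

theorem loc_X2 (p : Fin 2 → k) (F : MvPolynomial (Fin 3) k) : loc p (X 2 * F) = loc p F := by
  rw [map_mul]
  have : loc p (X 2) = 1 := by simp [loc]
  rw [this, one_mul]

theorem forms_up {n : ℕ} {P : Fin n → Fin 2 → k} {d : ℕ} {w : Fin n → ℕ}
    {F : MvPolynomial (Fin 3) k} (hF : F ∈ forms P d w) : X 2 * F ∈ forms P (d + 1) w := by
  obtain ⟨h1, h2⟩ := hF
  refine ⟨?_, ?_⟩
  · have h3 := (isHomogeneous_X k (2 : Fin 3)).mul (show F.IsHomogeneous d from h1)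
    rw [add_comm] at h3
    exact h3
  · exact Ideal.mul_mem_left _ _ h2

theorem sys_up {n : ℕ} {ι : Type} {P : Fin n → Fin 2 → k} {d : ℕ} {w : Fin n → ℕ}
    {c : ι → Fin n} {t : ι → k} {A : Finset ι} {F : MvPolynomial (Fin 3) k}
    (hF : F ∈ sys P d w c t A) : X 2 * F ∈ sys P (d + 1) w c t A := by
  rw [mem_sys] at hF ⊢
  refine ⟨forms_up hF.1, fun s hs => ?_⟩
  rw [val_apply, loc_X2]
  exact hF.2 s hs

theorem surj_next {n : ℕ} {ι : Type} {P : Fin n → Fin 2 → k} {d : ℕ} {w : Fin n → ℕ}
    {c : ι → Fin n} {t : ι → k} {A : Finset ι}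
    (h : Function.Surjective (ev (Phi P d w c A) t)) :
    Function.Surjective (ev (Phi P (d + 1) w c A) t) := by
  intro y
  obtain ⟨F, hF⟩ := h y
  refine ⟨⟨X 2 * (F : MvPolynomial (Fin 3) k), forms_up F.2⟩, ?_⟩
  rw [← hF]
  ext s
  rw [ev_Phi, ev_Phi, val_apply, val_apply]
  show aeval ![1, t s] (homogeneousComponent (w (c s)) (loc (P (c s))
    (X 2 * (F : MvPolynomial (Fin 3) k)))) = _
  rw [loc_X2]

/-- all degrees, one open set of directions -/
theorem all_degrees [Infinite k] {n m : ℕ} {ι : Type} {P : Fin n → Fin 2 → k}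
    (hP : ∀ w : Fin n → ℕ, (∀ i, w i = m ∨ w i = m + 1) → ∀ d : ℕ,
      Module.finrank k ↥(forms P d w) = (d + 2).choose 2 - ∑ i, (w i + 1).choose 2)
    (c : ι → Fin n) (A : Finset ι) (w : Fin n → ℕ) (hw : ∀ i, w i = m ∨ w i = m + 1)
    (hA : ∀ s ∈ A, w (c s) = m) (hcard : ∀ i, (A.filter fun s => c s = i).card ≤ m + 1) :
    ∃ H : MvPolynomial ι k, H ≠ 0 ∧ ∀ t : ι → k, eval t H ≠ 0 → ∀ d : ℕ,
      Module.finrank k (sys P d w c t A) =
        (d + 2).choose 2 - (∑ i, (w i + 1).choose 2 + A.card) := by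
  classical
  have hone := fun d => one_degree (fun w hw => hP w hw d) c A w hw hA hcard
  choose H hH h using hone
  have hex : ∃ d : ℕ, A.card ≤ Module.finrank k (forms P d w) := by
    refine ⟨∑ i, (w i + 1).choose 2 + A.card, ?_⟩
    rw [hP w hw]
    obtain ⟨S, hS⟩ : ∃ S, S = ∑ i, (w i + 1).choose 2 := ⟨_, rfl⟩
    rw [← hS, Nat.choose_succ_succ (S + A.card + 1) 1, Nat.choose_one_right]
    simp only [Nat.succ_eq_add_one]
    omega
  refine ⟨H (Nat.find hex) * H (Nat.find hex - 1), mul_ne_zero (hH _) (hH _), fun t ht d => ?_⟩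
  rw [map_mul] at ht
  suffices hs : Module.finrank k (sys P d w c t A) =
      Module.finrank k (forms P d w) - A.card by
    rw [hs, hP w hw]
    omega
  rcases Nat.lt_or_ge d (Nat.find hex) with hlt | hge
  · have h1 : Module.finrank k (forms P d w) < A.card := not_le.1 (Nat.find_min hex hlt)
    have h2 : Module.finrank k (forms P (Nat.find hex - 1) w) < A.card :=
      not_le.1 (Nat.find_min hex (by omega))
    have h3 := h (Nat.find hex - 1) t (right_ne_zero_of_mul ht)
    have h4 : sys P (Nat.find hex - 1) w c t A = ⊥ := by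
      have := finDim_forms P (Nat.find hex - 1) w
      have : Module.Finite k (sys P (Nat.find hex - 1) w c t A) :=
        Submodule.finiteDimensional_of_le
          (inf_le_left : sys P (Nat.find hex - 1) w c t A ≤ forms P (Nat.find hex - 1) w)
      apply Submodule.finrank_eq_zero.1
      omega
    have h5 : ∀ j : ℕ, ∀ F ∈ sys P d w c t A, X 2 ^ j * F ∈ sys P (d + j) w c t A := by
      intro j
      induction j with
      | zero =>
        intro F hF
        rw [pow_zero, one_mul]
        exact hF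
      | succ j ih =>
        intro F hF
        rw [pow_succ', mul_assoc]
        exact sys_up (ih F hF)
    have h6 : sys P d w c t A = ⊥ := by
      rw [eq_bot_iff]
      intro F hF
      obtain ⟨j, hj⟩ := Nat.exists_eq_add_of_le (show d ≤ Nat.find hex - 1 by omega)
      have h7 := h5 j F hF
      rw [← hj, h4, Submodule.mem_bot] at h7
      rw [Submodule.mem_bot]
      exact (mul_eq_zero.1 h7).resolve_left (pow_ne_zero _ (X_ne_zero _))
    rw [h6, finrank_bot]
    omega
  · have := finDim_forms P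
    have h1 : Function.Surjective (ev (Phi P (Nat.find hex) w c A) t) := by
      rw [surj_iff, ← finrank_sys, Fintype.card_coe, h _ t (left_ne_zero_of_mul ht)]
      have := Nat.find_spec hex
      omega
    have h2 : ∀ j : ℕ, Function.Surjective (ev (Phi P (Nat.find hex + j) w c A) t) := by
      intro j
      induction j with
      | zero => exact h1
      | succ j ih => exact surj_next ih
    obtain ⟨j, rfl⟩ := Nat.exists_eq_add_of_le hge
    have h3 := (surj_iff _ _).1 (h2 j)
    rw [← finrank_sys, Fintype.card_coe] at h3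
    omega

end Pool.Agent.Run7.h866.NU.IN
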